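import Mathlib

/-!
# Means of multiplicative functions, and telescoping in mean square
-/

set_option autoImplicit false

open Finset

namespace Run7.h402.PX

noncomputable section

/-- the mean value of a product over the prime factors -/
theorem mean_mult (x : ℕ → ℝ) (hx : ∀ p, 0 ≤ x p) (N : ℕ) :
    ∑ d ∈ Icc 1 N, ∏ p ∈ d.primeFactors, (1 + x p) ≤ N * ∏ p ∈ (Icc 1 N).filter Nat.Prime, (1 + x p / p) := by
  classical
  set P := (Icc 1 N).filter Nat.Prime with hP
  have hsub : ∀ d ∈ Icc 1 N, d.primeFactors ⊆ P := by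
    intro d hd p hp
    rw [mem_Icc] at hd
    rw [hP, mem_filter, mem_Icc]
    have h1 := Nat.prime_of_mem_primeFactors hp
    exact ⟨⟨h1.one_lt.le, (Nat.le_of_mem_primeFactors hp).trans hd.2⟩, h1⟩
  have h1 : ∀ d ∈ Icc 1 N, ∏ p ∈ d.primeFactors, (1 + x p) = ∑ T ∈ P.powerset, if T ⊆ d.primeFactors then ∏ p ∈ T, x p else 0 := by
    intro d hd
    rw [prod_one_add, ← sum_filter]
    apply sum_congr _ fun _ _ => rfl
    ext T
    rw [mem_filter, mem_powerset, mem_powerset]
    exact ⟨fun h => ⟨h.trans (hsub d hd), h⟩, fun h => h.2⟩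
  rw [sum_congr rfl h1, sum_comm]
  have h2 : ∀ T ∈ P.powerset, ∑ d ∈ Icc 1 N, (if T ⊆ d.primeFactors then ∏ p ∈ T, x p else 0) ≤ N * ∏ p ∈ T, (x p / p) := by
    intro T hT
    rw [mem_powerset] at hT
    rw [← sum_filter, sum_const, nsmul_eq_mul]
    have hTp : ∀ p ∈ T, p.Prime := fun p hp => (mem_filter.1 (hT hp)).2
    have h3 : ((Icc 1 N).filter (fun d => T ⊆ d.primeFactors)) ⊆ (Icc 1 N).filter (fun d => (∏ p ∈ T, p) ∣ d) := by
      intro d hd
      rw [mem_filter] at hd ⊢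
      refine ⟨hd.1, ?_⟩
      have h4 : ∏ p ∈ T, p ∣ ∏ p ∈ d.primeFactors, p := prod_dvd_prod_of_subset _ _ _ hd.2
      exact h4.trans (Nat.prod_primeFactors_dvd d)
    have h4 : (((Icc 1 N).filter (fun d => (∏ p ∈ T, p) ∣ d)).card : ℝ) ≤ (N : ℝ) / ((∏ p ∈ T, p : ℕ) : ℝ) := by
      have h5 : ((Icc 1 N).filter (fun d => (∏ p ∈ T, p) ∣ d)).card = N / (∏ p ∈ T, p) := by
        have := Nat.card_multiples' N (∏ p ∈ T, p)
        rw [← Nat.Ioc_filter_dvd_card_eq_div N (∏ p ∈ T, p)]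
        rfl
      rw [h5]
      exact Nat.cast_div_le
    have h5 : (((Icc 1 N).filter (fun d => T ⊆ d.primeFactors)).card : ℝ) ≤ (N : ℝ) / ((∏ p ∈ T, p : ℕ) : ℝ) :=
      le_trans (by exact_mod_cast card_le_card h3) h4
    calc (((Icc 1 N).filter (fun d => T ⊆ d.primeFactors)).card : ℝ) * ∏ p ∈ T, x p ≤
        (N : ℝ) / ((∏ p ∈ T, p : ℕ) : ℝ) * ∏ p ∈ T, x p := by
          apply mul_le_mul_of_nonneg_right h5
          exact prod_nonneg fun p _ => hx p
      _ = N * ∏ p ∈ T, (x p / p) := by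
          rw [prod_div_distrib]
          push_cast
          ring
  refine (sum_le_sum h2).trans (le_of_eq ?_)
  rw [← mul_sum, ← prod_one_add]

/-- Cauchy and the expansion of the square, over product sets -/
theorem sq_sum_prod {K : ℕ} (T U : ℕ) (c : ℕ → ℝ) (hc : ∀ t ∈ range T, |c t| ≤ 1) (R : Fin K → ℕ → ℕ → ℝ) :
    ∑ u ∈ Fintype.piFinset (fun _ : Fin K => range U), |∑ t ∈ range T, c t * ∏ i, R i t (u i)| ≤
      √((U : ℝ) ^ K * ∑ t ∈ range T, ∑ t' ∈ range T, ∏ i, |∑ u ∈ range U, R i t u * R i t' u|) := by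
  apply Real.le_sqrt_of_sq_le
  set Om := Fintype.piFinset (fun _ : Fin K => range U) with hOm
  have hcard : (Om.card : ℝ) = (U : ℝ) ^ K := by
    rw [hOm, Fintype.card_piFinset]
    simp
  have h1 : (∑ u ∈ Om, |∑ t ∈ range T, c t * ∏ i, R i t (u i)|) ^ 2 ≤ Om.card * ∑ u ∈ Om, (|∑ t ∈ range T, c t * ∏ i, R i t (u i)|) ^ 2 :=
    sq_sum_le_card_mul_sum_sq
  rw [hcard] at h1
  refine h1.trans ?_
  apply mul_le_mul_of_nonneg_left _ (by positivity)
  have h2 : ∀ u ∈ Om, (|∑ t ∈ range T, c t * ∏ i, R i t (u i)|) ^ 2 =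
      ∑ t ∈ range T, ∑ t' ∈ range T, c t * c t' * ∏ i, (R i t (u i) * R i t' (u i)) := by
    intro u _
    rw [sq_abs, pow_two, sum_mul_sum]
    apply sum_congr rfl
    intro t _
    apply sum_congr rfl
    intro t' _
    rw [prod_mul_distrib]
    ring
  rw [sum_congr rfl h2, sum_comm]
  have h3 : ∀ t ∈ range T, ∑ u ∈ Om, ∑ t' ∈ range T, c t * c t' * ∏ i, (R i t (u i) * R i t' (u i)) =
      ∑ t' ∈ range T, c t * c t' * ∏ i, ∑ u ∈ range U, R i t u * R i t' u := by
    intro t _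
    rw [sum_comm]
    apply sum_congr rfl
    intro t' _
    rw [← mul_sum]
    congr 1
    rw [hOm, prod_univ_sum]
  rw [sum_congr rfl h3]
  apply sum_le_sum
  intro t ht
  apply sum_le_sum
  intro t' ht'
  rw [← abs_prod]
  refine (le_abs_self _).trans ?_
  rw [abs_mul, abs_mul]
  have h4 : |c t| * |c t'| ≤ 1 := mul_le_one₀ (hc t ht) (abs_nonneg _) (hc t' ht')
  exact mul_le_of_le_one_left (abs_nonneg _) h4

/-- telescoping of a difference of products -/
theorem telescope {K : ℕ} (P Q : Fin K → ℝ) :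
    ∏ i, P i - ∏ i, Q i = ∑ j, ∏ i, (if i < j then P i else if i = j then P i - Q i else Q i) := by
  induction K with
  | zero => simp
  | succ K ih =>
    rw [Fin.prod_univ_succ, Fin.prod_univ_succ, Fin.sum_univ_succ]
    have h0 : ∏ i : Fin (K + 1), (if i < 0 then P i else if i = 0 then P i - Q i else Q i) =
        (P 0 - Q 0) * ∏ i : Fin K, Q i.succ := by
      rw [Fin.prod_univ_succ]
      rw [if_neg (lt_irrefl _), if_pos rfl]
      congr 1
    have h1 : ∀ j : Fin K, ∏ i : Fin (K + 1), (if i < j.succ then P i else if i = j.succ then P i - Q i else Q i) =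
        P 0 * ∏ i : Fin K, (if i < j then P i.succ else if i = j then P i.succ - Q i.succ else Q i.succ) := by
      intro j
      rw [Fin.prod_univ_succ]
      rw [if_pos (Fin.succ_pos j)]
      congr 1
      apply prod_congr rfl
      intro i _
      simp only [Fin.succ_lt_succ_iff, Fin.succ_inj]
    rw [h0, sum_congr rfl fun j _ => h1 j, ← mul_sum, ← ih (fun i => P i.succ) (fun i => Q i.succ)]
    ring

/-- telescoping in mean square -/
theorem tele_sq {K : ℕ} (T U : ℕ) (c : ℕ → ℝ) (hc : ∀ t ∈ range T, |c t| ≤ 1) (P Q : Fin K → ℕ → ℕ → ℝ) (H : ℕ → ℕ → ℝ)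
    (hP : ∀ i, ∀ t ∈ range T, ∀ t' ∈ range T, |∑ u ∈ range U, P i t u * P i t' u| ≤ H t t')
    (hQ : ∀ i, ∀ t ∈ range T, ∀ t' ∈ range T, |∑ u ∈ range U, Q i t u * Q i t' u| ≤ H t t')
    (E : ℝ) (hE : ∀ j, ∑ t ∈ range T, ∑ t' ∈ range T,
      |∑ u ∈ range U, (P j t u - Q j t u) * (P j t' u - Q j t' u)| * H t t' ^ (K - 1) ≤ E) :
    ∑ u ∈ Fintype.piFinset (fun _ : Fin K => range U), |∑ t ∈ range T, c t * (∏ i, P i t (u i) - ∏ i, Q i t (u i))| ≤
      K * √((U : ℝ) ^ K * E) := by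
  set Om := Fintype.piFinset (fun _ : Fin K => range U) with hOm
  set R : Fin K → Fin K → ℕ → ℕ → ℝ := fun j i t u => if i < j then P i t u else if i = j then P i t u - Q i t u else Q i t u with hR
  have h1 : ∀ u ∈ Om, |∑ t ∈ range T, c t * (∏ i, P i t (u i) - ∏ i, Q i t (u i))| ≤
      ∑ j, |∑ t ∈ range T, c t * ∏ i, R j i t (u i)| := by
    intro u _
    have h2 : ∑ t ∈ range T, c t * (∏ i, P i t (u i) - ∏ i, Q i t (u i)) = ∑ j, ∑ t ∈ range T, c t * ∏ i, R j i t (u i) := by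
      rw [sum_comm]
      apply sum_congr rfl
      intro t _
      rw [telescope (fun i => P i t (u i)) (fun i => Q i t (u i)), mul_sum]
    rw [h2]
    exact abs_sum_le_sum_abs _ _
  refine (sum_le_sum h1).trans ?_
  rw [sum_comm]
  have h3 : ∀ j ∈ (univ : Finset (Fin K)), ∑ u ∈ Om, |∑ t ∈ range T, c t * ∏ i, R j i t (u i)| ≤ √((U : ℝ) ^ K * E) := by
    intro j _
    refine (sq_sum_prod T U c hc (R j)).trans ?_
    apply Real.sqrt_le_sqrt
    apply mul_le_mul_of_nonneg_left _ (by positivity)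
    refine le_trans ?_ (hE j)
    apply sum_le_sum
    intro t ht
    apply sum_le_sum
    intro t' ht'
    rw [← mul_prod_erase univ (fun i => |∑ u ∈ range U, R j i t u * R j i t' u|) (mem_univ j)]
    apply mul_le_mul
    · apply le_of_eq
      congr 1
      apply sum_congr rfl
      intro u _
      rw [hR]
      simp
    · have h4 : ∏ i ∈ univ.erase j, |∑ u ∈ range U, R j i t u * R j i t' u| ≤ ∏ _i ∈ univ.erase j, H t t' := by
        apply prod_le_prod (fun i _ => abs_nonneg _)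
        intro i hi
        have hij : i ≠ j := (mem_erase.1 hi).1
        rw [hR]
        simp only
        by_cases h5 : i < j
        · simp only [if_pos h5]
          exact hP i t ht t' ht'
        · simp only [if_neg h5, if_neg hij]
          exact hQ i t ht t' ht'
      rw [prod_const, card_erase_of_mem (mem_univ j), card_univ, Fintype.card_fin] at h4
      exact h4
    · exact prod_nonneg fun i _ => abs_nonneg _
    · exact abs_nonneg _
  refine (sum_le_sum h3).trans (le_of_eq ?_)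
  rw [sum_const, card_univ, Fintype.card_fin, nsmul_eq_mul]

end

end Run7.h402.PX
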