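import Mathlib
import Pool.Agent.Erdos456.Sieve
import Pool.Agent.Run7.h402.PV.V2
import Pool.Agent.Run7.h402.PX.X1

/-!
# Pair correlations of primes and of the sieve model in residue classes
-/

set_option autoImplicit false

open Finset

namespace Run7.h402.PX

open Run7.h402.PT Run7.h402.PV
open Pool.Agent.H373R2.T7

noncomputable section

/-- the primes larger than `z`, with logarithmic weights -/
def fp (z n : ℕ) : ℝ := if n.Prime ∧ z < n then Real.log n else 0

/-- the sieve model on the integers larger than `z` -/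
def gp (z n : ℕ) : ℝ := if z < n then lamz z n else 0

/-- the modulus -/
def Wm (w : ℕ) : ℕ := ∏ p ∈ pz w, p

/-- the large prime factors -/
def hh (w d : ℕ) : ℝ := ∏ p ∈ d.primeFactors.filter (fun p => w < p), (1 - 1 / (p : ℝ))⁻¹

theorem fp_nonneg (z n : ℕ) : 0 ≤ fp z n := by
  unfold fp
  split_ifs
  · exact Real.log_natCast_nonneg n
  · exact le_rfl

theorem gp_nonneg (z n : ℕ) : 0 ≤ gp z n := by
  unfold gp
  split_ifs
  · exact lamz_nonneg z n
  · exact le_rfl

theorem fac_inv (p : ℕ) (hp : p.Prime) : 1 ≤ (1 - 1 / (p : ℝ))⁻¹ := by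
  have hp2 : (2 : ℝ) ≤ p := by exact_mod_cast hp.two_le
  have h1 : 1 / (p : ℝ) ≤ 1 / 2 := one_div_le_one_div_of_le (by norm_num) hp2
  have h2 : 0 < 1 / (p : ℝ) := by positivity
  exact (one_le_inv₀ (by linarith)).2 (by linarith)

theorem one_le_prodR (S : Finset ℕ) (f : ℕ → ℝ) (hf : ∀ p ∈ S, 1 ≤ f p) : 1 ≤ ∏ p ∈ S, f p :=
  prod_induction f (fun x => 1 ≤ x) (fun _ _ ha hb => one_le_mul_of_one_le_of_one_le ha hb) le_rfl hf

theorem prod_mono_one {S T : Finset ℕ} (h : S ⊆ T) (f : ℕ → ℝ) (hf : ∀ p ∈ T, 1 ≤ f p) : ∏ p ∈ S, f p ≤ ∏ p ∈ T, f p := by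
  rw [← prod_sdiff h]
  apply le_mul_of_one_le_left
  · exact prod_nonneg fun p hp => zero_le_one.trans (hf p (h hp))
  · exact one_le_prodR _ _ fun p hp => hf p (sdiff_subset hp)

theorem hh_one (w d : ℕ) : 1 ≤ hh w d := by
  unfold hh
  exact one_le_prodR _ _ fun p hp => fac_inv p (Nat.prime_of_mem_primeFactors (mem_filter.1 hp).1)

theorem hh_mul (w a b : ℕ) (ha : a ≠ 0) (hb : b ≠ 0) : hh w (a * b) ≤ hh w a * hh w b := by
  unfold hh
  have h1 : (a * b).primeFactors.filter (fun p => w < p) = (a.primeFactors.filter (fun p => w < p)) ∪ (b.primeFactors.filter (fun p => w < p)) := by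
    rw [Nat.primeFactors_mul ha hb, filter_union]
  rw [h1, ← prod_union_inter]
  apply le_mul_of_one_le_right
  · apply prod_nonneg
    intro p hp
    have hpp : p.Prime := by
      rcases mem_union.1 hp with h | h
      · exact Nat.prime_of_mem_primeFactors (mem_filter.1 h).1
      · exact Nat.prime_of_mem_primeFactors (mem_filter.1 h).1
    exact zero_le_one.trans (fac_inv p hpp)
  · exact one_le_prodR _ _ fun p hp => fac_inv p (Nat.prime_of_mem_primeFactors (mem_filter.1 (mem_inter.1 hp).1).1)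

theorem Wm_pos (w : ℕ) : 0 < Wm w := by
  unfold Wm
  exact prod_pos fun p hp => (mem_pz.1 hp).2.pos

theorem dvd_Wm (w p : ℕ) (hp : p.Prime) : p ∣ Wm w ↔ p ≤ w := by
  unfold Wm
  rw [Prime.dvd_finset_prod_iff hp.prime]
  constructor
  · rintro ⟨q, hq, hpq⟩
    rw [mem_pz] at hq
    rw [(Nat.prime_dvd_prime_iff_eq hp hq.2).1 hpq]
    exact hq.1
  · intro h
    exact ⟨p, mem_pz.2 ⟨h, hp⟩, dvd_rfl⟩

theorem totient_ratio (n : ℕ) (hn : n ≠ 0) : (n : ℝ) / (Nat.totient n : ℝ) = ∏ p ∈ n.primeFactors, (1 - 1 / (p : ℝ))⁻¹ := by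
  have h1 := Nat.totient_eq_mul_prod_factors n
  have h2 : (Nat.totient n : ℝ) = n * ∏ p ∈ n.primeFactors, (1 - (p : ℝ)⁻¹) := by
    have := congrArg (fun x : ℚ => (x : ℝ)) h1
    push_cast at this
    exact this
  have h3 : 0 < (n : ℝ) := by exact_mod_cast Nat.pos_of_ne_zero hn
  rw [h2, div_mul_eq_div_div, div_self h3.ne', one_div, ← prod_inv_distrib]
  apply prod_congr rfl
  intro p _
  rw [one_div]

theorem ratio_D (w δ : ℕ) (hδ : 1 ≤ δ) :
    ((Wm w * Wm w * (Wm w * Wm w * δ) : ℕ) : ℝ) / (Nat.totient (Wm w * Wm w * (Wm w * Wm w * δ)) : ℝ) = (Vz w)⁻¹ * hh w δ := by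
  have hW := (Wm_pos w).ne'
  have hne : Wm w * Wm w * (Wm w * Wm w * δ) ≠ 0 := by
    have hδ0 : δ ≠ 0 := by omega
    simp [hW, hδ0]
  rw [totient_ratio _ hne]
  unfold Vz hh
  rw [← prod_inv_distrib]
  have h1 : (Wm w * Wm w * (Wm w * Wm w * δ)).primeFactors = pz w ∪ δ.primeFactors.filter (fun p => w < p) := by
    ext p
    rw [mem_union, mem_filter, Nat.mem_primeFactors, Nat.mem_primeFactors, mem_pz]
    constructor
    · rintro ⟨hp, hd, _⟩
      by_cases hpw : p ≤ w
      · exact Or.inl ⟨hpw, hp⟩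
      · right
        have hnW : ¬ p ∣ Wm w := fun h => hpw ((dvd_Wm w p hp).1 h)
        refine ⟨⟨hp, ?_, by omega⟩, by omega⟩
        rw [hp.dvd_mul, hp.dvd_mul, hp.dvd_mul, hp.dvd_mul] at hd
        tauto
    · rintro (⟨h2, hp⟩ | ⟨⟨hp, hd, _⟩, _⟩)
      · refine ⟨hp, ?_, hne⟩
        exact ((dvd_Wm w p hp).2 h2).trans ((Dvd.intro _ rfl).trans (Dvd.intro _ rfl))
      · exact ⟨hp, hd.trans ((Dvd.intro_left _ rfl).trans (Dvd.intro_left _ rfl)), hne⟩
  rw [h1, prod_union]
  rw [disjoint_left]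
  intro p hp hp'
  rw [mem_pz] at hp
  rw [mem_filter] at hp'
  omega

/-- the pair correlation of the primes in a residue class -/
theorem pair_f : ∃ C : ℝ, 0 < C ∧ ∀ w z r s0 δ T N : ℕ, Nat.Coprime (Wm w) r → 1 ≤ δ → 2 ≤ T → Wm w * (s0 + T + δ) + r ≤ N →
    ∑ n ∈ Icc 1 T, fp z (Wm w * (s0 + n) + r) * fp z (Wm w * (s0 + n + δ) + r) ≤
      Real.log N ^ 2 * (C * ((Vz w)⁻¹ * hh w δ) ^ 2 * T / Real.log T ^ 2) := by
  obtain ⟨C, hC, h⟩ := Pool.Agent.Erdos456.sieve_two
  refine ⟨C, hC, fun w z r s0 δ T N hr hδ hT hN => ?_⟩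
  set W := Wm w with hW
  have hW0 : 0 < W := Wm_pos w
  have h1 := h W (W * s0 + r) W (W * (s0 + δ) + r) T hW0 hW0 (by
      rw [Nat.coprime_mul_left_add_right]
      exact hr) (by
      rw [Nat.coprime_mul_left_add_right]
      exact hr) (by
      intro h2
      have h3 := Nat.eq_of_mul_eq_mul_left hW0 h2
      have h4 : W * (s0 + δ) = W * s0 := by omega
      have h5 := Nat.eq_of_mul_eq_mul_left hW0 h4
      omega) hT
  have e1 : (((W * (W * (s0 + δ) + r) : ℕ) : ℤ) - ((W * (W * s0 + r) : ℕ) : ℤ)).natAbs = W * W * δ := by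
    have : (((W * (W * (s0 + δ) + r) : ℕ) : ℤ) - ((W * (W * s0 + r) : ℕ) : ℤ)) = ((W * W * δ : ℕ) : ℤ) := by
      push_cast
      ring
    rw [this, Int.natAbs_natCast]
  rw [e1, ratio_D w δ hδ] at h1
  have h2 : ∀ n ∈ Icc 1 T, fp z (W * (s0 + n) + r) * fp z (W * (s0 + n + δ) + r) ≤
      if (W * n + (W * s0 + r)).Prime ∧ (W * n + (W * (s0 + δ) + r)).Prime then Real.log N ^ 2 else 0 := by
    intro n hn
    rw [mem_Icc] at hn
    have e2 : W * (s0 + n) + r = W * n + (W * s0 + r) := by ring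
    have e3 : W * (s0 + n + δ) + r = W * n + (W * (s0 + δ) + r) := by ring
    have b1 : W * (s0 + n) + r ≤ N := by
      refine le_trans ?_ hN
      have : W * (s0 + n) ≤ W * (s0 + T + δ) := Nat.mul_le_mul_left W (by omega)
      omega
    have b2 : W * (s0 + n + δ) + r ≤ N := by
      refine le_trans ?_ hN
      have : W * (s0 + n + δ) ≤ W * (s0 + T + δ) := Nat.mul_le_mul_left W (by omega)
      omega
    have hup : ∀ m : ℕ, m ≤ N → fp z m ≤ Real.log N := by
      intro m hm
      unfold fp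
      split_ifs with h3
      · apply Real.log_le_log
        · exact_mod_cast h3.1.pos
        · exact_mod_cast hm
      · exact Real.log_natCast_nonneg N
    split_ifs with h3
    · rw [pow_two]
      exact mul_le_mul (hup _ b1) (hup _ b2) (fp_nonneg _ _) (Real.log_natCast_nonneg N)
    · rw [not_and_or] at h3
      rcases h3 with h4 | h4
      · have : fp z (W * (s0 + n) + r) = 0 := by
          unfold fp
          rw [if_neg]
          rintro ⟨h5, _⟩
          rw [e2] at h5
          exact h4 h5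
        rw [this, zero_mul]
      · have : fp z (W * (s0 + n + δ) + r) = 0 := by
          unfold fp
          rw [if_neg]
          rintro ⟨h5, _⟩
          rw [e3] at h5
          exact h4 h5
        rw [this, mul_zero]
  refine (sum_le_sum h2).trans ?_
  rw [← sum_filter, sum_const, nsmul_eq_mul, mul_comm]
  exact mul_le_mul_of_nonneg_left h1 (by positivity)

/-- linear congruences -/
theorem lin_card (p W c : ℕ) (hp : p.Prime) (hW : ¬ p ∣ W) : ((range p).filter (fun n => p ∣ W * n + c)).card = 1 := by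
  have hF : Fact p.Prime := ⟨hp⟩
  have hW0 : (W : ZMod p) ≠ 0 := by
    intro h
    exact hW ((ZMod.natCast_eq_zero_iff _ _).1 h)
  rw [card_eq_one]
  refine ⟨(-(c : ZMod p) / W).val, ?_⟩
  ext n
  rw [mem_filter, mem_range, mem_singleton]
  constructor
  · rintro ⟨hn, hd⟩
    have h1 : ((W * n + c : ℕ) : ZMod p) = 0 := (ZMod.natCast_eq_zero_iff _ _).2 hd
    push_cast at h1
    have h2 : (n : ZMod p) = -(c : ZMod p) / W := by
      rw [eq_div_iff hW0]
      linear_combination h1
    rw [← h2, ZMod.val_natCast_of_lt hn]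
  · intro h
    rw [h]
    refine ⟨ZMod.val_lt _, ?_⟩
    rw [← ZMod.natCast_eq_zero_iff]
    push_cast
    rw [ZMod.natCast_zmod_val]
    field_simp
    ring

/-- one of two linear forms is divisible by `p` -/
def Apr (W s0 δ r p n : ℕ) : Prop := p ∣ W * n + (W * s0 + r) ∨ p ∣ W * n + (W * (s0 + δ) + r)

instance (W s0 δ r p n : ℕ) : Decidable (Apr W s0 δ r p n) := by unfold Apr; infer_instance

theorem Apr_filter (W s0 δ r p : ℕ) : (range p).filter (fun b => Apr W s0 δ r p b) =
    (range p).filter (fun n => p ∣ W * n + (W * s0 + r)) ∪ (range p).filter (fun n => p ∣ W * n + (W * (s0 + δ) + r)) := by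
  ext n
  rw [mem_union, mem_filter, mem_filter, mem_filter]
  unfold Apr
  tauto

/-- the pair correlation of the model in a residue class -/
theorem pair_g (w z r s0 δ T ρ : ℕ) (hr : Nat.Coprime (Wm w) r) (hδ : 1 ≤ δ) (hz : 1 ≤ z) (hwz : w ≤ z) :
    ∑ n ∈ Icc 1 T, gp z (Wm w * (s0 + n) + r) * gp z (Wm w * (s0 + n + δ) + r) ≤
      (Vz w)⁻¹ ^ 2 * hh w δ * T + (Vz z)⁻¹ ^ 2 * ((((z : ℝ) + 1) * (2 : ℕ)) ^ ρ + 2 * T * Real.exp (3 * ((2 : ℕ) * (1 + Real.log z)) - ρ)) := by
  set W := Wm w with hW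
  have hper : ∀ p n, Apr W s0 δ r p (n % p) ↔ Apr W s0 δ r p n := by
    intro p n
    unfold Apr
    have key : ∀ c : ℕ, p ∣ W * (n % p) + c ↔ p ∣ W * n + c := by
      intro c
      rw [Nat.dvd_iff_mod_eq_zero, Nat.dvd_iff_mod_eq_zero, Nat.add_mod, Nat.mul_mod, Nat.mod_mod, ← Nat.mul_mod, ← Nat.add_mod]
    rw [key, key]
  have hcard2 : ∀ p ∈ pz z, ((range p).filter (fun b => Apr W s0 δ r p b)).card ≤ 2 := by
    intro p hp
    have hpp := (mem_pz.1 hp).2
    by_cases hpw : p ≤ w
    · have hpW : p ∣ W := (dvd_Wm w p hpp).2 hpw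
      have : (range p).filter (fun b => Apr W s0 δ r p b) = ∅ := by
        rw [filter_eq_empty_iff]
        intro b _ hb
        unfold Apr at hb
        have hpr : ¬ p ∣ r := fun h => by
          have := Nat.dvd_gcd hpW h
          rw [hr] at this
          exact hpp.one_lt.ne' (Nat.dvd_one.1 this)
        rcases hb with h | h
        · rw [Nat.dvd_add_right (hpW.mul_right _), Nat.dvd_add_right (hpW.mul_right _)] at h
          exact hpr h
        · rw [Nat.dvd_add_right (hpW.mul_right _), Nat.dvd_add_right (hpW.mul_right _)] at h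
          exact hpr h
      rw [this]
      simp
    · have hpW : ¬ p ∣ W := fun h => hpw ((dvd_Wm w p hpp).1 h)
      rw [Apr_filter]
      refine (card_union_le _ _).trans ?_
      rw [lin_card p W _ hpp hpW, lin_card p W _ hpp hpW]
  have key := multi_sieveG 2 (by norm_num) (fun p n => Apr W s0 δ r p n) hper T z ρ hz hcard2
  -- the left side
  have hVz := Vz_pos z
  have h1 : ∑ n ∈ Icc 1 T, gp z (W * (s0 + n) + r) * gp z (W * (s0 + n + δ) + r) ≤
      (Vz z)⁻¹ ^ 2 * ((((Icc 1 T).filter (fun n => ∀ p ∈ pz z, ¬ Apr W s0 δ r p n)).card : ℕ) : ℝ) := by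
    have h2 : ∀ n ∈ Icc 1 T, gp z (W * (s0 + n) + r) * gp z (W * (s0 + n + δ) + r) ≤
        if (∀ p ∈ pz z, ¬ Apr W s0 δ r p n) then (Vz z)⁻¹ ^ 2 else 0 := by
      intro n _
      have e2 : W * (s0 + n) + r = W * n + (W * s0 + r) := by ring
      have e3 : W * (s0 + n + δ) + r = W * n + (W * (s0 + δ) + r) := by ring
      have hup : ∀ m : ℕ, gp z m ≤ (Vz z)⁻¹ := by
        intro m
        unfold gp lamz
        split_ifs
        · exact le_rfl
        · positivity
        · positivity
      split_ifs with h3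
      · rw [pow_two]
        exact mul_le_mul (hup _) (hup _) (gp_nonneg _ _) (by positivity)
      · push Not at h3
        obtain ⟨p, hp, hpA⟩ := h3
        unfold Apr at hpA
        rcases hpA with h4 | h4
        · have : gp z (W * (s0 + n) + r) = 0 := by
            unfold gp lamz
            split_ifs with h5 h6
            · exfalso
              rw [e2] at h6
              exact h6 p hp h4
            · rfl
            · rfl
          rw [this, zero_mul]
        · have : gp z (W * (s0 + n + δ) + r) = 0 := by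
            unfold gp lamz
            split_ifs with h5 h6
            · exfalso
              rw [e3] at h6
              exact h6 p hp h4
            · rfl
            · rfl
          rw [this, mul_zero]
    refine (sum_le_sum h2).trans (le_of_eq ?_)
    rw [← sum_filter, sum_const, nsmul_eq_mul, mul_comm]
  refine h1.trans ?_
  have h2 := (abs_le.1 key).2
  have h3 : ((((Icc 1 T).filter (fun n => ∀ p ∈ pz z, ¬ Apr W s0 δ r p n)).card : ℕ) : ℝ) ≤
      T * ∏ p ∈ pz z, (1 - (((range p).filter (fun b => Apr W s0 δ r p b)).card : ℝ) / p) +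
      ((((z : ℝ) + 1) * (2 : ℕ)) ^ ρ + 2 * T * Real.exp (3 * ((2 : ℕ) * (1 + Real.log z)) - ρ)) := by
    linarith
  -- the product
  have hprod : (Vz z)⁻¹ ^ 2 * ∏ p ∈ pz z, (1 - (((range p).filter (fun b => Apr W s0 δ r p b)).card : ℝ) / p) ≤ (Vz w)⁻¹ ^ 2 * hh w δ := by
    have h4 : (Vz z)⁻¹ ^ 2 * ∏ p ∈ pz z, (1 - (((range p).filter (fun b => Apr W s0 δ r p b)).card : ℝ) / p) =
        ∏ p ∈ pz z, ((1 - 1 / (p : ℝ))⁻¹ ^ 2 * (1 - (((range p).filter (fun b => Apr W s0 δ r p b)).card : ℝ) / p)) := by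
      unfold Vz
      rw [prod_mul_distrib, prod_pow, prod_inv_distrib]
    rw [h4]
    have h5 : ∀ p ∈ pz z, (1 - 1 / (p : ℝ))⁻¹ ^ 2 * (1 - (((range p).filter (fun b => Apr W s0 δ r p b)).card : ℝ) / p) ≤
        (if p ≤ w then (1 - 1 / (p : ℝ))⁻¹ ^ 2 else 1) * (if p ∣ δ ∧ w < p then (1 - 1 / (p : ℝ))⁻¹ else 1) := by
      intro p hp
      have hpp := (mem_pz.1 hp).2
      have hp2 : (2 : ℝ) ≤ p := by exact_mod_cast hpp.two_le
      have hp0 : (0 : ℝ) < p := by linarith
      have hx1 : 1 / (p : ℝ) ≤ 1 / 2 := one_div_le_one_div_of_le (by norm_num) hp2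
      have hx0 : 0 < 1 / (p : ℝ) := by positivity
      have hy : 0 < 1 - 1 / (p : ℝ) := by linarith
      by_cases hpw : p ≤ w
      · rw [if_pos hpw, if_neg (by omega), mul_one]
        have : 0 ≤ (((range p).filter (fun b => Apr W s0 δ r p b)).card : ℝ) / p := by positivity
        calc (1 - 1 / (p : ℝ))⁻¹ ^ 2 * (1 - (((range p).filter (fun b => Apr W s0 δ r p b)).card : ℝ) / p) ≤ (1 - 1 / (p : ℝ))⁻¹ ^ 2 * 1 := by
              gcongr
              linarith
          _ = _ := mul_one _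
      · have hpW : ¬ p ∣ W := fun h => hpw ((dvd_Wm w p hpp).1 h)
        rw [if_neg hpw, one_mul]
        by_cases hpδ : p ∣ δ
        · rw [if_pos ⟨hpδ, by omega⟩]
          have h6 : (1 : ℝ) ≤ (((range p).filter (fun b => Apr W s0 δ r p b)).card : ℝ) := by
            have h7 : ((range p).filter (fun n => p ∣ W * n + (W * s0 + r))).card ≤ ((range p).filter (fun b => Apr W s0 δ r p b)).card := by
              apply card_le_card
              intro b hb
              rw [mem_filter] at hb ⊢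
              exact ⟨hb.1, Or.inl hb.2⟩
            rw [lin_card p W _ hpp hpW] at h7
            exact_mod_cast h7
          have h7 : 1 - (((range p).filter (fun b => Apr W s0 δ r p b)).card : ℝ) / p ≤ 1 - 1 / p := by
            have : 1 / (p : ℝ) ≤ (((range p).filter (fun b => Apr W s0 δ r p b)).card : ℝ) / p := by gcongr
            linarith
          calc (1 - 1 / (p : ℝ))⁻¹ ^ 2 * (1 - (((range p).filter (fun b => Apr W s0 δ r p b)).card : ℝ) / p) ≤
              (1 - 1 / (p : ℝ))⁻¹ ^ 2 * (1 - 1 / (p : ℝ)) := by gcongr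
            _ = (1 - 1 / (p : ℝ))⁻¹ := by
                rw [pow_two, mul_assoc, inv_mul_cancel₀ hy.ne', mul_one]
        · rw [if_neg (fun h => hpδ h.1)]
          have h6 : (2 : ℝ) ≤ (((range p).filter (fun b => Apr W s0 δ r p b)).card : ℝ) := by
            have h7 : ((range p).filter (fun b => Apr W s0 δ r p b)).card = 2 := by
              rw [Apr_filter, card_union_of_disjoint, lin_card p W _ hpp hpW, lin_card p W _ hpp hpW]
              rw [disjoint_left]
              intro b hb hb'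
              rw [mem_filter] at hb hb'
              have h8 : p ∣ W * δ := by
                have h9 : W * b + (W * (s0 + δ) + r) = (W * b + (W * s0 + r)) + W * δ := by ring
                rw [h9] at hb'
                exact (Nat.dvd_add_right hb.2).1 hb'.2
              rcases (Nat.Prime.dvd_mul hpp).1 h8 with h9 | h9
              · exact hpW h9
              · exact hpδ h9
            rw [h7]
            norm_num
          have h7 : 1 - (((range p).filter (fun b => Apr W s0 δ r p b)).card : ℝ) / p ≤ (1 - 1 / p) ^ 2 := by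
            have : 2 / (p : ℝ) ≤ (((range p).filter (fun b => Apr W s0 δ r p b)).card : ℝ) / p := by gcongr
            have h8 : (1 - 1 / (p : ℝ)) ^ 2 = 1 - 2 / p + (1 / p) ^ 2 := by ring
            have h9 : 0 ≤ (1 / (p : ℝ)) ^ 2 := by positivity
            linarith
          calc (1 - 1 / (p : ℝ))⁻¹ ^ 2 * (1 - (((range p).filter (fun b => Apr W s0 δ r p b)).card : ℝ) / p) ≤
              (1 - 1 / (p : ℝ))⁻¹ ^ 2 * (1 - 1 / (p : ℝ)) ^ 2 := by gcongr
            _ = 1 := by rw [← mul_pow, inv_mul_cancel₀ hy.ne', one_pow]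
    have h6 : ∀ p ∈ pz z, 0 ≤ (1 - 1 / (p : ℝ))⁻¹ ^ 2 * (1 - (((range p).filter (fun b => Apr W s0 δ r p b)).card : ℝ) / p) := by
      intro p hp
      have hpp := (mem_pz.1 hp).2
      have hp0 : (0 : ℝ) < p := by exact_mod_cast hpp.pos
      apply mul_nonneg (by positivity)
      have : (((range p).filter (fun b => Apr W s0 δ r p b)).card : ℝ) / p ≤ 1 := by
        rw [div_le_one hp0]
        have : ((range p).filter (fun b => Apr W s0 δ r p b)).card ≤ p := (card_filter_le _ _).trans (by rw [card_range])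
        exact_mod_cast this
      linarith
    refine (prod_le_prod h6 h5).trans ?_
    rw [prod_mul_distrib]
    apply mul_le_mul
    · rw [prod_ite, prod_const_one, mul_one]
      have h7 : (pz z).filter (fun p => p ≤ w) = pz w := by
        ext p
        rw [mem_filter, mem_pz, mem_pz]
        constructor
        · rintro ⟨⟨_, h8⟩, h9⟩
          exact ⟨h9, h8⟩
        · rintro ⟨h8, h9⟩
          exact ⟨⟨h8.trans hwz, h9⟩, h8⟩
      rw [h7, prod_pow, prod_inv_distrib]
      rfl
    · rw [prod_ite, prod_const_one, mul_one]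
      unfold hh
      apply prod_mono_one
      · intro p hp
        rw [mem_filter] at hp ⊢
        rw [Nat.mem_primeFactors]
        exact ⟨⟨(mem_pz.1 hp.1).2, hp.2.1, by omega⟩, hp.2.2⟩
      · intro p hp
        exact fac_inv p (Nat.prime_of_mem_primeFactors (mem_filter.1 hp).1)
    · apply prod_nonneg
      intro p hp
      have := fac_inv p (mem_pz.1 hp).2
      split_ifs
      · linarith
      · norm_num
    · have := Vz_pos w
      positivity
  have hT0 : (0 : ℝ) ≤ T := by positivity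
  calc (Vz z)⁻¹ ^ 2 * ((((Icc 1 T).filter (fun n => ∀ p ∈ pz z, ¬ Apr W s0 δ r p n)).card : ℕ) : ℝ) ≤
      (Vz z)⁻¹ ^ 2 * (T * ∏ p ∈ pz z, (1 - (((range p).filter (fun b => Apr W s0 δ r p b)).card : ℝ) / p) +
      ((((z : ℝ) + 1) * (2 : ℕ)) ^ ρ + 2 * T * Real.exp (3 * ((2 : ℕ) * (1 + Real.log z)) - ρ))) := by gcongr
    _ = ((Vz z)⁻¹ ^ 2 * ∏ p ∈ pz z, (1 - (((range p).filter (fun b => Apr W s0 δ r p b)).card : ℝ) / p)) * T + (Vz z)⁻¹ ^ 2 * ((((z : ℝ) + 1) * (2 : ℕ)) ^ ρ + 2 * T * Real.exp (3 * ((2 : ℕ) * (1 + Real.log z)) - ρ)) := by ring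
    _ ≤ _ := by gcongr

end

end Run7.h402.PX
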