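import Mathlib
import Pool.Agent.Run7.h402.PX.X2

/-!
# Correlations along a line, and moments of the singular series of pairs
-/

set_option autoImplicit false

open Finset

namespace Run7.h402.PX

open Run7.h402.PT Run7.h402.PV
open Pool.Agent.H373R2.T7

noncomputable section

/-- shifting a window -/
theorem window (F : ℕ → ℝ) (hF : ∀ n, 0 ≤ F n) (h0 : F 0 = 0) (q : ℤ) (Δ T : ℕ) :
    ∑ u ∈ range T, F ((q + u).toNat) * F ((q + u + Δ).toNat) ≤
      ∑ n ∈ Icc 1 T, F ((q - 1).toNat + n) * F ((q - 1).toNat + n + Δ) := by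
  classical
  have h1 : ∑ u ∈ range T, F ((q + u).toNat) * F ((q + u + Δ).toNat) =
      ∑ u ∈ (range T).filter (fun u : ℕ => 1 ≤ q + u), F ((q + u).toNat) * F ((q + u + Δ).toNat) := by
    rw [sum_filter]
    apply sum_congr rfl
    intro u _
    split_ifs with h
    · rfl
    · have : (q + u).toNat = 0 := by omega
      rw [this, h0, zero_mul]
  rw [h1]
  set S := (range T).filter (fun u : ℕ => 1 ≤ q + u) with hS
  have hinj : Set.InjOn (fun u : ℕ => (q + u).toNat - (q - 1).toNat) (S : Set ℕ) := by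
    intro u hu v hv h
    rw [hS, Finset.mem_coe, mem_filter] at hu hv
    simp only at h
    omega
  have h2 : ∑ u ∈ S, F ((q + u).toNat) * F ((q + u + Δ).toNat) =
      ∑ n ∈ S.image (fun u : ℕ => (q + u).toNat - (q - 1).toNat), F ((q - 1).toNat + n) * F ((q - 1).toNat + n + Δ) := by
    rw [sum_image hinj]
    apply sum_congr rfl
    intro u hu
    rw [hS, mem_filter] at hu
    have e1 : (q - 1).toNat + ((q + u).toNat - (q - 1).toNat) = (q + u).toNat := by omega
    have e2 : (q + u + Δ).toNat = (q + u).toNat + Δ := by omega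
    rw [e1, e2]
  rw [h2]
  apply sum_le_sum_of_subset_of_nonneg
  · intro n hn
    rw [mem_image] at hn
    obtain ⟨u, hu, rfl⟩ := hn
    rw [hS, mem_filter, mem_range] at hu
    rw [mem_Icc]
    omega
  · intro n _ _
    exact mul_nonneg (hF _) (hF _)

/-- correlations along a line -/
theorem corr_line (F : ℕ → ℝ) (hF : ∀ n, 0 ≤ F n) (h0 : F 0 = 0) (w T S : ℕ) (M : ℝ) (hM : 0 ≤ M)
    (hPB : ∀ s0 δ : ℕ, 1 ≤ δ → s0 + T + δ ≤ S → ∑ n ∈ Icc 1 T, F (s0 + n) * F (s0 + n + δ) ≤ M * hh w δ ^ 2)
    (a q : ℤ) (ha : a ≠ 0) (hS : 2 * a.natAbs * T + q.natAbs + T ≤ S) (t t' : ℕ) (ht : t < T) (ht' : t' < T) (hne : t ≠ t') :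
    |∑ u ∈ range T, F ((a * t + u + q).toNat) * F ((a * t' + u + q).toNat)| ≤ M * (hh w a.natAbs * hh w ((t' : ℤ) - t).natAbs) ^ 2 := by
  rw [abs_of_nonneg (sum_nonneg fun u _ => mul_nonneg (hF _) (hF _))]
  -- the main case
  have main : ∀ t t' : ℕ, t < T → t' < T → 0 < a * ((t' : ℤ) - t) →
      ∑ u ∈ range T, F ((a * t + u + q).toNat) * F ((a * t' + u + q).toNat) ≤ M * (hh w a.natAbs * hh w ((t' : ℤ) - t).natAbs) ^ 2 := by
    intro t t' ht ht' hpos
    set Δ : ℕ := (a * ((t' : ℤ) - t)).natAbs with hΔ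
    have hΔ' : (Δ : ℤ) = a * ((t' : ℤ) - t) := by
      rw [hΔ, Int.natCast_natAbs, abs_of_pos hpos]
    have hΔm : Δ = a.natAbs * ((t' : ℤ) - t).natAbs := by rw [hΔ, Int.natAbs_mul]
    have htt : ((t' : ℤ) - t).natAbs ≤ T := by omega
    have hΔ1 : 1 ≤ Δ := by omega
    have e : ∀ u ∈ range T, F ((a * t + u + q).toNat) * F ((a * t' + u + q).toNat) =
        F (((a * t + q) + u).toNat) * F (((a * t + q) + u + Δ).toNat) := by
      intro u _
      have e1 : a * t + u + q = (a * t + q) + u := by ring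
      have e2 : a * t' + u + q = (a * t + q) + u + Δ := by rw [hΔ']; ring
      rw [e1, e2]
    rw [sum_congr rfl e]
    refine (window F hF h0 (a * t + q) Δ T).trans ?_
    have hb1 : (a * t + q - 1).toNat ≤ a.natAbs * T + q.natAbs := by
      have h1 : a * t ≤ (a.natAbs : ℤ) * T := by
        calc a * t ≤ |a| * t := mul_le_mul_of_nonneg_right (le_abs_self a) (by positivity)
          _ ≤ |a| * T := by
              apply mul_le_mul_of_nonneg_left _ (abs_nonneg a)
              exact_mod_cast ht.le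
          _ = (a.natAbs : ℤ) * T := by rw [Int.natCast_natAbs]
      have h2 : q ≤ (q.natAbs : ℤ) := by rw [Int.natCast_natAbs]; exact le_abs_self q
      have h3 : ((a.natAbs * T + q.natAbs : ℕ) : ℤ) = (a.natAbs : ℤ) * T + q.natAbs := by push_cast; ring
      omega
    have hb2 : Δ ≤ a.natAbs * T := by
      rw [hΔm]
      exact Nat.mul_le_mul_left _ htt
    have h1 := hPB ((a * t + q - 1).toNat) Δ hΔ1 (by
      have : 2 * a.natAbs * T = a.natAbs * T + a.natAbs * T := by ring
      omega)
    refine h1.trans ?_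
    apply mul_le_mul_of_nonneg_left _ hM
    have h2 : hh w Δ ≤ hh w a.natAbs * hh w ((t' : ℤ) - t).natAbs := by
      rw [hΔm]
      apply hh_mul
      · exact Int.natAbs_ne_zero.2 ha
      · intro h
        rw [hΔm, h, mul_zero] at hΔ1
        omega
    have h3 := hh_one w Δ
    exact pow_le_pow_left₀ (by linarith) h2 2
  rcases lt_trichotomy (a * ((t' : ℤ) - t)) 0 with h | h | h
  · have h1 := main t' t ht' ht (by
      have e : a * ((t : ℤ) - t') = -(a * ((t' : ℤ) - t)) := by ring
      rw [e]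
      omega)
    have e : ((t : ℤ) - t').natAbs = ((t' : ℤ) - t).natAbs := by
      rw [← Int.natAbs_neg]
      congr 1
      ring
    rw [e] at h1
    refine le_trans (le_of_eq ?_) h1
    apply sum_congr rfl
    intro u _
    ring
  · exfalso
    rcases mul_eq_zero.1 h with h1 | h1
    · exact ha h1
    · apply hne
      omega
  · exact main t t' ht ht' h

theorem inv_pow_up (p m : ℕ) (hp : p.Prime) (h : 2 * m ≤ p) : ((1 - 1 / (p : ℝ))⁻¹) ^ m ≤ 1 + 2 * m / p := by
  have hp2 : (2 : ℝ) ≤ p := by exact_mod_cast hp.two_le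
  have hp0 : (0 : ℝ) < p := by linarith
  have hx1 : 1 / (p : ℝ) ≤ 1 / 2 := one_div_le_one_div_of_le (by norm_num) hp2
  have hx0 : 0 < 1 / (p : ℝ) := by positivity
  have hm : (m : ℝ) / p ≤ 1 / 2 := by
    rw [div_le_iff₀ hp0]
    have : (2 * m : ℝ) ≤ p := by exact_mod_cast h
    linarith
  have hm0 : 0 ≤ (m : ℝ) / p := by positivity
  have h1 : 1 - (m : ℝ) / p ≤ (1 - 1 / (p : ℝ)) ^ m := by
    have := one_add_mul_le_pow (show -2 ≤ -(1 / (p : ℝ)) by linarith) m
    have e : 1 + (m : ℝ) * -(1 / (p : ℝ)) = 1 - m / p := by ring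
    rw [e] at this
    have e2 : 1 + -(1 / (p : ℝ)) = 1 - 1 / p := by ring
    rwa [e2] at this
  rw [inv_pow, inv_le_iff_one_le_mul₀ (by
    apply pow_pos
    linarith)]
  have e3 : 2 * (m : ℝ) / p = 2 * (m / p) := by ring
  rw [e3]
  calc (1 : ℝ) ≤ (1 + 2 * (m / p)) * (1 - m / p) := by nlinarith
    _ ≤ (1 + 2 * (m / p)) * (1 - 1 / (p : ℝ)) ^ m := by
        apply mul_le_mul_of_nonneg_left h1
        positivity

/-- moments of the singular series of pairs -/
theorem hh_moment (w m T : ℕ) (hw : 2 * m ≤ w) (hw1 : 1 ≤ w) : ∑ d ∈ Icc 1 T, hh w d ^ m ≤ T * Real.exp 1 := by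
  set x : ℕ → ℝ := fun p => if w < p then 2 * m / (p : ℝ) else 0 with hx
  have hx0 : ∀ p, 0 ≤ x p := by
    intro p
    rw [hx]
    simp only
    split_ifs
    · positivity
    · exact le_rfl
  have h1 : ∀ d ∈ Icc 1 T, hh w d ^ m ≤ ∏ p ∈ d.primeFactors, (1 + x p) := by
    intro d _
    unfold hh
    rw [← prod_pow]
    have h2 : ∏ p ∈ d.primeFactors.filter (fun p => w < p), (1 - 1 / (p : ℝ))⁻¹ ^ m ≤ ∏ p ∈ d.primeFactors.filter (fun p => w < p), (1 + x p) := by
      apply prod_le_prod
      · intro p hp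
        have := fac_inv p (Nat.prime_of_mem_primeFactors (mem_filter.1 hp).1)
        positivity
      · intro p hp
        rw [mem_filter] at hp
        have hpp := Nat.prime_of_mem_primeFactors hp.1
        rw [hx]
        simp only
        rw [if_pos hp.2]
        exact inv_pow_up p m hpp (by omega)
    refine h2.trans (prod_mono_one (filter_subset _ _) _ fun p _ => ?_)
    have := hx0 p
    linarith
  refine (sum_le_sum h1).trans ((mean_mult x hx0 T).trans ?_)
  apply mul_le_mul_of_nonneg_left _ (by positivity)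
  have h2 : ∏ p ∈ (Icc 1 T).filter Nat.Prime, (1 + x p / p) ≤ Real.exp (∑ p ∈ (Icc 1 T).filter Nat.Prime, x p / p) := by
    rw [Real.exp_sum]
    apply prod_le_prod
    · intro p _
      have := hx0 p
      positivity
    · intro p _
      have := Real.add_one_le_exp (x p / p)
      linarith
  refine h2.trans (Real.exp_le_exp.2 ?_)
  have h3 : ∑ p ∈ (Icc 1 T).filter Nat.Prime, x p / p ≤ ∑ p ∈ Ioc w (max w T), 2 * (m : ℝ) * ((p : ℝ) ^ 2)⁻¹ := by
    calc ∑ p ∈ (Icc 1 T).filter Nat.Prime, x p / p = ∑ p ∈ ((Icc 1 T).filter Nat.Prime).filter (fun p => w < p), x p / p := by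
          rw [sum_filter (s := (Icc 1 T).filter Nat.Prime)]
          apply sum_congr rfl
          intro p _
          split_ifs with h
          · rfl
          · rw [hx]
            simp only
            rw [if_neg h, zero_div]
      _ = ∑ p ∈ ((Icc 1 T).filter Nat.Prime).filter (fun p => w < p), 2 * (m : ℝ) * ((p : ℝ) ^ 2)⁻¹ := by
          apply sum_congr rfl
          intro p hp
          rw [mem_filter] at hp
          rw [hx]
          simp only
          rw [if_pos hp.2, pow_two, mul_inv]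
          ring
      _ ≤ _ := by
          apply sum_le_sum_of_subset_of_nonneg
          · intro p hp
            rw [mem_filter, mem_filter, mem_Icc] at hp
            rw [mem_Ioc]
            exact ⟨hp.2, hp.1.1.2.trans (le_max_right _ _)⟩
          · intro p _ _
            positivity
  refine h3.trans ?_
  rw [← mul_sum]
  have h4 := sum_Ioc_inv_sq_le_sub (α := ℝ) (show w ≠ 0 by omega) (le_max_left w T)
  have h5 : ∑ p ∈ Ioc w (max w T), ((p : ℝ) ^ 2)⁻¹ ≤ (w : ℝ)⁻¹ := by
    have : 0 ≤ ((max w T : ℕ) : ℝ)⁻¹ := by positivity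
    linarith
  have hwr : (0 : ℝ) < w := by exact_mod_cast hw1
  calc 2 * (m : ℝ) * ∑ p ∈ Ioc w (max w T), ((p : ℝ) ^ 2)⁻¹ ≤ 2 * m * (w : ℝ)⁻¹ := by gcongr
    _ = 2 * m / w := by rw [div_eq_mul_inv]
    _ ≤ 1 := by
        rw [div_le_one hwr]
        exact_mod_cast hw

/-- sums over differences -/
theorem diff_sum (g : ℕ → ℝ) (hg : ∀ d, 0 ≤ g d) (T : ℕ) :
    ∑ t ∈ range T, ∑ t' ∈ range T, (if t = t' then 0 else g ((t' : ℤ) - t).natAbs) ≤ 2 * T * ∑ d ∈ Icc 1 T, g d := by
  classical
  have h1 : ∀ t ∈ range T, ∑ t' ∈ range T, (if t = t' then 0 else g ((t' : ℤ) - t).natAbs) ≤ 2 * ∑ d ∈ Icc 1 T, g d := by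
    intro t ht
    rw [mem_range] at ht
    have h2 : ∑ t' ∈ range T, (if t = t' then 0 else g ((t' : ℤ) - t).natAbs) =
        ∑ t' ∈ (range T).filter (fun t' => t < t'), g (t' - t) + ∑ t' ∈ (range T).filter (fun t' => t' < t), g (t - t') := by
      rw [sum_filter, sum_filter, ← sum_add_distrib]
      apply sum_congr rfl
      intro t' _
      rcases lt_trichotomy t t' with h | h | h
      · rw [if_neg h.ne, if_pos h, if_neg (by omega), add_zero]
        congr 1
        omega
      · rw [if_pos h, if_neg (by omega), if_neg (by omega), add_zero]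
      · rw [if_neg (by omega), if_neg (by omega), if_pos h, zero_add]
        congr 1
        omega
    rw [h2]
    have h3 : ∑ t' ∈ (range T).filter (fun t' => t < t'), g (t' - t) ≤ ∑ d ∈ Icc 1 T, g d := by
      rw [← sum_image (f := g) (g := fun t' => t' - t)]
      · apply sum_le_sum_of_subset_of_nonneg
        · intro d hd
          rw [mem_image] at hd
          obtain ⟨t', ht', rfl⟩ := hd
          rw [mem_filter, mem_range] at ht'
          rw [mem_Icc]
          omega
        · intro d _ _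
          exact hg d
      · intro x hx y hy h
        rw [Finset.mem_coe, mem_filter] at hx hy
        simp only at h
        omega
    have h4 : ∑ t' ∈ (range T).filter (fun t' => t' < t), g (t - t') ≤ ∑ d ∈ Icc 1 T, g d := by
      rw [← sum_image (f := g) (g := fun t' => t - t')]
      · apply sum_le_sum_of_subset_of_nonneg
        · intro d hd
          rw [mem_image] at hd
          obtain ⟨t', ht', rfl⟩ := hd
          rw [mem_filter, mem_range] at ht'
          rw [mem_Icc]
          omega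
        · intro d _ _
          exact hg d
      · intro x hx y hy h
        rw [Finset.mem_coe, mem_filter] at hx hy
        simp only at h
        omega
    linarith
  refine (sum_le_sum h1).trans (le_of_eq ?_)
  rw [sum_const, card_range, nsmul_eq_mul]
  ring

end

end Run7.h402.PX
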