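import Mathlib
import Pool.Agent.Run7.h402.PX.X3
import Pool.Agent.Run7.h402.PT.C1

/-!
# Exponential sums in residue classes, and the box norm
-/

set_option autoImplicit false

open Finset

namespace Run7.h402.PX

open Run7.h402.PT Run7.h402.PV
open Pool.Agent.H807R2.Dav
open Pool.Agent.H373R2.T7

noncomputable section

theorem sum_Icc_range {A : Type*} [AddCommMonoid A] (T : ℕ) (G : ℕ → A) : ∑ n ∈ Icc 1 T, G n = ∑ u ∈ range T, G (u + 1) := by
  rw [range_eq_Ico, sum_Ico_add' G 0 T 1]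
  apply sum_congr _ fun _ _ => rfl
  ext n
  rw [mem_Icc, mem_Ico]
  omega

/-- exponential sums over a residue class -/
theorem sup_class (W S r z : ℕ) (hW : 1 ≤ W) (hr : r < W) (hz : W ≤ z) (d : ℕ → ℝ) (hd0 : ∀ m, m ≤ z → d m = 0) (δ : ℝ)
    (hd : ∀ β : ℝ, ‖∑ m ∈ Icc 1 (W * S + r), ((d m : ℝ) : ℂ) * ee ((m : ℝ) * β)‖ ≤ δ) (α : ℝ) :
    ‖∑ n ∈ Icc 1 S, ((d (W * n + r) : ℝ) : ℂ) * ee ((n : ℝ) * α)‖ ≤ δ := by
  have hW0 : (0 : ℝ) < W := by exact_mod_cast hW
  have hWc : (W : ℂ) ≠ 0 := by exact_mod_cast hW0.ne'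
  set N := W * S + r with hN
  have h0 : ∑ n ∈ Icc 1 S, ((d (W * n + r) : ℝ) : ℂ) * ee ((n : ℝ) * α) =
      ∑ m ∈ Icc 1 N, (if (W : ℤ) ∣ (m : ℤ) - r then ((d m : ℝ) : ℂ) * ee (((m : ℝ) - r) / W * α) else 0) := by
    have hinj : Set.InjOn (fun n : ℕ => W * n + r) (Icc 1 S : Finset ℕ) := by
      intro x _ y _ h
      simp only at h
      have : W * x = W * y := by omega
      exact Nat.eq_of_mul_eq_mul_left hW this
    have e1 : ∑ n ∈ Icc 1 S, ((d (W * n + r) : ℝ) : ℂ) * ee ((n : ℝ) * α) =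
        ∑ m ∈ (Icc 1 S).image (fun n : ℕ => W * n + r), (if (W : ℤ) ∣ (m : ℤ) - r then ((d m : ℝ) : ℂ) * ee (((m : ℝ) - r) / W * α) else 0) := by
      rw [sum_image hinj]
      apply sum_congr rfl
      intro n _
      rw [if_pos]
      · congr 2
        push_cast
        field_simp
        ring
      · push_cast
        rw [add_sub_cancel_right]
        exact dvd_mul_right _ _
    rw [e1]
    apply sum_subset
    · intro m hm
      rw [mem_image] at hm
      obtain ⟨n, hn, rfl⟩ := hm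
      rw [mem_Icc] at hn ⊢
      have h1 : W * 1 ≤ W * n := Nat.mul_le_mul_left _ hn.1
      have h2 : W * n ≤ W * S := Nat.mul_le_mul_left _ hn.2
      omega
    · intro m hm hni
      split_ifs with hdv
      · obtain ⟨j, hj⟩ := hdv
        rw [mem_Icc] at hm
        have hj0 : j ≤ 0 := by
          by_contra hcon
          push Not at hcon
          apply hni
          rw [mem_image]
          refine ⟨j.toNat, ?_, ?_⟩
          · rw [mem_Icc]
            constructor
            · omega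
            · by_contra hc2
              push Not at hc2
              have h1 : (S : ℤ) + 1 ≤ j := by omega
              have h2 : (W : ℤ) * (S + 1) ≤ W * j := mul_le_mul_of_nonneg_left h1 (by positivity)
              have h3 : (m : ℤ) ≤ W * S + r := by exact_mod_cast hm.2
              have h4 : (r : ℤ) < W := by exact_mod_cast hr
              have h5 : (1 : ℤ) ≤ W := by exact_mod_cast hW
              nlinarith
          · have h1 : ((W * j.toNat + r : ℕ) : ℤ) = m := by
              push_cast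
              rw [Int.toNat_of_nonneg hcon.le]
              linarith
            exact_mod_cast h1
        have h3 : (W : ℤ) * j ≤ 0 := mul_nonpos_of_nonneg_of_nonpos (by positivity) hj0
        rw [hd0 m (by omega)]
        simp
      · rfl
  have h1 : (W : ℂ) * ∑ n ∈ Icc 1 S, ((d (W * n + r) : ℝ) : ℂ) * ee ((n : ℝ) * α) =
      ∑ h ∈ range W, ee (-((h : ℝ) * (r / W)) - r / W * α) * ∑ m ∈ Icc 1 N, ((d m : ℝ) : ℂ) * ee ((m : ℝ) * ((α + h) / W)) := by
    rw [h0, mul_sum]
    simp only [mul_sum]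
    rw [sum_comm]
    apply sum_congr rfl
    intro m _
    have e1 : ∀ h ∈ range W, ee (-((h : ℝ) * (r / W)) - r / W * α) * (((d m : ℝ) : ℂ) * ee ((m : ℝ) * ((α + h) / W))) =
        (((d m : ℝ) : ℂ) * ee (((m : ℝ) - r) / W * α)) * ee ((h : ℝ) * ((((m : ℤ) - r : ℤ) : ℝ) / W)) := by
      intro h _
      have e2 : ee (-((h : ℝ) * (r / W)) - r / W * α) * ee ((m : ℝ) * ((α + h) / W)) =
          ee (((m : ℝ) - r) / W * α) * ee ((h : ℝ) * ((((m : ℤ) - r : ℤ) : ℝ) / W)) := by
        rw [← ee_add, ← ee_add]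
        congr 1
        push_cast
        ring
      calc _ = ((d m : ℝ) : ℂ) * (ee (-((h : ℝ) * (r / W)) - r / W * α) * ee ((m : ℝ) * ((α + h) / W))) := by ring
        _ = _ := by rw [e2]; ring
    rw [sum_congr rfl e1, ← mul_sum, orth W hW]
    split_ifs
    · ring
    · simp
  have h2 : (W : ℝ) * ‖∑ n ∈ Icc 1 S, ((d (W * n + r) : ℝ) : ℂ) * ee ((n : ℝ) * α)‖ ≤ W * δ := by
    have e1 : (W : ℝ) = ‖(W : ℂ)‖ := by simp
    rw [e1, ← norm_mul, h1, ← e1]
    refine (norm_sum_le _ _).trans ?_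
    have e2 : ∀ h ∈ range W, ‖ee (-((h : ℝ) * (r / W)) - r / W * α) * ∑ m ∈ Icc 1 N, ((d m : ℝ) : ℂ) * ee ((m : ℝ) * ((α + h) / W))‖ ≤ δ := by
      intro h _
      rw [norm_mul, norm_ee, one_mul]
      exact hd _
    refine (sum_le_sum e2).trans ?_
    rw [sum_const, card_range, nsmul_eq_mul]
  exact le_of_mul_le_mul_left h2 hW0

/-- from the von Mangoldt function to the truncated weights -/
theorem sup_fg (N z : ℕ) (hN : 1 ≤ N) (hz : 1 ≤ z) (δ : ℝ)
    (hd : ∀ β : ℝ, ‖∑ m ∈ Icc 1 N, ((ArithmeticFunction.vonMangoldt m - lamz z m : ℝ) : ℂ) * ee ((m : ℝ) * β)‖ ≤ δ) (β : ℝ) :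
    ‖∑ m ∈ Icc 1 N, ((fp z m - gp z m : ℝ) : ℂ) * ee ((m : ℝ) * β)‖ ≤
      δ + 2 * √(N : ℝ) * Real.log N + z * (Real.log z + (Vz z)⁻¹) := by
  have hV : 0 ≤ (Vz z)⁻¹ := inv_nonneg.2 (Vz_pos z).le
  have hlz : 0 ≤ Real.log z := Real.log_natCast_nonneg z
  set e1 : ℕ → ℝ := fun m => ArithmeticFunction.vonMangoldt m - Fp m with he1
  set e2 : ℕ → ℝ := fun m => (lamz z m - gp z m) - (Fp m - fp z m) with he2
  have hsplit : ∑ m ∈ Icc 1 N, ((fp z m - gp z m : ℝ) : ℂ) * ee ((m : ℝ) * β) =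
      ∑ m ∈ Icc 1 N, ((ArithmeticFunction.vonMangoldt m - lamz z m : ℝ) : ℂ) * ee ((m : ℝ) * β) -
      ∑ m ∈ Icc 1 N, ((e1 m : ℝ) : ℂ) * ee ((m : ℝ) * β) + ∑ m ∈ Icc 1 N, ((e2 m : ℝ) : ℂ) * ee ((m : ℝ) * β) := by
    rw [← sum_sub_distrib, ← sum_add_distrib]
    apply sum_congr rfl
    intro m _
    rw [he1, he2]
    push_cast
    ring
  rw [hsplit]
  have hA : ‖∑ m ∈ Icc 1 N, ((e1 m : ℝ) : ℂ) * ee ((m : ℝ) * β)‖ ≤ 2 * √(N : ℝ) * Real.log N := by
    refine (norm_sum_le _ _).trans ?_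
    refine le_trans (le_of_eq ?_) (sum_lam_sub_Fp N hN)
    apply sum_congr rfl
    intro m _
    rw [norm_mul, norm_ee, mul_one, Complex.norm_real, Real.norm_of_nonneg (lam_sub_Fp_nonneg m)]
  have hB : ‖∑ m ∈ Icc 1 N, ((e2 m : ℝ) : ℂ) * ee ((m : ℝ) * β)‖ ≤ z * (Real.log z + (Vz z)⁻¹) := by
    refine (norm_sum_le _ _).trans ?_
    have h1 : ∀ m ∈ Icc 1 N, ‖((e2 m : ℝ) : ℂ) * ee ((m : ℝ) * β)‖ ≤ if m ≤ z then Real.log z + (Vz z)⁻¹ else 0 := by
      intro m hm
      rw [mem_Icc] at hm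
      rw [norm_mul, norm_ee, mul_one, Complex.norm_real, Real.norm_eq_abs]
      rw [he2]
      simp only
      unfold gp Fp fp
      by_cases h : m ≤ z
      · rw [if_pos h, if_neg (by omega), if_neg (by omega : ¬ (m.Prime ∧ z < m)), sub_zero, sub_zero]
        have hlm : Real.log m ≤ Real.log z := Real.log_le_log (by exact_mod_cast hm.1) (by exact_mod_cast h)
        have h0 : 0 ≤ Real.log m := Real.log_natCast_nonneg m
        have hlam : 0 ≤ lamz z m ∧ lamz z m ≤ (Vz z)⁻¹ := by
          unfold lamz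
          split_ifs
          · exact ⟨hV, le_rfl⟩
          · exact ⟨le_rfl, hV⟩
        rw [abs_le]
        split_ifs <;> constructor <;> linarith [hlam.1, hlam.2]
      · rw [if_neg h, if_pos (by omega)]
        have : (m.Prime ∧ z < m) ↔ m.Prime := ⟨fun h => h.1, fun h2 => ⟨h2, by omega⟩⟩
        simp only [this]
        simp
    refine (sum_le_sum h1).trans ?_
    rw [← sum_filter, sum_const, nsmul_eq_mul]
    apply mul_le_mul_of_nonneg_right _ (by positivity)
    have : ((Icc 1 N).filter (fun m => m ≤ z)).card ≤ (Icc 1 z).card := by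
      apply card_le_card
      intro m hm
      rw [mem_filter, mem_Icc] at hm
      rw [mem_Icc]
      exact ⟨hm.1.1, hm.2⟩
    rw [Nat.card_Icc] at this
    exact_mod_cast (by omega : ((Icc 1 N).filter (fun m => m ≤ z)).card ≤ z)
  refine (norm_add_le _ _).trans ?_
  have := norm_sub_le (∑ m ∈ Icc 1 N, ((ArithmeticFunction.vonMangoldt m - lamz z m : ℝ) : ℂ) * ee ((m : ℝ) * β))
    (∑ m ∈ Icc 1 N, ((e1 m : ℝ) : ℂ) * ee ((m : ℝ) * β))
  linarith [hd β]

/-- the box norm -/
theorem box (T S : ℕ) (a q : ℤ) (ha : a ≠ 0) (hT : 1 ≤ T) (hS : 2 * a.natAbs * T + q.natAbs + T ≤ S) (D : ℕ → ℝ) (hD0 : D 0 = 0)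
    (B0 : ℝ) (hB0 : 1 ≤ B0) (hDB : ∀ n ≤ S, |D n| ≤ B0) (ε : ℝ) (hε : 0 < ε)
    (hsup : ∀ α : ℝ, ‖∑ n ∈ Icc 1 S, ((D n : ℝ) : ℂ) * ee ((n : ℝ) * α)‖ ≤ ε ^ 3 * S) :
    ∑ t ∈ range T, ∑ t' ∈ range T, (∑ u ∈ range T, D ((a * t + u + q).toNat) * D ((a * t' + u + q).toNat)) ^ 2 ≤
      2 * B0 ^ 4 * ε * T ^ 3 * S := by
  have hTr : (1 : ℝ) ≤ T := by exact_mod_cast hT
  have hTS : T ≤ S := by omega
  have hTSr : (T : ℝ) ≤ S := by exact_mod_cast hTS
  set M : ℕ := 2 * S + 1 with hM
  have hM1 : 1 ≤ M := by omega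
  have hM0 : (0 : ℝ) < M := by exact_mod_cast hM1
  set F : ℕ → ℤ := fun m => a * ((m : ℤ) - 1) + q - 1 with hF
  have habs : ∀ t : ℕ, t < T → |a * t| ≤ a.natAbs * T := by
    intro t ht
    rw [abs_mul, Int.natCast_natAbs]
    apply mul_le_mul_of_nonneg_left _ (abs_nonneg a)
    rw [abs_of_nonneg (by positivity)]
    exact_mod_cast ht.le
  have hSz : (2 : ℤ) * (a.natAbs * T) + q.natAbs + T ≤ S := by
    have : ((2 * a.natAbs * T + q.natAbs + T : ℕ) : ℤ) ≤ S := by exact_mod_cast hS
    push_cast at this ⊢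
    linarith
  have hq : |q| = (q.natAbs : ℤ) := (Int.natCast_natAbs q).symm
  have hrange : ∀ t u : ℕ, t < T → u < T → |a * t + u + q| ≤ S := by
    intro t u ht hu
    have h1 := habs t ht
    have h2 : |a * t + u + q| ≤ |a * t| + u + |q| := by
      refine (abs_add_le _ _).trans ?_
      have := abs_add_le (a * (t : ℤ)) u
      have h3 : |(u : ℤ)| = u := abs_of_nonneg (by positivity)
      linarith
    have h3 : (0 : ℤ) ≤ a.natAbs * T := by positivity
    have h4 : (u : ℤ) < T := by exact_mod_cast hu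
    linarith
  have hDt : ∀ t u : ℕ, t < T → u < T → |D ((a * t + u + q).toNat)| ≤ B0 := by
    intro t u ht hu
    apply hDB
    have := hrange t u ht hu
    rw [abs_le] at this
    omega
  -- the bilinear bound
  have hmom : ∑ t ∈ range M, (‖∑ m ∈ Icc 1 T, ee ((t : ℝ) * ((F m : ℝ) / M))‖ / T) ^ (2 * 1) ≤ M / T := by
    have h1 := sq_expand (Icc 1 T) (fun _ => 1) F M hM1
    simp only [one_mul, map_one] at h1
    have h2 : ∑ i ∈ Icc 1 T, ∑ j ∈ Icc 1 T, (if (M : ℤ) ∣ F i - F j then (M : ℂ) else 0) = ((M * T : ℝ) : ℂ) := by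
      have h3 : ∀ i ∈ Icc 1 T, ∑ j ∈ Icc 1 T, (if (M : ℤ) ∣ F i - F j then (M : ℂ) else 0) = (M : ℂ) := by
        intro i hi
        rw [sum_eq_single i]
        · rw [sub_self, if_pos (dvd_zero _)]
        · intro j hj hne
          rw [if_neg]
          intro hd
          have e1 : F i - F j = a * ((i : ℤ) - j) := by rw [hF]; ring
          rw [mem_Icc] at hi hj
          have h4 : |F i - F j| < M := by
            rw [e1, abs_mul]
            have h5 : |(i : ℤ) - j| ≤ T := by rw [abs_le]; constructor <;> omega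
            calc |a| * |(i : ℤ) - j| ≤ |a| * T := mul_le_mul_of_nonneg_left h5 (abs_nonneg a)
              _ = a.natAbs * T := by rw [Int.natCast_natAbs]
              _ < M := by
                  rw [hM]
                  push_cast
                  have h3 : (0 : ℤ) ≤ a.natAbs * T := by positivity
                  have h6 : (0 : ℤ) ≤ T := by positivity
                  have h7 : (0 : ℤ) ≤ q.natAbs := by positivity
                  linarith
          have h5 := Int.eq_zero_of_abs_lt_dvd hd h4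
          rw [e1] at h5
          rcases mul_eq_zero.1 h5 with h6 | h6
          · exact ha h6
          · apply hne
            omega
        · intro h
          exact absurd hi h
      rw [sum_congr rfl h3, sum_const, Nat.card_Icc, nsmul_eq_mul]
      push_cast
      ring
    rw [h2] at h1
    have h3 : ∑ t ∈ range M, ‖∑ m ∈ Icc 1 T, ee ((t : ℝ) * ((F m : ℝ) / M))‖ ^ 2 = M * T := by exact_mod_cast h1
    have h4 : ∀ t ∈ range M, (‖∑ m ∈ Icc 1 T, ee ((t : ℝ) * ((F m : ℝ) / M))‖ / T) ^ (2 * 1) =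
        ‖∑ m ∈ Icc 1 T, ee ((t : ℝ) * ((F m : ℝ) / M))‖ ^ 2 / T ^ 2 := by
      intro t _
      rw [mul_one, div_pow]
    rw [sum_congr rfl h4, ← sum_div, h3]
    apply le_of_eq
    field_simp
  have hbil : ∀ g h : ℕ → ℝ, (∀ t, |g t| ≤ 1) → (∀ u, |h u| ≤ 1) →
      |∑ t ∈ range T, ∑ u ∈ range T, g t * h u * D ((a * t + u + q).toNat)| ≤ 2 * B0 * ε * T * S := by
    intro g h hg hh
    have h1 := bil_main T S T M hM1 (fun n => ((D n : ℝ) : ℂ)) (fun u => ((h (u - 1) : ℝ) : ℂ)) (fun t => ((g (t - 1) : ℝ) : ℂ)) F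
      (ε ^ 3 * S) ε 1 (M / T) (S * B0 ^ 2) (by
        intro u hu t ht n hn
        rw [mem_Icc] at hu ht hn
        have h2 := hrange (t - 1) (u - 1) (by omega) (by omega)
        have e1 : (u : ℤ) + F t = a * ((t - 1 : ℕ) : ℤ) + ((u - 1 : ℕ) : ℤ) + q := by
          rw [hF]
          rw [Nat.cast_sub ht.1, Nat.cast_sub hu.1]
          push_cast
          ring
        rw [e1]
        rw [abs_le] at h2
        rw [abs_lt, hM]
        push_cast
        constructor <;> omega) (by omega) (by omega) hT (fun α => hsup α) (by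
        intro u
        rw [Complex.norm_real]
        exact hh _) (by
        intro t
        rw [Complex.norm_real]
        exact hg _) hmom (by
        calc ∑ n ∈ Icc 1 S, ‖((D n : ℝ) : ℂ)‖ ^ 2 ≤ ∑ _n ∈ Icc 1 S, B0 ^ 2 := by
              apply sum_le_sum
              intro n hn
              rw [Complex.norm_real, Real.norm_eq_abs]
              exact pow_le_pow_left₀ (abs_nonneg _) (hDB n (mem_Icc.1 hn).2) 2
          _ = S * B0 ^ 2 := by
              rw [sum_const, Nat.card_Icc, nsmul_eq_mul]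
              push_cast
              ring) hε
    have e1 : ∑ u ∈ Icc 1 T, ∑ m ∈ Icc 1 T, ((h (u - 1) : ℝ) : ℂ) * ((g (m - 1) : ℝ) : ℂ) * fz (fun n => ((D n : ℝ) : ℂ)) S (u + F m) =
        ((∑ t ∈ range T, ∑ u ∈ range T, g t * h u * D ((a * t + u + q).toNat) : ℝ) : ℂ) := by
      rw [sum_comm, sum_Icc_range]
      push_cast
      apply sum_congr rfl
      intro t ht
      rw [mem_range] at ht
      rw [sum_Icc_range]
      apply sum_congr rfl
      intro u hu
      rw [mem_range] at hu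
      try simp only [Nat.add_sub_cancel]
      have e2 : ((u + 1 : ℕ) : ℤ) + F (t + 1) = a * t + u + q := by
        rw [hF]
        push_cast
        ring
      rw [e2]
      unfold fz
      have h2 := hrange t u ht hu
      rw [abs_le] at h2
      by_cases h3 : 1 ≤ a * t + u + q
      · rw [if_pos ⟨h3, h2.2⟩]
        ring
      · rw [if_neg (fun h4 => h3 h4.1)]
        have : (a * t + u + q).toNat = 0 := by omega
        rw [this, hD0]
        simp
    rw [e1, Complex.norm_real, Real.norm_eq_abs] at h1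
    refine h1.trans ?_
    have h3 : Real.sqrt (S * B0 ^ 2 * T) ≤ S * B0 := by
      apply Real.sqrt_le_iff.2
      refine ⟨by positivity, ?_⟩
      calc (S : ℝ) * B0 ^ 2 * T ≤ S * B0 ^ 2 * S := by gcongr
        _ = (S * B0) ^ 2 := by ring
    have h4 : (M : ℝ) / T / ε ^ (2 * 1) * (ε ^ 3 * S) * T * T / M = ε * T * S := by
      field_simp
    rw [h4]
    calc ε * T * S + ε * T * Real.sqrt (S * B0 ^ 2 * T) ≤ ε * T * S * B0 + ε * T * (S * B0) := by
          apply add_le_add
          · exact le_mul_of_one_le_right (by positivity) hB0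
          · gcongr
      _ = 2 * B0 * ε * T * S := by ring
  -- expansion
  have hexp : ∑ t ∈ range T, ∑ t' ∈ range T, (∑ u ∈ range T, D ((a * t + u + q).toNat) * D ((a * t' + u + q).toNat)) ^ 2 =
      ∑ t' ∈ range T, ∑ u' ∈ range T, D ((a * t' + u' + q).toNat) *
        ∑ t ∈ range T, ∑ u ∈ range T, D ((a * t + u' + q).toNat) * D ((a * t' + u + q).toNat) * D ((a * t + u + q).toNat) := by
    rw [sum_comm]
    apply sum_congr rfl
    intro t' _
    have h1 : ∀ t ∈ range T, (∑ u ∈ range T, D ((a * t + u + q).toNat) * D ((a * t' + u + q).toNat)) ^ 2 =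
        ∑ u' ∈ range T, ∑ u ∈ range T, D ((a * t' + u' + q).toNat) * (D ((a * t + u' + q).toNat) * D ((a * t' + u + q).toNat) * D ((a * t + u + q).toNat)) := by
      intro t _
      rw [pow_two, sum_mul_sum]
      apply sum_congr rfl
      intro u' _
      apply sum_congr rfl
      intro u _
      ring
    rw [sum_congr rfl h1, sum_comm]
    apply sum_congr rfl
    intro u' _
    rw [mul_sum]
    apply sum_congr rfl
    intro t _
    rw [mul_sum]
  rw [hexp]
  have hB00 : 0 < B0 := by linarith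
  have hterm : ∀ t' ∈ range T, ∀ u' ∈ range T, D ((a * t' + u' + q).toNat) *
        ∑ t ∈ range T, ∑ u ∈ range T, D ((a * t + u' + q).toNat) * D ((a * t' + u + q).toNat) * D ((a * t + u + q).toNat) ≤
      B0 * (B0 ^ 2 * (2 * B0 * ε * T * S)) := by
    intro t' ht' u' hu'
    rw [mem_range] at ht' hu'
    refine (le_abs_self _).trans ?_
    rw [abs_mul]
    apply mul_le_mul (hDt t' u' ht' hu') _ (abs_nonneg _) hB00.le
    have h1 := hbil (fun t => if t < T then D ((a * t + u' + q).toNat) / B0 else 0) (fun u => if u < T then D ((a * t' + u + q).toNat) / B0 else 0) (by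
      intro t
      split_ifs with h
      · rw [abs_div, abs_of_pos hB00, div_le_one hB00]
        exact hDt t u' h hu'
      · simp) (by
      intro u
      split_ifs with h
      · rw [abs_div, abs_of_pos hB00, div_le_one hB00]
        exact hDt t' u ht' h
      · simp)
    have e1 : ∑ t ∈ range T, ∑ u ∈ range T, D ((a * t + u' + q).toNat) * D ((a * t' + u + q).toNat) * D ((a * t + u + q).toNat) =
        B0 ^ 2 * ∑ t ∈ range T, ∑ u ∈ range T, (if t < T then D ((a * t + u' + q).toNat) / B0 else 0) * (if u < T then D ((a * t' + u + q).toNat) / B0 else 0) * D ((a * t + u + q).toNat) := by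
      rw [mul_sum]
      apply sum_congr rfl
      intro t ht
      rw [mul_sum]
      apply sum_congr rfl
      intro u hu
      rw [mem_range] at ht hu
      rw [if_pos ht, if_pos hu]
      field_simp
    rw [e1, abs_mul, abs_of_pos (by positivity : 0 < B0 ^ 2)]
    exact mul_le_mul_of_nonneg_left h1 (by positivity)
  refine (sum_le_sum fun t' ht' => sum_le_sum fun u' hu' => hterm t' ht' u' hu').trans (le_of_eq ?_)
  rw [sum_const, sum_const, card_range, nsmul_eq_mul, nsmul_eq_mul]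
  ring

end

end Run7.h402.PX
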