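import Mathlib
import Pool.Agent.Run7.h402.PX.X4

/-!
# Products along one residue class
-/

set_option autoImplicit false

open Finset

namespace Run7.h402.PX

open Run7.h402.PT Run7.h402.PV
open Pool.Agent.H807R2.Dav
open Pool.Agent.H373R2.T7

noncomputable section

/-- the mean square telescoping along one residue class -/
theorem line_tuple {K : ℕ} (T S w : ℕ) (hT : 1 ≤ T) (hw1 : 1 ≤ w) (hw : 8 * (K - 1) ≤ w) (a q : Fin K → ℤ) (ha : ∀ i, a i ≠ 0)
    (hS : ∀ i, 2 * (a i).natAbs * T + (q i).natAbs + T ≤ S) (f g : Fin K → ℕ → ℝ)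
    (hf : ∀ i n, 0 ≤ f i n) (hg : ∀ i n, 0 ≤ g i n) (hf0 : ∀ i, f i 0 = 0) (hg0 : ∀ i, g i 0 = 0)
    (B0 : ℝ) (hB0 : 1 ≤ B0) (hfB : ∀ i, ∀ n ≤ S, f i n ≤ B0) (hgB : ∀ i, ∀ n ≤ S, g i n ≤ B0)
    (M hA ε : ℝ) (hM : 0 ≤ M) (hhA : 0 ≤ hA) (hε : 0 < ε)
    (hPf : ∀ i, ∀ s0 δ : ℕ, 1 ≤ δ → s0 + T + δ ≤ S → ∑ n ∈ Icc 1 T, f i (s0 + n) * f i (s0 + n + δ) ≤ M * hh w δ ^ 2)
    (hPg : ∀ i, ∀ s0 δ : ℕ, 1 ≤ δ → s0 + T + δ ≤ S → ∑ n ∈ Icc 1 T, g i (s0 + n) * g i (s0 + n + δ) ≤ M * hh w δ ^ 2)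
    (hsup : ∀ i, ∀ α : ℝ, ‖∑ n ∈ Icc 1 S, ((f i n - g i n : ℝ) : ℂ) * ee ((n : ℝ) * α)‖ ≤ ε ^ 3 * S)
    (hhh : ∀ i, hh w (a i).natAbs ≤ hA) (c : ℕ → ℝ) (hc : ∀ t ∈ range T, |c t| ≤ 1) :
    ∑ u ∈ Fintype.piFinset (fun _ : Fin K => range T),
      |∑ t ∈ range T, c t * (∏ i, f i ((a i * t + (u i : ℕ) + q i).toNat) - ∏ i, g i ((a i * t + (u i : ℕ) + q i).toNat))| ≤
      K * √((T : ℝ) ^ K * (T * (T * B0 ^ 2) ^ K +
        (M * hA ^ 2) ^ (K - 1) * (√(2 * B0 ^ 4 * ε * T ^ 3 * S) * √(2 * T * (T * Real.exp 1))))) := by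
  classical
  have hB00 : 0 < B0 := by linarith
  set P : Fin K → ℕ → ℕ → ℝ := fun i t u => f i ((a i * t + u + q i).toNat) with hP
  set Q : Fin K → ℕ → ℕ → ℝ := fun i t u => g i ((a i * t + u + q i).toNat) with hQ
  set H : ℕ → ℕ → ℝ := fun t t' => if t = t' then T * B0 ^ 2 else M * (hA * hh w ((t' : ℤ) - t).natAbs) ^ 2 with hH
  have hrange : ∀ i, ∀ t u : ℕ, t < T → u < T → (a i * t + u + q i).toNat ≤ S := by
    intro i t u ht hu
    have h1 : a i * t ≤ |a i| * T := by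
      calc a i * t ≤ |a i| * t := mul_le_mul_of_nonneg_right (le_abs_self _) (by positivity)
        _ ≤ |a i| * T := by
            apply mul_le_mul_of_nonneg_left _ (abs_nonneg _)
            exact_mod_cast ht.le
    have h2 : q i ≤ |q i| := le_abs_self _
    have h3 : ((2 * (a i).natAbs * T + (q i).natAbs + T : ℕ) : ℤ) ≤ S := by exact_mod_cast hS i
    push_cast at h3
    have h4 : (0 : ℤ) ≤ |a i| * T := by positivity
    have h5 : (u : ℤ) < T := by exact_mod_cast hu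
    have h6 : a i * t + u + q i ≤ S := by linarith
    omega
  have hself : ∀ F : Fin K → ℕ → ℝ, (∀ i n, 0 ≤ F i n) → (∀ i, F i 0 = 0) → (∀ i, ∀ n ≤ S, F i n ≤ B0) →
      (∀ i, ∀ s0 δ : ℕ, 1 ≤ δ → s0 + T + δ ≤ S → ∑ n ∈ Icc 1 T, F i (s0 + n) * F i (s0 + n + δ) ≤ M * hh w δ ^ 2) →
      ∀ i, ∀ t ∈ range T, ∀ t' ∈ range T, |∑ u ∈ range T, F i ((a i * t + u + q i).toNat) * F i ((a i * t' + u + q i).toNat)| ≤ H t t' := by
    intro F hF hF0 hFB hFP i t ht t' ht'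
    rw [mem_range] at ht ht'
    rw [hH]
    simp only
    split_ifs with h
    · subst h
      rw [abs_of_nonneg (sum_nonneg fun u _ => mul_nonneg (hF _ _) (hF _ _))]
      have h1 : ∀ u ∈ range T, F i ((a i * t + u + q i).toNat) * F i ((a i * t + u + q i).toNat) ≤ B0 ^ 2 := by
        intro u hu
        rw [mem_range] at hu
        rw [← pow_two]
        exact pow_le_pow_left₀ (hF _ _) (hFB i _ (hrange i t u ht hu)) 2
      refine (sum_le_sum h1).trans (le_of_eq ?_)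
      rw [sum_const, card_range, nsmul_eq_mul]
    · refine (corr_line (F i) (hF i) (hF0 i) w T S M hM (hFP i) (a i) (q i) (ha i) (hS i) t t' ht ht' h).trans ?_
      apply mul_le_mul_of_nonneg_left _ hM
      have h1 := hh_one w (a i).natAbs
      have h2 := hh_one w ((t' : ℤ) - t).natAbs
      apply pow_le_pow_left₀ (by positivity)
      exact mul_le_mul_of_nonneg_right (hhh i) (by positivity)
  have hE : ∀ j, ∑ t ∈ range T, ∑ t' ∈ range T,
      |∑ u ∈ range T, (P j t u - Q j t u) * (P j t' u - Q j t' u)| * H t t' ^ (K - 1) ≤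
      T * (T * B0 ^ 2) ^ K + (M * hA ^ 2) ^ (K - 1) * (√(2 * B0 ^ 4 * ε * T ^ 3 * S) * √(2 * T * (T * Real.exp 1))) := by
    intro j
    set D : ℕ → ℝ := fun n => f j n - g j n with hD
    have hDB : ∀ n ≤ S, |D n| ≤ B0 := by
      intro n hn
      have h1 := hf j n
      have h2 := hg j n
      have h3 := hfB j n hn
      have h4 := hgB j n hn
      rw [hD, abs_le]
      constructor <;> simp only <;> linarith
    have hbox := box T S (a j) (q j) (ha j) hT (hS j) D (by rw [hD]; simp [hf0, hg0]) B0 hB0 hDB ε hε (hsup j)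
    set R : ℕ → ℕ → ℝ := fun t t' => ∑ u ∈ range T, D ((a j * t + u + q j).toNat) * D ((a j * t' + u + q j).toNat) with hR
    have e0 : ∀ t t', ∑ u ∈ range T, (P j t u - Q j t u) * (P j t' u - Q j t' u) = R t t' := fun t t' => rfl
    simp only [e0]
    have hK : 0 < K := j.pos
    have hsplit : ∀ t ∈ range T, ∀ t' ∈ range T, |R t t'| * H t t' ^ (K - 1) ≤
        (if t = t' then (T * B0 ^ 2) ^ K else 0) + (M * hA ^ 2) ^ (K - 1) * (|R t t'| * (if t = t' then 0 else hh w ((t' : ℤ) - t).natAbs ^ (2 * (K - 1)))) := by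
      intro t ht t' ht'
      rw [mem_range] at ht ht'
      rw [hH]
      simp only
      split_ifs with h
      · subst h
        rw [mul_zero, mul_zero, add_zero]
        have h1 : |R t t| ≤ T * B0 ^ 2 := by
          rw [hR]
          simp only
          refine (abs_sum_le_sum_abs _ _).trans ?_
          have h1 : ∀ u ∈ range T, |D ((a j * t + u + q j).toNat) * D ((a j * t + u + q j).toNat)| ≤ B0 ^ 2 := by
            intro u hu
            rw [mem_range] at hu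
            rw [abs_mul, ← pow_two]
            exact pow_le_pow_left₀ (abs_nonneg _) (hDB _ (hrange j t u ht hu)) 2
          refine (sum_le_sum h1).trans (le_of_eq ?_)
          rw [sum_const, card_range, nsmul_eq_mul]
        calc |R t t| * (T * B0 ^ 2) ^ (K - 1) ≤ (T * B0 ^ 2) * (T * B0 ^ 2) ^ (K - 1) := by gcongr
          _ = (T * B0 ^ 2) ^ K := by
              rw [← pow_succ', Nat.sub_add_cancel hK]
      · rw [zero_add]
        apply le_of_eq
        rw [pow_mul]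
        calc |R t t'| * (M * (hA * hh w ((t' : ℤ) - t).natAbs) ^ 2) ^ (K - 1) =
            |R t t'| * ((M * hA ^ 2) * hh w ((t' : ℤ) - t).natAbs ^ 2) ^ (K - 1) := by ring
          _ = _ := by rw [mul_pow]; ring
    refine (sum_le_sum fun t ht => sum_le_sum fun t' ht' => hsplit t ht t' ht').trans ?_
    have e1 : ∑ t ∈ range T, ∑ t' ∈ range T, ((if t = t' then (T * B0 ^ 2) ^ K else 0) +
        (M * hA ^ 2) ^ (K - 1) * (|R t t'| * (if t = t' then 0 else hh w ((t' : ℤ) - t).natAbs ^ (2 * (K - 1))))) =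
        T * (T * B0 ^ 2) ^ K + (M * hA ^ 2) ^ (K - 1) *
          ∑ t ∈ range T, ∑ t' ∈ range T, |R t t'| * (if t = t' then 0 else hh w ((t' : ℤ) - t).natAbs ^ (2 * (K - 1))) := by
      simp only [sum_add_distrib, ← mul_sum]
      congr 1
      have : ∀ t ∈ range T, ∑ t' ∈ range T, (if t = t' then ((T : ℝ) * B0 ^ 2) ^ K else 0) = (T * B0 ^ 2) ^ K := by
        intro t ht
        rw [sum_ite_eq, if_pos ht]
      rw [sum_congr rfl this, sum_const, card_range, nsmul_eq_mul]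
    rw [e1]
    apply add_le_add le_rfl
    apply mul_le_mul_of_nonneg_left _ (by positivity)
    rw [← sum_product' (f := fun t t' : ℕ => |R t t'| * (if t = t' then 0 else hh w ((t' : ℤ) - t).natAbs ^ (2 * (K - 1))))]
    refine (Real.sum_mul_le_sqrt_mul_sqrt (range T ×ˢ range T) (fun x => |R x.1 x.2|)
      (fun x => if x.1 = x.2 then 0 else hh w ((x.2 : ℤ) - x.1).natAbs ^ (2 * (K - 1)))).trans ?_
    apply mul_le_mul _ _ (Real.sqrt_nonneg _) (Real.sqrt_nonneg _)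
    · apply Real.sqrt_le_sqrt
      refine le_trans (le_of_eq ?_) hbox
      rw [sum_product (f := fun x : ℕ × ℕ => |R x.1 x.2| ^ 2)]
      apply sum_congr rfl
      intro t _
      apply sum_congr rfl
      intro t' _
      simp only
      rw [sq_abs]
    · apply Real.sqrt_le_sqrt
      rw [sum_product (f := fun x : ℕ × ℕ => (if x.1 = x.2 then 0 else hh w ((x.2 : ℤ) - x.1).natAbs ^ (2 * (K - 1))) ^ 2)]
      have e2 : ∀ t ∈ range T, ∀ t' ∈ range T, (if t = t' then 0 else hh w ((t' : ℤ) - t).natAbs ^ (2 * (K - 1))) ^ 2 =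
          if t = t' then 0 else (fun d => hh w d ^ (4 * (K - 1))) ((t' : ℤ) - t).natAbs := by
        intro t _ t' _
        simp only
        split_ifs
        · norm_num
        · rw [← pow_mul]
          congr 1
          ring
      rw [sum_congr rfl fun t ht => sum_congr rfl fun t' ht' => e2 t ht t' ht']
      refine (diff_sum (fun d => hh w d ^ (4 * (K - 1))) (fun d => by
        have := hh_one w d
        positivity) T).trans ?_
      apply mul_le_mul_of_nonneg_left _ (by positivity)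
      exact hh_moment w (4 * (K - 1)) T (by omega) hw1
  exact tele_sq T T c hc P Q H (hself f hf hf0 hfB hPf) (hself g hg hg0 hgB hPg) _ hE

/-- the final form of the bound for one residue class -/
theorem line_final {K : ℕ} (hK : 1 ≤ K) (T S : ℕ) (hT : 1 ≤ T) (B0 M' hA ε ρ : ℝ) (hB0 : 1 ≤ B0) (hM : 0 ≤ M') (hhA : 0 ≤ hA) (hε : 0 < ε)
    (hρ : (S : ℝ) ≤ ρ * T) :
    √((T : ℝ) ^ K * (T * (T * B0 ^ 2) ^ K +
        (M' * T * hA ^ 2) ^ (K - 1) * (√(2 * B0 ^ 4 * ε * T ^ 3 * S) * √(2 * T * (T * Real.exp 1))))) ≤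
      (T : ℝ) ^ (K + 1) * (B0 ^ K / √(T : ℝ) + √(M' ^ (K - 1)) * hA ^ (K - 1) * (B0 * √(√(16 * ρ * ε)))) := by
  have hTr : (1 : ℝ) ≤ T := by exact_mod_cast hT
  have hT0 : (0 : ℝ) < T := by linarith
  have hρ0 : 0 ≤ ρ := by
    have : 0 ≤ ρ * T := le_trans (by positivity) hρ
    exact nonneg_of_mul_nonneg_left this hT0
  have hadd : ∀ x y : ℝ, 0 ≤ x → 0 ≤ y → √(x + y) ≤ √x + √y := by
    intro x y hx hy
    rw [Real.sqrt_le_iff]
    refine ⟨by positivity, ?_⟩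
    have h1 := Real.sq_sqrt hx
    have h2 := Real.sq_sqrt hy
    nlinarith [Real.sqrt_nonneg x, Real.sqrt_nonneg y, mul_nonneg (Real.sqrt_nonneg x) (Real.sqrt_nonneg y)]
  rw [mul_add]
  refine (hadd _ _ (by positivity) (by positivity)).trans ?_
  rw [mul_add]
  apply add_le_add
  · apply le_of_eq
    rw [Real.sqrt_eq_iff_mul_self_eq (by positivity) (by positivity)]
    have h1 : √(T : ℝ) * √(T : ℝ) = T := Real.mul_self_sqrt hT0.le
    have h2 : ((T : ℝ) ^ (K + 1) * (B0 ^ K / √(T : ℝ))) * ((T : ℝ) ^ (K + 1) * (B0 ^ K / √(T : ℝ))) =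
        (T : ℝ) ^ (K + 1) * (T : ℝ) ^ (K + 1) * (B0 ^ K * B0 ^ K) / (√(T : ℝ) * √(T : ℝ)) := by
      field_simp
    rw [h2, h1, mul_pow, ← pow_mul]
    have h3 : (T : ℝ) ^ (K + 1) = T ^ K * T := pow_succ _ _
    rw [h3]
    field_simp
    ring
  · have hstep : (T : ℝ) ^ K * ((M' * T * hA ^ 2) ^ (K - 1) * (√(2 * B0 ^ 4 * ε * T ^ 3 * S) * √(2 * T * (T * Real.exp 1)))) ≤
        ((T : ℝ) ^ (K + 1)) ^ 2 * (M' ^ (K - 1) * (hA ^ (K - 1)) ^ 2 * (B0 ^ 2 * √(16 * ρ * ε))) := by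
      have h1 : √(2 * B0 ^ 4 * ε * T ^ 3 * S) * √(2 * T * (T * Real.exp 1)) ≤ T ^ 3 * (B0 ^ 2 * √(16 * ρ * ε)) := by
        rw [← Real.sqrt_mul (by positivity)]
        apply Real.sqrt_le_iff.2
        refine ⟨by positivity, ?_⟩
        have h2 : √(16 * ρ * ε) ^ 2 = 16 * ρ * ε := Real.sq_sqrt (by positivity)
        have he : Real.exp 1 ≤ 4 := by
          have := Real.exp_one_lt_d9
          linarith
        calc 2 * B0 ^ 4 * ε * T ^ 3 * S * (2 * T * (T * Real.exp 1)) ≤ 2 * B0 ^ 4 * ε * T ^ 3 * (ρ * T) * (2 * T * (T * 4)) := by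
              gcongr
          _ = (T ^ 3 * B0 ^ 2) ^ 2 * (16 * ρ * ε) := by ring
          _ = (T ^ 3 * B0 ^ 2) ^ 2 * √(16 * ρ * ε) ^ 2 := by rw [h2]
          _ = (T ^ 3 * (B0 ^ 2 * √(16 * ρ * ε))) ^ 2 := by ring
      calc (T : ℝ) ^ K * ((M' * T * hA ^ 2) ^ (K - 1) * (√(2 * B0 ^ 4 * ε * T ^ 3 * S) * √(2 * T * (T * Real.exp 1)))) ≤
          (T : ℝ) ^ K * ((M' * T * hA ^ 2) ^ (K - 1) * (T ^ 3 * (B0 ^ 2 * √(16 * ρ * ε)))) := by gcongr
        _ = ((T : ℝ) ^ (K + 1)) ^ 2 * (M' ^ (K - 1) * (hA ^ (K - 1)) ^ 2 * (B0 ^ 2 * √(16 * ρ * ε))) := by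
            obtain ⟨k, rfl⟩ : ∃ k, K = k + 1 := ⟨K - 1, by omega⟩
            rw [Nat.add_sub_cancel]
            ring
    refine (Real.sqrt_le_sqrt hstep).trans (le_of_eq ?_)
    rw [Real.sqrt_mul (by positivity), Real.sqrt_sq (by positivity)]
    congr 1
    rw [Real.sqrt_mul (by positivity), Real.sqrt_mul (by positivity), Real.sqrt_sq (by positivity), Real.sqrt_mul (by positivity),
      Real.sqrt_sq (by positivity)]

end

end Run7.h402.PX
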