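import Mathlib
import Pool.Agent.Run7.h402.PX.X5

/-!
# Summation over the residue classes
-/

set_option autoImplicit false

open Finset

namespace Run7.h402.PX

open Run7.h402.PT Run7.h402.PV
open Pool.Agent.H807R2.Dav
open Pool.Agent.H373R2.T7

noncomputable section

theorem fp_zero (z n : ℕ) (h : n ≤ z) : fp z n = 0 := by
  unfold fp
  rw [if_neg (by omega)]

theorem gp_zero (z n : ℕ) (h : n ≤ z) : gp z n = 0 := by
  unfold gp
  rw [if_neg (by omega)]

theorem toNat_line (F : ℕ → ℝ) (z W r : ℕ) (hr : r < W) (hz : W ≤ z) (hF : ∀ n ≤ z, F n = 0) (x : ℤ) :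
    F ((W * x + r).toNat) = F (W * x.toNat + r) := by
  by_cases hx : 0 ≤ x
  · obtain ⟨n, rfl⟩ := Int.eq_ofNat_of_zero_le hx
    congr 1
  · push Not at hx
    have h0 : (W : ℤ) * x ≤ W * (-1) := mul_le_mul_of_nonneg_left (by omega) (by positivity)
    have h1 : ((W : ℤ) * x + r).toNat = 0 := by omega
    have h2 : x.toNat = 0 := by omega
    rw [h1, h2, hF 0 (by omega), hF _ (by omega)]

theorem fp_cop (w z n : ℕ) (hw : w ≤ z) (h : ¬ Nat.Coprime (Wm w) n) : fp z n = 0 := by
  unfold fp
  rw [if_neg]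
  rintro ⟨h1, h2⟩
  apply h
  rw [Nat.coprime_comm, h1.coprime_iff_not_dvd, dvd_Wm w n h1]
  omega

theorem gp_cop (w z n : ℕ) (hw : w ≤ z) (h : ¬ Nat.Coprime (Wm w) n) : gp z n = 0 := by
  rw [Nat.Prime.not_coprime_iff_dvd] at h
  obtain ⟨p, hp, hd1, hd2⟩ := h
  rw [dvd_Wm w p hp] at hd1
  unfold gp lamz
  split_ifs with h1 h2
  · exfalso
    exact h2 p (mem_pz.2 ⟨by omega, hp⟩) hd2
  · rfl
  · rfl

theorem pi_split {K : ℕ} (W T : ℕ) (hW : 1 ≤ W) (G : (Fin K → ℕ) → ℝ) :
    ∑ m ∈ Fintype.piFinset (fun _ : Fin K => range (W * T)), G m =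
      ∑ c ∈ Fintype.piFinset (fun _ : Fin K => range W), ∑ u ∈ Fintype.piFinset (fun _ : Fin K => range T), G (fun i => W * u i + c i) := by
  rw [← sum_product' (f := fun c u : Fin K → ℕ => G (fun i => W * u i + c i))]
  symm
  apply sum_nbij' (fun x : (Fin K → ℕ) × (Fin K → ℕ) => fun i => W * x.2 i + x.1 i) (fun m => (fun i => m i % W, fun i => m i / W))
  · intro x hx
    rw [mem_product, Fintype.mem_piFinset, Fintype.mem_piFinset] at hx
    rw [Fintype.mem_piFinset]
    intro i
    have h1 := mem_range.1 (hx.1 i)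
    have h2 := mem_range.1 (hx.2 i)
    rw [mem_range]
    calc W * x.2 i + x.1 i < W * x.2 i + W := by omega
      _ = W * (x.2 i + 1) := by ring
      _ ≤ W * T := Nat.mul_le_mul_left _ h2
  · intro m hm
    rw [Fintype.mem_piFinset] at hm
    rw [mem_product, Fintype.mem_piFinset, Fintype.mem_piFinset]
    refine ⟨fun i => mem_range.2 (Nat.mod_lt _ hW), fun i => mem_range.2 ?_⟩
    exact Nat.div_lt_of_lt_mul (mem_range.1 (hm i))
  · intro x hx
    rw [mem_product, Fintype.mem_piFinset, Fintype.mem_piFinset] at hx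
    refine Prod.ext ?_ ?_
    · funext i
      have h1 := mem_range.1 (hx.1 i)
      simp only
      rw [Nat.mul_add_mod, Nat.mod_eq_of_lt h1]
    · funext i
      have h1 := mem_range.1 (hx.1 i)
      simp only
      rw [Nat.mul_add_div hW, Nat.div_eq_of_lt h1, add_zero]
  · intro m _
    funext i
    exact Nat.div_add_mod _ _
  · intro x _
    rfl

theorem range_split (W T : ℕ) (hW : 1 ≤ W) (G : ℕ → ℝ) :
    ∑ n ∈ range (W * T), G n = ∑ b ∈ range W, ∑ t ∈ range T, G (W * t + b) := by
  rw [← sum_product' (f := fun b t : ℕ => G (W * t + b))]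
  symm
  apply sum_nbij' (fun x : ℕ × ℕ => W * x.2 + x.1) (fun m => (m % W, m / W))
  · intro x hx
    rw [mem_product, mem_range, mem_range] at hx
    rw [mem_range]
    calc W * x.2 + x.1 < W * x.2 + W := by omega
      _ = W * (x.2 + 1) := by ring
      _ ≤ W * T := Nat.mul_le_mul_left _ hx.2
  · intro m hm
    rw [mem_product, mem_range, mem_range]
    exact ⟨Nat.mod_lt _ hW, Nat.div_lt_of_lt_mul (mem_range.1 hm)⟩
  · intro x hx
    rw [mem_product, mem_range, mem_range] at hx
    refine Prod.ext ?_ ?_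
    · simp only
      rw [Nat.mul_add_mod, Nat.mod_eq_of_lt hx.1]
    · simp only
      rw [Nat.mul_add_div hW, Nat.div_eq_of_lt hx.1, add_zero]
  · intro m _
    exact Nat.div_add_mod _ _
  · intro x _
    rfl

/-- counting the coprime residues along a shift -/
theorem shift_totient (W : ℕ) (hW : 1 ≤ W) (k : ℤ) :
    ∑ c ∈ range W, (if Nat.Coprime W ((k + c) % W).toNat then (1 : ℝ) else 0) = Nat.totient W := by
  have hW0 : (0 : ℤ) < W := by exact_mod_cast hW
  have h1 : ∑ c ∈ range W, (if Nat.Coprime W ((k + c) % W).toNat then (1 : ℝ) else 0) =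
      ∑ r ∈ range W, (if Nat.Coprime W r then (1 : ℝ) else 0) := by
    apply sum_nbij' (fun c : ℕ => ((k + c) % W).toNat) (fun r : ℕ => (((r : ℤ) - k) % W).toNat)
    · intro c _
      rw [mem_range]
      have h1 := Int.emod_nonneg (k + c) hW0.ne'
      have h2 := Int.emod_lt_of_pos (k + c) hW0
      omega
    · intro r _
      rw [mem_range]
      have h1 := Int.emod_nonneg ((r : ℤ) - k) hW0.ne'
      have h2 := Int.emod_lt_of_pos ((r : ℤ) - k) hW0
      omega
    · intro c hc
      rw [mem_range] at hc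
      have h1 := Int.emod_nonneg (k + c) hW0.ne'
      rw [Int.toNat_of_nonneg h1, Int.emod_sub_emod]
      have : k + c - k = c := by ring
      rw [this, Int.emod_eq_of_lt (by positivity) (by exact_mod_cast hc), Int.toNat_natCast]
    · intro r hr
      rw [mem_range] at hr
      have h1 := Int.emod_nonneg ((r : ℤ) - k) hW0.ne'
      rw [Int.toNat_of_nonneg h1, Int.add_emod_emod]
      have : k + ((r : ℤ) - k) = r := by ring
      rw [this, Int.emod_eq_of_lt (by positivity) (by exact_mod_cast hr), Int.toNat_natCast]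
    · intro c _
      rfl
  rw [h1, Nat.totient_eq_card_coprime, card_filter]
  push_cast
  rfl

/-- the sum over the residue classes -/
theorem residue_sum {K : ℕ} (hK : 1 ≤ K) (W T w z : ℕ) (hWw : W = Wm w) (hwz : w ≤ z) (hzW : W ≤ z) (a : Fin K → ℤ) (c : ℕ → ℝ)
    (hc : ∀ n, |c n| ≤ 1) (Bd : ℝ) (hBd : 0 ≤ Bd)
    (hline : ∀ (q : Fin K → ℤ) (r : Fin K → ℕ) (c' : ℕ → ℝ), (∀ i, r i < W) → (∀ i, Nat.Coprime W (r i)) →
      (∀ i, (q i).natAbs ≤ (a i).natAbs + 1) → (∀ n, |c' n| ≤ 1) →
      ∑ u ∈ Fintype.piFinset (fun _ : Fin K => range T), |∑ t ∈ range T, c' t *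
        (∏ i, fp z (W * (a i * t + (u i : ℕ) + q i).toNat + r i) - ∏ i, gp z (W * (a i * t + (u i : ℕ) + q i).toNat + r i))| ≤ Bd) :
    ∑ m ∈ Fintype.piFinset (fun _ : Fin K => range (W * T)), |∑ n ∈ range (W * T), c n *
        (∏ i, fp z ((a i * n + (m i : ℕ)).toNat) - ∏ i, gp z ((a i * n + (m i : ℕ)).toNat))| ≤
      W * (Nat.totient W : ℝ) ^ K * Bd := by
  classical
  have hW : 1 ≤ W := by rw [hWw]; exact Wm_pos w
  have hW0 : (0 : ℤ) < W := by exact_mod_cast hW
  rw [pi_split W T hW]
  have h1 : ∀ cc ∈ Fintype.piFinset (fun _ : Fin K => range W), ∑ u ∈ Fintype.piFinset (fun _ : Fin K => range T),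
      |∑ n ∈ range (W * T), c n * (∏ i, fp z ((a i * n + ((W * u i + cc i : ℕ) : ℤ)).toNat) - ∏ i, gp z ((a i * n + ((W * u i + cc i : ℕ) : ℤ)).toNat))| ≤
      ∑ b ∈ range W, Bd * ∏ i, (if Nat.Coprime W ((a i * b + (cc i : ℕ)) % W).toNat then (1 : ℝ) else 0) := by
    intro cc hcc
    rw [Fintype.mem_piFinset] at hcc
    have h2 : ∀ u ∈ Fintype.piFinset (fun _ : Fin K => range T),
        |∑ n ∈ range (W * T), c n * (∏ i, fp z ((a i * n + ((W * u i + cc i : ℕ) : ℤ)).toNat) - ∏ i, gp z ((a i * n + ((W * u i + cc i : ℕ) : ℤ)).toNat))| ≤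
        ∑ b ∈ range W, |∑ t ∈ range T, c (W * t + b) * (∏ i, fp z ((a i * ((W * t + b : ℕ) : ℤ) + ((W * u i + cc i : ℕ) : ℤ)).toNat) -
          ∏ i, gp z ((a i * ((W * t + b : ℕ) : ℤ) + ((W * u i + cc i : ℕ) : ℤ)).toNat))| := by
      intro u _
      rw [range_split W T hW]
      exact abs_sum_le_sum_abs _ _
    refine (sum_le_sum h2).trans ?_
    rw [sum_comm]
    apply sum_le_sum
    intro b hb
    rw [mem_range] at hb
    set r : Fin K → ℕ := fun i => ((a i * b + (cc i : ℕ)) % W).toNat with hr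
    set q : Fin K → ℤ := fun i => (a i * b + (cc i : ℕ)) / W with hq
    have hr1 : ∀ i, r i < W := by
      intro i
      have h1 := Int.emod_nonneg (a i * b + (cc i : ℕ)) hW0.ne'
      have h2 := Int.emod_lt_of_pos (a i * b + (cc i : ℕ)) hW0
      rw [hr]
      simp only
      omega
    have hrq : ∀ i, a i * b + (cc i : ℕ) = W * q i + r i := by
      intro i
      have h1 := Int.emod_nonneg (a i * b + (cc i : ℕ)) hW0.ne'
      rw [hr, hq]
      simp only
      rw [Int.toNat_of_nonneg h1]
      exact (Int.mul_ediv_add_emod _ _).symm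
    have hval : ∀ F : ℕ → ℝ, (∀ n ≤ z, F n = 0) → ∀ (i : Fin K) (t u : ℕ), F ((a i * ((W * t + b : ℕ) : ℤ) + ((W * u + cc i : ℕ) : ℤ)).toNat) =
        F (W * (a i * t + u + q i).toNat + r i) := by
      intro F hF i t u
      rw [← toNat_line F z W (r i) (hr1 i) hzW hF]
      congr 2
      have h1 := hrq i
      push_cast
      linear_combination h1
    have e1 : ∀ u ∈ Fintype.piFinset (fun _ : Fin K => range T), |∑ t ∈ range T, c (W * t + b) * (∏ i, fp z ((a i * ((W * t + b : ℕ) : ℤ) + ((W * u i + cc i : ℕ) : ℤ)).toNat) -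
          ∏ i, gp z ((a i * ((W * t + b : ℕ) : ℤ) + ((W * u i + cc i : ℕ) : ℤ)).toNat))| =
        |∑ t ∈ range T, c (W * t + b) *
        (∏ i, fp z (W * (a i * t + (u i : ℕ) + q i).toNat + r i) - ∏ i, gp z (W * (a i * t + (u i : ℕ) + q i).toNat + r i))| := by
      intro u _
      congr 1
      apply sum_congr rfl
      intro t _
      rw [prod_congr rfl fun i _ => hval (fp z) (fp_zero z) i t (u i), prod_congr rfl fun i _ => hval (gp z) (gp_zero z) i t (u i)]
    rw [sum_congr rfl e1]
    by_cases hcop : ∀ i, Nat.Coprime W (r i)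
    · have e2 : ∏ i, (if Nat.Coprime W ((a i * b + (cc i : ℕ)) % W).toNat then (1 : ℝ) else 0) = 1 := by
        apply prod_eq_one
        intro i _
        rw [if_pos (hcop i)]
      rw [e2, mul_one]
      apply hline q r (fun t => c (W * t + b)) hr1 hcop _ (fun n => hc _)
      intro i
      have h3 := hrq i
      have h4 := mem_range.1 (hcc i)
      have h5 : |a i * b| ≤ |a i| * (W - 1) := by
        rw [abs_mul]
        apply mul_le_mul_of_nonneg_left _ (abs_nonneg _)
        rw [abs_of_nonneg (by positivity)]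
        omega
      have h6 : |q i| ≤ |a i| + 1 := by
        have h7 : (W : ℤ) * |q i| ≤ W * (|a i| + 1) := by
          have h8 : |(W : ℤ) * q i| = W * |q i| := by rw [abs_mul, abs_of_pos hW0]
          rw [← h8]
          have h9 : (W : ℤ) * q i = a i * b + ((cc i : ℤ) - r i) := by linarith
          rw [h9]
          refine (abs_add_le _ _).trans ?_
          have h10 : |(cc i : ℤ) - r i| ≤ W := by
            have := hr1 i
            rw [abs_le]
            constructor <;> omega
          have h11 : |a i| * (W - 1) ≤ |a i| * W := by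
            apply mul_le_mul_of_nonneg_left _ (abs_nonneg _)
            omega
          linarith
        exact le_of_mul_le_mul_left h7 hW0
      have h7 : (|q i|).natAbs = (q i).natAbs := Int.natAbs_abs _
      have h8 : (|a i|).natAbs = (a i).natAbs := Int.natAbs_abs _
      have h9 := abs_nonneg (q i)
      have h10 := abs_nonneg (a i)
      omega
    · push Not at hcop
      obtain ⟨i, hi⟩ := hcop
      have e2 : ∏ i, (if Nat.Coprime W ((a i * b + (cc i : ℕ)) % W).toNat then (1 : ℝ) else 0) = 0 :=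
        prod_eq_zero (mem_univ i) (if_neg hi)
      rw [e2, mul_zero]
      apply le_of_eq
      apply sum_eq_zero
      intro u _
      rw [abs_eq_zero]
      apply sum_eq_zero
      intro t _
      have hnc : ¬ Nat.Coprime (Wm w) (W * (a i * t + (u i : ℕ) + q i).toNat + r i) := by
        rw [hWw] at hi ⊢
        rwa [Nat.coprime_mul_left_add_right]
      rw [prod_eq_zero (mem_univ i) (fp_cop w z _ hwz hnc), prod_eq_zero (mem_univ i) (gp_cop w z _ hwz hnc), sub_zero, mul_zero]
  refine (sum_le_sum h1).trans ?_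
  rw [sum_comm]
  have h2 : ∀ b ∈ range W, ∑ cc ∈ Fintype.piFinset (fun _ : Fin K => range W),
      Bd * ∏ i, (if Nat.Coprime W ((a i * b + (cc i : ℕ)) % W).toNat then (1 : ℝ) else 0) = (Nat.totient W : ℝ) ^ K * Bd := by
    intro b _
    rw [← mul_sum, mul_comm]
    congr 1
    rw [← prod_univ_sum (fun _ : Fin K => range W) (fun i c => if Nat.Coprime W ((a i * b + (c : ℕ)) % W).toNat then (1 : ℝ) else 0)]
    rw [prod_congr rfl fun i _ => shift_totient W hW (a i * b), prod_const, card_univ, Fintype.card_fin]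
  rw [sum_congr rfl h2, sum_const, card_range, nsmul_eq_mul, mul_assoc]

end

end Run7.h402.PX
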