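import Mathlib
import Pool.Agent.Run7.h402.PX.X6
import Pool.Agent.Run7.h402.PW.W6

/-!
# Parameters
-/

set_option autoImplicit false

open Finset

namespace Run7.h402.PX

open Run7.h402.PT Run7.h402.PV
open Run7.h402.PW (card_pf)
open Pool.Agent.H807R2.Dav
open Pool.Agent.H373R2.T7
open Pool.Agent.N475.SP (dom)

noncomputable section

theorem tot_Wm (w : ℕ) : (Nat.totient (Wm w) : ℝ) = Wm w * Vz w := by
  have h1 := totient_ratio (Wm w) (Wm_pos w).ne'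
  have h2 : (Wm w).primeFactors = pz w := by
    ext p
    rw [Nat.mem_primeFactors, mem_pz]
    constructor
    · rintro ⟨hp, hd, _⟩
      exact ⟨(dvd_Wm w p hp).1 hd, hp⟩
    · rintro ⟨hp1, hp⟩
      exact ⟨hp, (dvd_Wm w p hp).2 hp1, (Wm_pos w).ne'⟩
  rw [h2, prod_inv_distrib] at h1
  have h3 : ∏ p ∈ pz w, (1 - 1 / (p : ℝ)) = Vz w := rfl
  rw [h3] at h1
  have h4 : (0 : ℝ) < Nat.totient (Wm w) := by exact_mod_cast Nat.totient_pos.2 (Wm_pos w)
  have h5 := Vz_pos w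
  rw [div_eq_iff h4.ne'] at h1
  rw [h1]
  field_simp

theorem Wm_le (w : ℕ) : Wm w ≤ 4 ^ w := by
  have h1 := primorial_le_four_pow w
  refine le_trans (le_of_eq ?_) h1
  unfold Wm primorial
  apply prod_congr _ fun _ _ => rfl
  ext p
  rw [mem_pz, mem_filter, mem_range]
  constructor
  · rintro ⟨h1, h2⟩
    exact ⟨by omega, h2⟩
  · rintro ⟨h1, h2⟩
    exact ⟨by omega, h2⟩

/-- `W` is at most a power of the logarithm -/
theorem Wm_param (R : ℕ) (hR : 1 ≤ R) (ℓ : ℝ) (hℓ : 3 ≤ ℓ) : (Wm ⌈R * ℓ⌉₊ : ℝ) ≤ Real.exp (2 * R * ℓ) := by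
  have h1 : (Wm ⌈R * ℓ⌉₊ : ℝ) ≤ (4 : ℝ) ^ ⌈R * ℓ⌉₊ := by exact_mod_cast Wm_le _
  refine h1.trans ?_
  have h2 : (4 : ℝ) = Real.exp (2 * Real.log 2) := by
    rw [two_mul, Real.exp_add, Real.exp_log (by norm_num)]
    norm_num
  rw [h2, ← Real.exp_nat_mul]
  apply Real.exp_le_exp.2
  have h3 : (⌈R * ℓ⌉₊ : ℝ) ≤ R * ℓ + 1 := (Nat.ceil_lt_add_one (by positivity)).le
  have h4 := Real.log_two_lt_d9
  have h5 := Real.log_two_gt_d9
  have h6 : (1 : ℝ) ≤ R := by exact_mod_cast hR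
  have h7 : 3 ≤ R * ℓ := by nlinarith
  calc (⌈R * ℓ⌉₊ : ℝ) * (2 * Real.log 2) ≤ (R * ℓ + 1) * (2 * 0.6931471808) := by
        apply mul_le_mul h3 (by linarith) (by linarith) (by linarith)
    _ ≤ 2 * R * ℓ := by nlinarith

theorem hh_small (w d C : ℕ) (ℓ : ℝ) (hℓ : 0 < ℓ) (hw : ℓ ≤ w) (hd : 1 ≤ d) (hdl : Real.log d ≤ C * ℓ) (hw2 : 2 ≤ w) :
    hh w d ≤ Real.exp (4 * C) := by
  have hw0 : (0 : ℝ) < w := by linarith
  have h1 : hh w d ≤ ∏ _p ∈ d.primeFactors.filter (fun p => w < p), Real.exp (2 / w) := by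
    unfold hh
    apply prod_le_prod
    · intro p hp
      have := fac_inv p (Nat.prime_of_mem_primeFactors (mem_filter.1 hp).1)
      linarith
    · intro p hp
      rw [mem_filter] at hp
      have hpp := Nat.prime_of_mem_primeFactors hp.1
      have h2 := inv_pow_up p 1 hpp (by omega)
      rw [pow_one] at h2
      refine h2.trans ?_
      have h3 : 2 * ((1 : ℕ) : ℝ) / p ≤ 2 / w := by
        push_cast
        rw [mul_one]
        apply div_le_div_of_nonneg_left (by norm_num) hw0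
        exact_mod_cast hp.2.le
      have h4 := Real.add_one_le_exp (2 / (w : ℝ))
      linarith
  refine h1.trans ?_
  rw [prod_const, ← Real.exp_nat_mul]
  apply Real.exp_le_exp.2
  have h2 : (((d.primeFactors.filter (fun p => w < p)).card : ℕ) : ℝ) ≤ 2 * Real.log d := by
    refine le_trans ?_ (card_pf d hd)
    exact_mod_cast card_filter_le _ _
  calc (((d.primeFactors.filter (fun p => w < p)).card : ℕ) : ℝ) * (2 / w) ≤ (2 * (C * ℓ)) * (2 / ℓ) := by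
        apply mul_le_mul (by linarith) _ (by positivity) (by positivity)
        exact div_le_div_of_nonneg_left (by norm_num) hℓ hw
    _ = 4 * C := by field_simp; ring

theorem final_alg {K : ℕ} (hK : 1 ≤ K) (W T φ V s x y : ℝ) (hW : 0 ≤ W) (hT : 0 ≤ T) (hV : 0 < V) (hV1 : V ≤ 1) (hs : 0 ≤ s) (hx : 0 ≤ x) (hy : 0 ≤ y)
    (hφ : φ = W * V) :
    W * φ ^ K * (K * (T ^ (K + 1) * (x + √((s ^ 2 * V⁻¹ ^ 2) ^ (K - 1)) * y))) ≤ K * ((W * T) ^ (K + 1) * (x + s ^ (K - 1) * y)) := by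
  have h1 : √((s ^ 2 * V⁻¹ ^ 2) ^ (K - 1)) = (s * V⁻¹) ^ (K - 1) := by
    have : (s ^ 2 * V⁻¹ ^ 2) ^ (K - 1) = ((s * V⁻¹) ^ (K - 1)) ^ 2 := by ring
    rw [this, Real.sqrt_sq (by positivity)]
  rw [h1]
  obtain ⟨k, rfl⟩ : ∃ k, K = k + 1 := ⟨K - 1, by omega⟩
  rw [Nat.add_sub_cancel]
  have h2 : W * φ ^ (k + 1) * (((k + 1 : ℕ) : ℝ) * (T ^ (k + 1 + 1) * (x + (s * V⁻¹) ^ k * y))) =
      ((k + 1 : ℕ) : ℝ) * ((W * T) ^ (k + 1 + 1) * (V ^ (k + 1) * x + V * (s ^ k * y))) := by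
    rw [hφ, mul_pow, mul_pow, mul_pow, inv_pow]
    field_simp
    ring
  rw [h2]
  apply mul_le_mul_of_nonneg_left _ (by positivity)
  apply mul_le_mul_of_nonneg_left _ (by positivity)
  apply add_le_add
  · apply mul_le_of_le_one_left hx
    exact pow_le_one₀ hV.le hV1
  · exact mul_le_of_le_one_left (by positivity) hV1

end

end Run7.h402.PX
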