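import Mathlib
import Pool.Agent.Run7.h402.PX.X7

/-!
# Parameter estimates
-/

set_option autoImplicit false

open Finset

namespace Run7.h402.PX

open Run7.h402.PT Run7.h402.PV
open Pool.Agent.H807R2.Dav
open Pool.Agent.H373R2.T7
open Pool.Agent.N475.SP (dom)

noncomputable section

/-- the sieving level -/
def zL (E : ℕ) (L : ℝ) : ℕ := ⌊L ^ E⌋₊

/-- the analytic conditions on `L = log X` -/
structure Cond (B C u R E U Bu : ℕ) (L : ℝ) : Prop where
  l0 : 3 ≤ Real.log L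
  l1 : 1000 ≤ L
  c2 : L ^ (2 * R) + 1 ≤ L ^ E
  c3 : (2 * L) ^ Bu + 1 ≤ L ^ E
  c4 : 40 * L ^ C ≤ Real.exp L
  c5 : 4 * L ^ (U + 1) ≤ Real.exp (L / 2)
  c6 : L ^ (E + 1 + U) ≤ Real.exp L
  c7 : L ^ (2 * R) ≤ Real.exp (L / 2)
  c8 : 16 * (E + 1) * Real.log L ≤ √L
  c9 : 8 * L ^ 2 ≤ Real.exp (L / 4)
  c10 : 8 * ((B : ℝ) + u) * Real.log L ^ 2 ≤ L
  c11 : 2 * L * L ^ (2 * R) ≤ Real.exp (L / 2)
  c12 : 6 * ((B : ℝ) * Real.log L) ≤ L

theorem cond_ev (B C u R E U Bu : ℕ) (h1 : 2 * R + 1 ≤ E) (h2 : Bu + 1 ≤ E) : ∃ L0 : ℝ, ∀ L : ℝ, L0 ≤ L → Cond B C u R E U Bu L := by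
  obtain ⟨a4, h4⟩ := dom 40 1 C one_pos
  obtain ⟨a5, h5⟩ := dom 4 (1 / 2) (U + 1) (by norm_num)
  obtain ⟨a6, h6⟩ := dom 1 1 (E + 1 + U) one_pos
  obtain ⟨a7, h7⟩ := dom 1 (1 / 2) (2 * R) (by norm_num)
  obtain ⟨a8, h8⟩ := dom (16 * (E + 1)) (1 / 2) 1 (by norm_num)
  obtain ⟨a9, h9⟩ := dom 8 (1 / 4) 2 (by norm_num)
  obtain ⟨a10, h10⟩ := dom (8 * ((B : ℝ) + u)) 1 2 one_pos
  obtain ⟨a11, h11⟩ := dom 2 (1 / 2) (2 * R + 1) (by norm_num)
  obtain ⟨a12, h12⟩ := dom (6 * (B : ℝ)) 1 1 one_pos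
  refine ⟨max (max (max a4 a5) (max a6 a7)) (max (max a9 a11) (max (max (Real.exp a8) (Real.exp a10)) (max (Real.exp a12) (1000 + 2 ^ (Bu + 1))))), fun L hL => ?_⟩
  have g4 : a4 ≤ L := le_trans (le_trans (le_trans (le_max_left _ _) (le_max_left _ _)) (le_max_left _ _)) hL
  have g5 : a5 ≤ L := le_trans (le_trans (le_trans (le_max_right _ _) (le_max_left _ _)) (le_max_left _ _)) hL
  have g6 : a6 ≤ L := le_trans (le_trans (le_trans (le_max_left _ _) (le_max_right _ _)) (le_max_left _ _)) hL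
  have g7 : a7 ≤ L := le_trans (le_trans (le_trans (le_max_right _ _) (le_max_right _ _)) (le_max_left _ _)) hL
  have g9 : a9 ≤ L := le_trans (le_trans (le_trans (le_max_left _ _) (le_max_left _ _)) (le_max_right _ _)) hL
  have g11 : a11 ≤ L := le_trans (le_trans (le_trans (le_max_right _ _) (le_max_left _ _)) (le_max_right _ _)) hL
  have g8 : Real.exp a8 ≤ L := le_trans (le_trans (le_trans (le_trans (le_max_left _ _) (le_max_left _ _)) (le_max_right _ _)) (le_max_right _ _)) hL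
  have g10 : Real.exp a10 ≤ L := le_trans (le_trans (le_trans (le_trans (le_max_right _ _) (le_max_left _ _)) (le_max_right _ _)) (le_max_right _ _)) hL
  have g12 : Real.exp a12 ≤ L := le_trans (le_trans (le_trans (le_trans (le_max_left _ _) (le_max_right _ _)) (le_max_right _ _)) (le_max_right _ _)) hL
  have g13 : 1000 + 2 ^ (Bu + 1) ≤ L := le_trans (le_trans (le_trans (le_trans (le_max_right _ _) (le_max_right _ _)) (le_max_right _ _)) (le_max_right _ _)) hL
  have h2p : (0 : ℝ) < 2 ^ (Bu + 1) := by positivity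
  have hL1 : 1000 ≤ L := by linarith
  have hL0 : 0 < L := by linarith
  have hexp : Real.exp (Real.log L) = L := Real.exp_log hL0
  have hsq : Real.exp (1 / 2 * Real.log L) = √L := by
    rw [Real.sqrt_eq_rpow, Real.rpow_def_of_pos hL0]
    congr 1
    ring
  have hl : ∀ a : ℝ, Real.exp a ≤ L → a ≤ Real.log L := fun a ha => by
    rwa [Real.le_log_iff_exp_le hL0]
  refine ⟨?_, hL1, ?_, ?_, ?_, ?_, ?_, ?_, ?_, ?_, ?_, ?_, ?_⟩
  · apply hl
    have e1 : Real.exp 3 = Real.exp 1 ^ 3 := by rw [← Real.exp_nat_mul]; norm_num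
    rw [e1]
    have e2 := Real.exp_one_lt_d9
    calc Real.exp 1 ^ 3 ≤ 3 ^ 3 := by
          apply pow_le_pow_left₀ (Real.exp_pos 1).le
          linarith
      _ ≤ L := by norm_num; linarith
  · calc L ^ (2 * R) + 1 ≤ L ^ (2 * R) * 2 := by
          have := one_le_pow₀ (n := 2 * R) (by linarith : (1 : ℝ) ≤ L)
          linarith
      _ ≤ L ^ (2 * R) * L := by
          apply mul_le_mul_of_nonneg_left _ (by positivity)
          linarith
      _ = L ^ (2 * R + 1) := (pow_succ _ _).symm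
      _ ≤ L ^ E := pow_le_pow_right₀ (by linarith) h1
  · calc (2 * L) ^ Bu + 1 ≤ (2 * L) ^ Bu * 2 := by
          have := one_le_pow₀ (n := Bu) (by linarith : (1 : ℝ) ≤ 2 * L)
          linarith
      _ = L ^ Bu * 2 ^ (Bu + 1) := by rw [mul_pow]; ring
      _ ≤ L ^ Bu * L := by
          apply mul_le_mul_of_nonneg_left _ (by positivity)
          linarith
      _ = L ^ (Bu + 1) := (pow_succ _ _).symm
      _ ≤ L ^ E := pow_le_pow_right₀ (by linarith) h2
  · have := h4 L g4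
    rwa [one_mul] at this
  · have := h5 L g5
    rwa [show 1 / 2 * L = L / 2 by ring] at this
  · have := h6 L g6
    rwa [one_mul, one_mul] at this
  · have := h7 L g7
    rwa [one_mul, show 1 / 2 * L = L / 2 by ring] at this
  · have := h8 (Real.log L) (hl _ g8)
    rwa [pow_one, hsq] at this
  · have := h9 L g9
    rwa [show 1 / 4 * L = L / 4 by ring] at this
  · have := h10 (Real.log L) (hl _ g10)
    rwa [one_mul, hexp] at this
  · have := h11 L g11
    rw [show 1 / 2 * L = L / 2 by ring, pow_succ] at this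
    linarith
  · have := h12 (Real.log L) (hl _ g12)
    rw [one_mul, hexp, pow_one] at this
    linarith

theorem c8' {B C u R E U Bu : ℕ} {L : ℝ} (cd : Cond B C u R E U Bu L) : (E : ℝ) * Real.log L ≤ L / 16 ∧ Real.log L ≤ L / 16 := by
  have h1 := cd.c8
  have hL1 := cd.l1
  have hL3 := cd.l0
  have h2 : √L ≤ L := by
    rw [Real.sqrt_le_left (by linarith)]
    nlinarith
  have h3 : (0 : ℝ) ≤ E * Real.log L := by positivity
  have h4 : 16 * ((E : ℝ) + 1) * Real.log L = 16 * (E * Real.log L) + 16 * Real.log L := by ring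
  constructor <;> linarith

/-- the exponential sum of the difference -/
theorem sup_part {B C v R E U Bu : ℕ} {L : ℝ} (cd : Cond B C v R E U Bu L) (u : ℕ) (hU : U = 3 * u + 2 * R + 1) (N z W S : ℕ)
    (hN1 : Real.exp L ≤ N) (hN2 : (N : ℝ) ≤ 2 * (W * S)) (hNL : L ≤ Real.log N) (hNL2 : Real.log N ≤ 2 * L)
    (hW : (W : ℝ) ≤ L ^ (2 * R)) (hz1 : 1 ≤ z) (hz : (z : ℝ) ≤ L ^ E) (hVz : (Vz z)⁻¹ ≤ L)
    (hb : ∀ β : ℝ, ‖∑ m ∈ Icc 1 N, ((ArithmeticFunction.vonMangoldt m - lamz z m : ℝ) : ℂ) * ee ((m : ℝ) * β)‖ ≤ N / Real.log N ^ U) (β : ℝ) :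
    ‖∑ m ∈ Icc 1 N, ((fp z m - gp z m : ℝ) : ℂ) * ee ((m : ℝ) * β)‖ ≤ (1 / L ^ u) ^ 3 * S := by
  have hL1 := cd.l1
  have hL0 : 0 < L := by linarith
  have hN0 : (0 : ℝ) < N := lt_of_lt_of_le (Real.exp_pos _) hN1
  have hNn : 1 ≤ N := by exact_mod_cast hN0
  refine (sup_fg N z hNn hz1 _ hb β).trans ?_
  have hLU : 0 < L ^ U := by positivity
  have e1 : (N : ℝ) / Real.log N ^ U ≤ N / L ^ U := by
    apply div_le_div_of_nonneg_left hN0.le hLU
    exact pow_le_pow_left₀ hL0.le hNL U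
  have hsN : Real.exp (L / 2) ≤ √(N : ℝ) := by
    apply Real.le_sqrt_of_sq_le
    rw [← Real.exp_nat_mul]
    refine le_trans (le_of_eq ?_) hN1
    congr 1
    push_cast
    ring
  have e2 : 2 * √(N : ℝ) * Real.log N ≤ N / L ^ U := by
    rw [le_div_iff₀ hLU]
    have h1 : Real.log N * L ^ U * 2 ≤ √(N : ℝ) := by
      calc Real.log N * L ^ U * 2 ≤ (2 * L) * L ^ U * 2 := by gcongr
        _ = 4 * L ^ (U + 1) := by rw [pow_succ]; ring
        _ ≤ _ := cd.c5.trans hsN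
    calc 2 * √(N : ℝ) * Real.log N * L ^ U = √(N : ℝ) * (Real.log N * L ^ U * 2) := by ring
      _ ≤ √(N : ℝ) * √(N : ℝ) := mul_le_mul_of_nonneg_left h1 (Real.sqrt_nonneg _)
      _ = N := Real.mul_self_sqrt hN0.le
  have hz0 : (0 : ℝ) < z := by exact_mod_cast hz1
  have e3 : (z : ℝ) * (Real.log z + (Vz z)⁻¹) ≤ 2 * N / L ^ U := by
    rw [le_div_iff₀ hLU]
    have h1 : Real.log z ≤ E * Real.log L := by
      rw [← Real.log_pow]
      exact Real.log_le_log hz0 hz
    have h2 := (c8' cd).1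
    have h0 : 0 ≤ Real.log z := Real.log_natCast_nonneg z
    calc (z : ℝ) * (Real.log z + (Vz z)⁻¹) * L ^ U ≤ L ^ E * (2 * L) * L ^ U := by
          apply mul_le_mul_of_nonneg_right _ hLU.le
          apply mul_le_mul hz (by linarith) _ (by positivity)
          have := inv_nonneg.2 (Vz_pos z).le
          linarith
      _ = 2 * L ^ (E + 1 + U) := by ring
      _ ≤ 2 * N := by linarith [cd.c6]
  have e4 : 4 * ((N : ℝ) / L ^ U) ≤ (1 / L ^ u) ^ 3 * S := by
    have h1 : (1 / L ^ u) ^ 3 * (S : ℝ) = S / L ^ (3 * u) := by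
      rw [one_div, inv_pow, ← pow_mul, mul_comm u 3]
      field_simp
    rw [h1, mul_div_assoc', div_le_div_iff₀ hLU (by positivity)]
    have h2 : L ^ U = L ^ (3 * u) * (L ^ (2 * R) * L) := by
      rw [hU]
      ring
    rw [h2]
    have h3 : (0 : ℝ) < L ^ (3 * u) := by positivity
    have h4 : (0 : ℝ) < L ^ (2 * R) := by positivity
    calc 4 * (N : ℝ) * L ^ (3 * u) ≤ 4 * (2 * (L ^ (2 * R) * S)) * L ^ (3 * u) := by
          apply mul_le_mul_of_nonneg_right _ h3.le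
          apply mul_le_mul_of_nonneg_left _ (by norm_num)
          refine hN2.trans ?_
          apply mul_le_mul_of_nonneg_left _ (by norm_num)
          exact mul_le_mul_of_nonneg_right hW (by positivity)
      _ = 8 * ((S : ℝ) * (L ^ (3 * u) * L ^ (2 * R))) := by ring
      _ ≤ L * ((S : ℝ) * (L ^ (3 * u) * L ^ (2 * R))) := by
          apply mul_le_mul_of_nonneg_right _ (by positivity)
          linarith
      _ = S * (L ^ (3 * u) * (L ^ (2 * R) * L)) := by ring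
  have e5 : 2 * (N : ℝ) / L ^ U = 2 * (N / L ^ U) := by ring
  rw [e5] at e3
  linarith

/-- the error terms of the fundamental lemma -/
theorem pairg_part {B C v R E U Bu : ℕ} {L : ℝ} (cd : Cond B C v R E U Bu L) (T z : ℕ) (hT : Real.exp (L / 2) ≤ T)
    (hz1 : 1 ≤ z) (hz : (z : ℝ) ≤ L ^ E) (hVz : (Vz z)⁻¹ ≤ L) :
    (Vz z)⁻¹ ^ 2 * ((((z : ℝ) + 1) * (2 : ℕ)) ^ ⌈√L⌉₊ + 2 * T * Real.exp (3 * ((2 : ℕ) * (1 + Real.log z)) - ⌈√L⌉₊)) ≤ T := by
  have hL1 := cd.l1
  have hL3 := cd.l0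
  have hL0 : 0 < L := by linarith
  have hLe : Real.exp (Real.log L) = L := Real.exp_log hL0
  have hz0 : (0 : ℝ) < z := by exact_mod_cast hz1
  have hV0 : 0 ≤ (Vz z)⁻¹ := inv_nonneg.2 (Vz_pos z).le
  have hV2 : (Vz z)⁻¹ ^ 2 ≤ L ^ 2 := pow_le_pow_left₀ hV0 hVz 2
  have hs1 : 1 ≤ √L := Real.one_le_sqrt.2 (by linarith)
  have hss : √L * √L = L := Real.mul_self_sqrt hL0.le
  have hρ1 : √L ≤ ⌈√L⌉₊ := Nat.le_ceil _
  have hρ2 : (⌈√L⌉₊ : ℝ) ≤ 2 * √L := by
    have := (Nat.ceil_lt_add_one (Real.sqrt_nonneg L)).le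
    linarith
  have h1 : ((((z : ℝ) + 1) * (2 : ℕ)) ^ ⌈√L⌉₊) ≤ Real.exp (L / 8) := by
    have h2 : ((z : ℝ) + 1) * (2 : ℕ) ≤ Real.exp ((E + 1) * Real.log L) := by
      have h3 : Real.exp ((E + 1) * Real.log L) = L ^ E * L := by
        rw [add_mul, one_mul, Real.exp_add, Real.exp_nat_mul, hLe]
      rw [h3]
      have h4 : 1 ≤ L ^ E := one_le_pow₀ (by linarith)
      push_cast
      nlinarith
    calc ((((z : ℝ) + 1) * (2 : ℕ)) ^ ⌈√L⌉₊) ≤ (Real.exp ((E + 1) * Real.log L)) ^ ⌈√L⌉₊ :=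
          pow_le_pow_left₀ (by positivity) h2 _
      _ = Real.exp (⌈√L⌉₊ * ((E + 1) * Real.log L)) := (Real.exp_nat_mul _ _).symm
      _ ≤ Real.exp (L / 8) := by
          apply Real.exp_le_exp.2
          have h5 := cd.c8
          have h6 : ((E : ℝ) + 1) * Real.log L ≤ √L / 16 := by linarith
          calc (⌈√L⌉₊ : ℝ) * ((E + 1) * Real.log L) ≤ (2 * √L) * (√L / 16) := by
                apply mul_le_mul hρ2 h6 (by positivity) (by positivity)
            _ = L / 8 := by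
                have : (2 * √L) * (√L / 16) = (√L * √L) / 8 := by ring
                rw [this, hss]
  have h2 : (Vz z)⁻¹ ^ 2 * ((((z : ℝ) + 1) * (2 : ℕ)) ^ ⌈√L⌉₊) ≤ T / 8 := by
    calc (Vz z)⁻¹ ^ 2 * ((((z : ℝ) + 1) * (2 : ℕ)) ^ ⌈√L⌉₊) ≤ L ^ 2 * Real.exp (L / 8) :=
          mul_le_mul hV2 h1 (by positivity) (by positivity)
      _ ≤ (Real.exp (L / 4) / 8) * Real.exp (L / 8) := by
          apply mul_le_mul_of_nonneg_right _ (Real.exp_pos _).le
          linarith [cd.c9]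
      _ = Real.exp (L / 4 + L / 8) / 8 := by rw [Real.exp_add]; ring
      _ ≤ Real.exp (L / 2) / 8 := by
          apply div_le_div_of_nonneg_right _ (by norm_num)
          apply Real.exp_le_exp.2
          linarith
      _ ≤ T / 8 := by linarith
  have h3 : (Vz z)⁻¹ ^ 2 * (2 * T * Real.exp (3 * ((2 : ℕ) * (1 + Real.log z)) - ⌈√L⌉₊)) ≤ T / 2 := by
    have h4 : Real.log z ≤ E * Real.log L := by
      rw [← Real.log_pow]
      exact Real.log_le_log hz0 hz
    have h5 : Real.exp (3 * ((2 : ℕ) * (1 + Real.log z)) - ⌈√L⌉₊) ≤ Real.exp (-(2 * Real.log L + 2)) := by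
      apply Real.exp_le_exp.2
      have h6 := cd.c8
      have h7 : 16 * ((E : ℝ) + 1) * Real.log L = 16 * (E * Real.log L) + 16 * Real.log L := by ring
      have h8 : (0 : ℝ) ≤ E * Real.log L := by positivity
      push_cast
      linarith
    have h6 : Real.exp (-(2 * Real.log L + 2)) ≤ (L ^ 2)⁻¹ / 4 := by
      rw [Real.exp_neg, Real.exp_add, two_mul, Real.exp_add, hLe, mul_inv, ← pow_two, div_eq_mul_inv]
      apply mul_le_mul_of_nonneg_left _ (by positivity)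
      apply inv_anti₀ (by norm_num)
      have e1 : Real.exp 2 = Real.exp 1 ^ 2 := by rw [← Real.exp_nat_mul]; norm_num
      rw [e1]
      have e2 := Real.exp_one_gt_d9
      nlinarith
    calc (Vz z)⁻¹ ^ 2 * (2 * T * Real.exp (3 * ((2 : ℕ) * (1 + Real.log z)) - ⌈√L⌉₊)) ≤ L ^ 2 * (2 * (T : ℝ) * ((L ^ 2)⁻¹ / 4)) := by
          apply mul_le_mul hV2 _ (by positivity) (by positivity)
          apply mul_le_mul_of_nonneg_left (h5.trans h6) (by positivity)
      _ = (T : ℝ) / 2 := by field_simp; ring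
  have hT0 : (0 : ℝ) ≤ T := by positivity
  rw [mul_add]
  linarith

theorem pow_id (L : ℝ) (hL : 0 < L) (v C : ℕ) : ((1 / L ^ v) ^ 2) ^ 2 = L ^ C * L / L ^ (4 * v + C + 1) := by
  have e : L ^ (4 * v + C + 1) = (L ^ v) ^ 4 * (L ^ C * L) := by ring
  rw [e]
  have : 0 < L ^ v := by positivity
  have : 0 < L ^ C := by positivity
  field_simp

/-- the final numerical inequality -/
theorem final_part {B C R E U Bu : ℕ} {L : ℝ} (A G : ℕ) (hv : Cond B C (G * B + A + 6) R E U Bu L) (K : ℕ) (hK : 1 ≤ K)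
    (hKB : (K : ℝ) ≤ B * Real.log L) (W T : ℕ) (hW : (W : ℝ) ≤ L ^ (2 * R)) (hT : Real.exp (L / 2) ≤ T)
    (hWT : (W : ℝ) * T ≤ Real.exp L + W) (s hA : ℝ) (hs : 0 ≤ s) (hhA : 0 ≤ hA) (hsA : s * hA ≤ Real.exp G) (ρ ε : ℝ)
    (hρ0 : 0 ≤ ρ) (hρ : ρ ≤ 10 * L ^ C) (hε : ε = 1 / L ^ (4 * (G * B + A + 6) + C + 1)) :
    K * (((W : ℝ) * T) ^ (K + 1) * ((2 * L) ^ K / √(T : ℝ) + s ^ (K - 1) * (hA ^ (K - 1) * (2 * L * √(√(16 * ρ * ε)))))) ≤
      Real.exp L ^ (K + 1) / L ^ A := by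
  set v := G * B + A + 6 with hvd
  have hL1 := hv.l1
  have hL3 := hv.l0
  have hL0 : 0 < L := by linarith
  set ℓ := Real.log L with hℓ
  have hLe : Real.exp ℓ = L := Real.exp_log hL0
  have hT0 : (0 : ℝ) < T := lt_of_lt_of_le (Real.exp_pos _) hT
  have hpow : ∀ n : ℕ, L ^ n = Real.exp (n * ℓ) := by
    intro n
    rw [Real.exp_nat_mul, hLe]
  -- first term
  have h1 : (2 * L) ^ K / √(T : ℝ) ≤ 1 / L ^ v := by
    have h2 : Real.exp (L / 4) ≤ √(T : ℝ) := by
      apply Real.le_sqrt_of_sq_le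
      rw [← Real.exp_nat_mul]
      refine le_trans (le_of_eq ?_) hT
      congr 1
      push_cast
      ring
    have h3 : (2 * L) ^ K ≤ Real.exp (B * ℓ * (ℓ + 1)) := by
      have h4 : 2 * L ≤ Real.exp (ℓ + 1) := by
        rw [Real.exp_add, hLe]
        have := Real.exp_one_gt_d9
        nlinarith
      calc (2 * L) ^ K ≤ (Real.exp (ℓ + 1)) ^ K := pow_le_pow_left₀ (by positivity) h4 K
        _ = Real.exp (K * (ℓ + 1)) := (Real.exp_nat_mul _ _).symm
        _ ≤ _ := by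
            apply Real.exp_le_exp.2
            apply mul_le_mul_of_nonneg_right hKB (by linarith)
    rw [div_le_div_iff₀ (by positivity) (by positivity), one_mul, hpow v]
    calc (2 * L) ^ K * Real.exp (v * ℓ) ≤ Real.exp (B * ℓ * (ℓ + 1)) * Real.exp (v * ℓ) := by gcongr
      _ = Real.exp (B * ℓ * (ℓ + 1) + v * ℓ) := (Real.exp_add _ _).symm
      _ ≤ Real.exp (L / 4) := by
          apply Real.exp_le_exp.2
          have h5 := hv.c10
          have h6 : (0 : ℝ) ≤ B * ℓ := by positivity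
          have h7 : (0 : ℝ) ≤ v * ℓ := by positivity
          have h8 : (B : ℝ) * ℓ * (ℓ + 1) + v * ℓ ≤ 2 * ((B + v) * ℓ ^ 2) := by nlinarith
          linarith
      _ ≤ _ := h2
  -- second term
  have h2 : s ^ (K - 1) * (hA ^ (K - 1) * (2 * L * √(√(16 * ρ * ε)))) ≤ 2 * L ^ (G * B + 1) / L ^ v := by
    have h3 : s ^ (K - 1) * hA ^ (K - 1) ≤ L ^ (G * B) := by
      rw [← mul_pow]
      calc (s * hA) ^ (K - 1) ≤ (Real.exp G) ^ (K - 1) := pow_le_pow_left₀ (by positivity) hsA _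
        _ ≤ (Real.exp G) ^ K := pow_le_pow_right₀ (Real.one_le_exp (by positivity)) (Nat.sub_le _ _)
        _ = Real.exp (K * G) := (Real.exp_nat_mul _ _).symm
        _ ≤ Real.exp (((G * B : ℕ) : ℝ) * ℓ) := by
            apply Real.exp_le_exp.2
            push_cast
            have : (0 : ℝ) ≤ G := by positivity
            nlinarith
        _ = L ^ (G * B) := (hpow _).symm
    have h4 : √(√(16 * ρ * ε)) ≤ 1 / L ^ v := by
      apply Real.sqrt_le_iff.2
      refine ⟨by positivity, ?_⟩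
      apply Real.sqrt_le_iff.2
      refine ⟨by positivity, ?_⟩
      have h5 : ((1 / L ^ v) ^ 2) ^ 2 = L ^ C * L / L ^ (4 * v + C + 1) := pow_id L hL0 v C
      rw [h5, hε]
      calc 16 * ρ * (1 / L ^ (4 * v + C + 1)) ≤ 16 * (10 * L ^ C) * (1 / L ^ (4 * v + C + 1)) := by gcongr
        _ = 160 * L ^ C / L ^ (4 * v + C + 1) := by ring
        _ ≤ L ^ C * L / L ^ (4 * v + C + 1) := by
            apply div_le_div_of_nonneg_right _ (by positivity)
            have : 0 < L ^ C := by positivity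
            nlinarith
    calc s ^ (K - 1) * (hA ^ (K - 1) * (2 * L * √(√(16 * ρ * ε)))) = (s ^ (K - 1) * hA ^ (K - 1)) * (2 * L * √(√(16 * ρ * ε))) := by ring
      _ ≤ L ^ (G * B) * (2 * L * (1 / L ^ v)) := by gcongr
      _ = 2 * L ^ (G * B + 1) / L ^ v := by rw [pow_succ]; ring
  have h3 : (2 * L) ^ K / √(T : ℝ) + s ^ (K - 1) * (hA ^ (K - 1) * (2 * L * √(√(16 * ρ * ε)))) ≤ 3 / L ^ (A + 5) := by
    have h4 : 1 / L ^ v ≤ 1 / L ^ (A + 5) := by
      apply one_div_le_one_div_of_le (by positivity)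
      exact pow_le_pow_right₀ (by linarith) (by omega)
    have h5 : 2 * L ^ (G * B + 1) / L ^ v = 2 / L ^ (A + 5) := by
      rw [div_eq_div_iff (by positivity) (by positivity), mul_assoc, ← pow_add]
      congr 2
      omega
    have h6 : 3 / L ^ (A + 5) = 1 / L ^ (A + 5) + 2 / L ^ (A + 5) := by ring
    rw [h6]
    rw [h5] at h2
    linarith
  have h4 : ((W : ℝ) * T) ^ (K + 1) ≤ 2 * Real.exp L ^ (K + 1) := by
    have hE0 := Real.exp_pos L
    have h5 : (W : ℝ) * T ≤ Real.exp L * (1 + W / Real.exp L) := by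
      refine hWT.trans (le_of_eq ?_)
      field_simp
    have h6 : ((1 : ℝ) + W / Real.exp L) ^ (K + 1) ≤ 2 := by
      have h7 : (1 : ℝ) + W / Real.exp L ≤ Real.exp (W / Real.exp L) := by
        have := Real.add_one_le_exp ((W : ℝ) / Real.exp L)
        linarith
      have hE : Real.exp L = Real.exp (L / 2) * Real.exp (L / 2) := by
        rw [← Real.exp_add]; congr 1; ring
      have h8 : ((K + 1 : ℕ) : ℝ) * (W / Real.exp L) ≤ 1 / 2 := by
        rw [mul_div_assoc', div_le_iff₀ hE0]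
        have h9 := hv.c11
        have h10 : ((K + 1 : ℕ) : ℝ) ≤ L := by
          push_cast
          have := hv.c12
          linarith
        have h11 : 2 * (((K + 1 : ℕ) : ℝ) * W) ≤ Real.exp (L / 2) := by
          refine le_trans ?_ h9
          calc 2 * (((K + 1 : ℕ) : ℝ) * W) ≤ 2 * (L * L ^ (2 * R)) := by gcongr
            _ = _ := by ring
        have h12 : 1 ≤ Real.exp (L / 2) := Real.one_le_exp (by positivity)
        rw [hE]
        nlinarith
      calc ((1 : ℝ) + W / Real.exp L) ^ (K + 1) ≤ (Real.exp (W / Real.exp L)) ^ (K + 1) :=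
            pow_le_pow_left₀ (by positivity) h7 _
        _ = Real.exp (((K + 1 : ℕ) : ℝ) * (W / Real.exp L)) := (Real.exp_nat_mul _ _).symm
        _ ≤ Real.exp (1 / 2) := Real.exp_le_exp.2 h8
        _ ≤ 2 := by
            have h9 : Real.exp (1 / 2) * Real.exp (1 / 2) = Real.exp 1 := by rw [← Real.exp_add]; norm_num
            have h10 := Real.exp_one_lt_d9
            by_contra hcon
            push Not at hcon
            nlinarith
    calc ((W : ℝ) * T) ^ (K + 1) ≤ (Real.exp L * (1 + W / Real.exp L)) ^ (K + 1) := pow_le_pow_left₀ (by positivity) h5 _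
      _ = Real.exp L ^ (K + 1) * (1 + W / Real.exp L) ^ (K + 1) := mul_pow _ _ _
      _ ≤ Real.exp L ^ (K + 1) * 2 := by gcongr
      _ = _ := by ring
  have hK6 : 6 * (K : ℝ) ≤ L := by
    have := hv.c12
    linarith
  have hpos : 0 ≤ (2 * L) ^ K / √(T : ℝ) + s ^ (K - 1) * (hA ^ (K - 1) * (2 * L * √(√(16 * ρ * ε)))) := by positivity
  calc K * (((W : ℝ) * T) ^ (K + 1) * ((2 * L) ^ K / √(T : ℝ) + s ^ (K - 1) * (hA ^ (K - 1) * (2 * L * √(√(16 * ρ * ε)))))) ≤
      K * ((2 * Real.exp L ^ (K + 1)) * (3 / L ^ (A + 5))) := by gcongr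
    _ = Real.exp L ^ (K + 1) * ((6 * K) / L ^ (A + 5)) := by ring
    _ ≤ Real.exp L ^ (K + 1) * (1 / L ^ A) := by
        apply mul_le_mul_of_nonneg_left _ (by positivity)
        rw [div_le_div_iff₀ (by positivity) (by positivity), one_mul, pow_add]
        have h5 : L ≤ L ^ 5 := by
          calc L = L ^ 1 := (pow_one L).symm
            _ ≤ L ^ 5 := pow_le_pow_right₀ (by linarith) (by norm_num)
        have h6 : 0 < L ^ A := by positivity
        nlinarith
    _ = Real.exp L ^ (K + 1) / L ^ A := by ring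

end

end Run7.h402.PX
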