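import Mathlib
import Pool.Agent.Run7.h402.PX.X8a
import Pool.Agent.H373R2.T7.SupE2

/-!
# The comparison with the model on average over all shifts
-/

set_option autoImplicit false

open Finset

namespace Run7.h402.PX

open Run7.h402.PT Run7.h402.PV
open Pool.Agent.H807R2.Dav
open Pool.Agent.H373R2.T7
open Pool.Agent.N475.SP (dom)

noncomputable section

/-- facts on the modulus -/
theorem W_facts {B C v R E U Bu : ℕ} {L : ℝ} (cd : Cond B C v R E U Bu L) (hR : R = 8 * B + 1) (K z : ℕ)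
    (hKB : (K : ℝ) ≤ B * Real.log L) (hzge : L ^ E - 1 ≤ z) :
    Real.log L ≤ (⌈(R : ℝ) * Real.log L⌉₊ : ℝ) ∧ 2 ≤ ⌈(R : ℝ) * Real.log L⌉₊ ∧ 8 * (K - 1) ≤ ⌈(R : ℝ) * Real.log L⌉₊ ∧
      (Wm ⌈(R : ℝ) * Real.log L⌉₊ : ℝ) ≤ L ^ (2 * R) ∧ Wm ⌈(R : ℝ) * Real.log L⌉₊ ≤ z ∧ ⌈(R : ℝ) * Real.log L⌉₊ ≤ z := by
  have hL1 := cd.l1
  have hℓ3 := cd.l0
  have hL0 : 0 < L := by linarith
  set ℓ : ℝ := Real.log L with hℓ
  have hLe : Real.exp ℓ = L := by rw [hℓ, Real.exp_log hL0]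
  have hRr : (R : ℝ) = 8 * B + 1 := by rw [hR]; push_cast; ring
  have hR1 : 1 ≤ R := by omega
  set w : ℕ := ⌈(R : ℝ) * ℓ⌉₊ with hw
  have hwl : (R : ℝ) * ℓ ≤ w := Nat.le_ceil _
  have e0 : (R : ℝ) * ℓ = 8 * (B * ℓ) + ℓ := by rw [hRr]; ring
  have hBl : (0 : ℝ) ≤ B * ℓ := by positivity
  have hwℓ : ℓ ≤ w := by linarith
  have hw2 : 2 ≤ w := by
    have : (2 : ℝ) ≤ w := by linarith
    exact_mod_cast this
  have hw8 : 8 * (K - 1) ≤ w := by
    have h1 : (8 * K : ℝ) ≤ w := by linarith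
    have h2 : 8 * K ≤ w := by exact_mod_cast h1
    omega
  have hWle : (Wm w : ℝ) ≤ L ^ (2 * R) := by
    have h1 := Wm_param R hR1 ℓ hℓ3
    refine h1.trans (le_of_eq ?_)
    have : L ^ (2 * R) = (Real.exp ℓ) ^ (2 * R) := by rw [hLe]
    rw [this, ← Real.exp_nat_mul]
    congr 1
    push_cast
    ring
  have hzW : Wm w ≤ z := by
    have : (Wm w : ℝ) ≤ z := by linarith [cd.c2]
    exact_mod_cast this
  refine ⟨hwℓ, hw2, hw8, hWle, hzW, ?_⟩
  have h1 : (w : ℝ) ≤ R * ℓ + 1 := (Nat.ceil_lt_add_one (by positivity)).le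
  have h2 : 8 * ((B : ℝ) * ℓ) ≤ L / 3 := by
    have h3 := cd.c10
    have h4 : (0 : ℝ) ≤ 8 * v * ℓ ^ 2 := by positivity
    have h6 : (B : ℝ) * ℓ * 3 ≤ B * ℓ * ℓ := mul_le_mul_of_nonneg_left hℓ3 hBl
    have h7 : 8 * ((B : ℝ) + v) * ℓ ^ 2 = 8 * (B * ℓ * ℓ) + 8 * v * ℓ ^ 2 := by ring
    linarith
  have h3 : (w : ℝ) ≤ L := by
    have := (c8' cd).2
    linarith
  have h4 : L ≤ L ^ (2 * R) := by
    calc L = L ^ 1 := (pow_one L).symm
      _ ≤ L ^ (2 * R) := pow_le_pow_right₀ (by linarith) (by omega)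
  have h5 : (w : ℝ) ≤ z := by linarith [cd.c2]
  exact_mod_cast h5

theorem T_facts {B C v R E U Bu : ℕ} {L : ℝ} (cd : Cond B C v R E U Bu L) (X W : ℕ) (hX : Real.exp L = X) (hW1 : 1 ≤ W)
    (hW : (W : ℝ) ≤ L ^ (2 * R)) :
    X ≤ W * (X / W + 1) ∧ (W : ℝ) * ((X / W + 1 : ℕ) : ℝ) ≤ Real.exp L + W ∧ Real.exp (L / 2) ≤ ((X / W + 1 : ℕ) : ℝ) ∧ (W : ℝ) ≤ X := by
  have hL1 := cd.l1
  have hXh : Real.exp (L / 2) * Real.exp (L / 2) = X := by rw [← Real.exp_add, ← hX]; congr 1; ring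
  have hWh : (W : ℝ) ≤ Real.exp (L / 2) := hW.trans cd.c7
  set T : ℕ := X / W + 1 with hT
  have hWT : X ≤ W * T := (Nat.lt_mul_div_succ X hW1).le
  have hWT2 : W * T ≤ X + W := by
    rw [hT, mul_add, mul_one]
    have := Nat.mul_div_le X W
    omega
  have hXW : (X : ℝ) ≤ W * T := by exact_mod_cast hWT
  have hXW2 : (W : ℝ) * T ≤ X + W := by exact_mod_cast hWT2
  have hexpL : 0 < Real.exp (L / 2) := Real.exp_pos _
  refine ⟨hWT, by rw [hX]; exact hXW2, ?_, ?_⟩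
  · have h1 : Real.exp (L / 2) * Real.exp (L / 2) ≤ Real.exp (L / 2) * T := by
      rw [hXh]
      exact hXW.trans (mul_le_mul_of_nonneg_right hWh (by positivity))
    exact le_of_mul_le_mul_left h1 hexpL
  · have h1 : 1 ≤ Real.exp (L / 2) := Real.one_le_exp (by linarith)
    rw [← hXh]
    nlinarith

theorem N_facts {B C v R E U Bu : ℕ} {L : ℝ} (cd : Cond B C v R E U Bu L) (X W T ca r : ℕ) (hX : Real.exp L = X) (hW1 : 1 ≤ W)
    (hWT : X ≤ W * T) (hWT2 : (W : ℝ) * T ≤ Real.exp L + W) (hWX : (W : ℝ) ≤ X) (hT1 : 1 ≤ T) (hca1 : 1 ≤ ca) (hca2 : (ca : ℝ) ≤ 2 * L ^ C)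
    (hr : r < W) :
    Real.exp L ≤ ((W * (5 * ca * T) + r : ℕ) : ℝ) ∧ ((W * (5 * ca * T) + r : ℕ) : ℝ) ≤ 2 * (W * ((5 * ca * T : ℕ) : ℝ)) ∧
      L ≤ Real.log ((W * (5 * ca * T) + r : ℕ) : ℝ) ∧ Real.log ((W * (5 * ca * T) + r : ℕ) : ℝ) ≤ 2 * L ∧ X ≤ W * (5 * ca * T) + r := by
  have hL1 := cd.l1
  have hX0 : (0 : ℝ) < X := by rw [← hX]; exact Real.exp_pos _
  have h0 : X ≤ W * (5 * ca * T) + r := by
    calc X ≤ W * T := hWT
      _ = W * (1 * 1 * T) := by ring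
      _ ≤ W * (5 * ca * T) := by gcongr; omega
      _ ≤ _ := Nat.le_add_right _ _
  have h1 : (X : ℝ) ≤ ((W * (5 * ca * T) + r : ℕ) : ℝ) := by exact_mod_cast h0
  have h2n : W * (5 * ca * T) + r ≤ 2 * (W * (5 * ca * T)) := by
    have h3 : 1 ≤ 5 * ca * T := Nat.succ_le_of_lt (by positivity)
    have h4 : W * 1 ≤ W * (5 * ca * T) := Nat.mul_le_mul_left _ h3
    omega
  have h2 : ((W * (5 * ca * T) + r : ℕ) : ℝ) ≤ 2 * (W * ((5 * ca * T : ℕ) : ℝ)) := by exact_mod_cast h2n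
  have h3 : ((W * (5 * ca * T) + r : ℕ) : ℝ) ≤ Real.exp (2 * L) := by
    refine h2.trans ?_
    calc 2 * ((W : ℝ) * ((5 * ca * T : ℕ) : ℝ)) = 10 * ca * (W * T) := by push_cast; ring
      _ ≤ 10 * (2 * L ^ C) * (X + X) := by
          apply mul_le_mul _ _ (by positivity) (by positivity)
          · linarith
          · rw [hX] at hWT2
            linarith
      _ = 40 * L ^ C * X := by ring
      _ ≤ Real.exp L * Real.exp L := by
          rw [← hX]
          exact mul_le_mul_of_nonneg_right cd.c4 (Real.exp_pos _).le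
      _ = Real.exp (2 * L) := by rw [← Real.exp_add]; congr 1; ring
  have h4 : (0 : ℝ) < ((W * (5 * ca * T) + r : ℕ) : ℝ) := lt_of_lt_of_le hX0 h1
  refine ⟨by rw [hX]; exact h1, h2, ?_, (Real.log_le_iff_le_exp h4).2 h3, h0⟩
  rw [Real.le_log_iff_exp_le h4, hX]
  exact h1

/-- the comparison of the primes with the model -/
theorem core (B C A : ℕ) : ∃ E0 : ℕ, ∀ E : ℕ, E0 ≤ E → ∃ X0 : ℕ, ∀ X : ℕ, X0 ≤ X → ∀ K : ℕ, 1 ≤ K → (K : ℝ) ≤ B * Real.log (Real.log X) →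
    ∀ a : Fin K → ℤ, (∀ i, a i ≠ 0) → (∀ i, ((a i).natAbs : ℝ) ≤ Real.log X ^ C) → ∀ c : ℕ → ℝ, (∀ n, |c n| ≤ 1) →
    ∑ m ∈ Fintype.piFinset (fun _ : Fin K => range X), |∑ n ∈ range X, c n *
        (∏ i, fp (zL E (Real.log X)) ((a i * n + (m i : ℕ)).toNat) - ∏ i, gp (zL E (Real.log X)) ((a i * n + (m i : ℕ)).toNat))| ≤
      (X : ℝ) ^ (K + 1) / Real.log X ^ A := by
  classical
  obtain ⟨C1, hC1, hpf⟩ := pair_f
  set R : ℕ := 8 * B + 1 with hR
  set s : ℝ := √(16 * C1 + 2) with hs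
  have hs0 : 0 ≤ s := Real.sqrt_nonneg _
  have hs2 : s ^ 2 = 16 * C1 + 2 := Real.sq_sqrt (by positivity)
  set hA : ℝ := Real.exp (4 * C) with hhA
  have hA0 : 0 < hA := Real.exp_pos _
  set G : ℕ := ⌈s * hA⌉₊ with hG
  have hGe : s * hA ≤ Real.exp G := by
    have h1 := Nat.le_ceil (s * hA)
    have h2 := Real.add_one_le_exp (G : ℝ)
    linarith
  obtain ⟨Bu, hBu⟩ := sup_diff (3 * (4 * (G * B + A + 6) + C + 1) + 2 * R + 1)
  refine ⟨max (Bu + 1) (2 * R + 1), fun E hE => ?_⟩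
  obtain ⟨N1, hsd⟩ := hBu E
  obtain ⟨N2, hVi⟩ := Vz_inv_small E
  obtain ⟨L0, hcond⟩ := cond_ev B C (G * B + A + 6) R E (3 * (4 * (G * B + A + 6) + C + 1) + 2 * R + 1) Bu
    ((le_max_right _ _).trans hE) ((le_max_left _ _).trans hE)
  refine ⟨max (max N1 N2) (max 3 ⌈Real.exp L0⌉₊), fun X hX K hK hKB a ha haC c hc => ?_⟩
  have hX1 : N1 ≤ X := le_trans (le_trans (le_max_left _ _) (le_max_left _ _)) hX
  have hX2 : N2 ≤ X := le_trans (le_trans (le_max_right _ _) (le_max_left _ _)) hX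
  have hX3 : 3 ≤ X := le_trans (le_trans (le_max_left _ _) (le_max_right _ _)) hX
  have hX0 : (0 : ℝ) < X := by exact_mod_cast (by omega : 0 < X)
  have hXL : Real.exp L0 ≤ X := (Nat.le_ceil _).trans (by exact_mod_cast le_trans (le_trans (le_max_right _ _) (le_max_right _ _)) hX)
  set L : ℝ := Real.log X with hL
  have hLL0 : L0 ≤ L := by rwa [hL, Real.le_log_iff_exp_le hX0]
  have cd := hcond L hLL0
  have hL1 := cd.l1
  have hL0 : 0 < L := by linarith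
  have hℓ3 := cd.l0
  have hXe : Real.exp L = X := by rw [hL, Real.exp_log hX0]
  set z : ℕ := zL E L with hz
  have hzle : (z : ℝ) ≤ L ^ E := Nat.floor_le (by positivity)
  have hzge : L ^ E - 1 ≤ z := by
    have := Nat.lt_floor_add_one (L ^ E)
    have e : ((⌊L ^ E⌋₊ : ℕ) : ℝ) = z := rfl
    linarith
  obtain ⟨hwℓ, hw2, hw8, hWle, hzW, hwz⟩ := W_facts cd hR K z hKB hzge
  set w : ℕ := ⌈(R : ℝ) * Real.log L⌉₊ with hw
  set W : ℕ := Wm w with hW
  have hW1 : 1 ≤ W := Wm_pos w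
  have hz1 : 1 ≤ z := le_trans hW1 hzW
  obtain ⟨hWT, hWT2, hTe, hWX⟩ := T_facts cd X W hXe hW1 hWle
  set T : ℕ := X / W + 1 with hT
  have hT1 : 1 ≤ T := Nat.le_add_left 1 _
  have hTr : (1 : ℝ) ≤ T := by exact_mod_cast hT1
  set ca : ℕ := ⌈L ^ C⌉₊ with hca
  have hca1 : 1 ≤ ca := Nat.one_le_iff_ne_zero.2 (Nat.ceil_pos.2 (by positivity)).ne'
  have hcaa : ∀ i, (a i).natAbs ≤ ca := by
    intro i
    have h1 := (haC i).trans (Nat.le_ceil _)
    exact_mod_cast h1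
  have hLC1 : 1 ≤ L ^ C := one_le_pow₀ (by linarith)
  have hca2 : (ca : ℝ) ≤ 2 * L ^ C := by
    have := (Nat.ceil_lt_add_one (by positivity : 0 ≤ L ^ C)).le
    linarith
  have hNf := fun r hr => N_facts cd X W T ca r hXe hW1 hWT hWT2 hWX hT1 hca1 hca2 hr
  have hVz : (Vz z)⁻¹ ≤ L := hVi X hX2 z hz1 hzle
  have hVz0 : 0 ≤ (Vz z)⁻¹ := inv_nonneg.2 (Vz_pos z).le
  set V : ℝ := Vz w with hV
  have hV0 : 0 < V := Vz_pos w
  have hV1 : V ≤ 1 := Vz_le_one w
  have hVi1 : 1 ≤ V⁻¹ := (one_le_inv₀ hV0).2 hV1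
  set M' : ℝ := s ^ 2 * V⁻¹ ^ 2 with hM'
  have hM'0 : 0 ≤ M' := by positivity
  set u : ℕ := 4 * (G * B + A + 6) + C + 1 with hu
  set ε : ℝ := 1 / L ^ u with hε
  have hε0 : 0 < ε := by positivity
  have hsupN : ∀ r : ℕ, r < W → ∀ β : ℝ,
      ‖∑ m ∈ Icc 1 (W * (5 * ca * T) + r), ((fp z m - gp z m : ℝ) : ℂ) * ee ((m : ℝ) * β)‖ ≤ ε ^ 3 * ((5 * ca * T : ℕ) : ℝ) := by
    intro r hr β
    obtain ⟨f1, f2, f3, f4, f5⟩ := hNf r hr
    apply sup_part cd u rfl (W * (5 * ca * T) + r) z W (5 * ca * T) f1 f2 f3 f4 hWle hz1 hzle hVz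
    intro β
    apply hsd _ (hX1.trans f5)
    · have h1 : Real.log ((W * (5 * ca * T) + r : ℕ) : ℝ) ^ Bu ≤ (2 * L) ^ Bu := pow_le_pow_left₀ (by linarith) f4 Bu
      linarith [cd.c3]
    · exact hzle.trans (pow_le_pow_left₀ hL0.le f3 E)
  have hPg : ∀ r : ℕ, Nat.Coprime W r → ∀ s0 δ : ℕ, 1 ≤ δ →
      ∑ n ∈ Icc 1 T, gp z (W * (s0 + n) + r) * gp z (W * (s0 + n + δ) + r) ≤ M' * T * hh w δ ^ 2 := by
    intro r hr s0 δ hδ
    have h1 := pair_g w z r s0 δ T ⌈√L⌉₊ hr hδ hz1 hwz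
    have h2 := pairg_part cd T z hTe hz1 hzle hVz
    have h3 := hh_one w δ
    refine h1.trans ?_
    have h4 : V⁻¹ ^ 2 * hh w δ * T ≤ V⁻¹ ^ 2 * T * hh w δ ^ 2 := by
      have : hh w δ ≤ hh w δ ^ 2 := by nlinarith
      calc V⁻¹ ^ 2 * hh w δ * T = V⁻¹ ^ 2 * T * hh w δ := by ring
        _ ≤ _ := by gcongr
    have h5 : (T : ℝ) ≤ V⁻¹ ^ 2 * T * hh w δ ^ 2 := by
      have h6 : 1 ≤ V⁻¹ ^ 2 := one_le_pow₀ hVi1
      have h7 : 1 ≤ hh w δ ^ 2 := one_le_pow₀ h3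
      calc (T : ℝ) = 1 * T * 1 := by ring
        _ ≤ _ := by gcongr
    have h6 : M' * T * hh w δ ^ 2 = (16 * C1 + 2) * (V⁻¹ ^ 2 * T * hh w δ ^ 2) := by
      rw [hM', hs2]
      ring
    have h7 : 0 ≤ V⁻¹ ^ 2 * T * hh w δ ^ 2 := by positivity
    have h8 : 0 ≤ C1 * (V⁻¹ ^ 2 * T * hh w δ ^ 2) := by positivity
    rw [h6]
    linarith
  have hPf : ∀ r : ℕ, r < W → Nat.Coprime W r → ∀ s0 δ : ℕ, 1 ≤ δ → s0 + T + δ ≤ 5 * ca * T →
      ∑ n ∈ Icc 1 T, fp z (W * (s0 + n) + r) * fp z (W * (s0 + n + δ) + r) ≤ M' * T * hh w δ ^ 2 := by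
    intro r hrW hr s0 δ hδ hs0
    obtain ⟨f1, f2, f3, f4, f5⟩ := hNf r hrW
    have hT2 : 2 ≤ T := by
      have h1 : (2 : ℝ) ≤ T := by
        have := Real.add_one_le_exp (L / 2)
        linarith
      exact_mod_cast h1
    have h1 := hpf w z r s0 δ T (W * (5 * ca * T) + r) hr hδ hT2 (by
      apply Nat.add_le_add_right
      exact Nat.mul_le_mul_left _ hs0)
    refine h1.trans ?_
    have h2 : L / 2 ≤ Real.log T := by
      rw [Real.le_log_iff_exp_le (by linarith)]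
      exact hTe
    have h3 := hh_one w δ
    set h := hh w δ with hh0
    set lN := Real.log ((W * (5 * ca * T) + r : ℕ) : ℝ) with hlN
    have h4 : lN ^ 2 ≤ 4 * L ^ 2 := by
      calc lN ^ 2 ≤ (2 * L) ^ 2 := pow_le_pow_left₀ (by linarith) f4 2
        _ = _ := by ring
    have h5 : (L / 2) ^ 2 ≤ Real.log T ^ 2 := pow_le_pow_left₀ (by linarith) h2 2
    have h6 : C1 * (V⁻¹ * h) ^ 2 * T / Real.log T ^ 2 ≤ C1 * (V⁻¹ * h) ^ 2 * T / (L / 2) ^ 2 :=
      div_le_div_of_nonneg_left (by positivity) (by positivity) h5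
    calc lN ^ 2 * (C1 * (V⁻¹ * h) ^ 2 * T / Real.log T ^ 2) ≤ (4 * L ^ 2) * (C1 * (V⁻¹ * h) ^ 2 * T / (L / 2) ^ 2) := by
          apply mul_le_mul h4 h6 (by positivity) (by positivity)
      _ = 16 * C1 * (V⁻¹ ^ 2 * T * h ^ 2) := by
          field_simp
          ring
      _ ≤ (16 * C1 + 2) * (V⁻¹ ^ 2 * T * h ^ 2) := by
          apply mul_le_mul_of_nonneg_right _ (by positivity)
          linarith
      _ = M' * T * h ^ 2 := by
          rw [hM', hs2]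
          ring
  -- one residue class
  set Bd : ℝ := K * ((T : ℝ) ^ (K + 1) * ((2 * L) ^ K / √(T : ℝ) + √(M' ^ (K - 1)) * (hA ^ (K - 1) * (2 * L * √(√(16 * (5 * ca) * ε)))))) with hBd
  have hres := residue_sum hK W T w z rfl hwz hzW a (fun n => if n < X then c n else 0) (by
      intro n
      split_ifs
      · exact hc n
      · simp) Bd (by positivity) (by
    intro q r c' hr hcop hq hc'
    have h1 := line_tuple T (5 * ca * T) w hT1 (by omega) hw8 a q ha (by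
        intro i
        have e1 := hq i
        have e2 := hcaa i
        have e3 : (a i).natAbs * T ≤ ca * T := Nat.mul_le_mul_right _ e2
        have e4 : 1 ≤ ca * T := Nat.succ_le_of_lt (by positivity)
        have e5 : ca ≤ ca * T := Nat.le_mul_of_pos_right _ hT1
        have e6 : T ≤ ca * T := Nat.le_mul_of_pos_left _ hca1
        have e7 : 2 * (a i).natAbs * T = 2 * ((a i).natAbs * T) := by ring
        have e8 : 5 * ca * T = 5 * (ca * T) := by ring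
        rw [e7, e8]
        omega) (fun i n => fp z (W * n + r i)) (fun i n => gp z (W * n + r i)) (fun i n => fp_nonneg _ _) (fun i n => gp_nonneg _ _)
      (fun i => fp_zero z _ (by have := hr i; omega)) (fun i => gp_zero z _ (by have := hr i; omega)) (2 * L) (by linarith) (by
        intro i n hn
        obtain ⟨f1, f2, f3, f4, f5⟩ := hNf (r i) (hr i)
        unfold fp
        split_ifs with h
        · refine le_trans ?_ f4
          apply Real.log_le_log (by exact_mod_cast h.1.pos)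
          exact_mod_cast (by
            apply Nat.add_le_add_right
            exact Nat.mul_le_mul_left _ hn)
        · linarith) (by
        intro i n _
        unfold gp lamz
        split_ifs
        · linarith
        · linarith
        · linarith) (M' * T) hA ε (by positivity) hA0.le hε0
      (fun i => hPf (r i) (hr i) (hcop i)) (fun i s0 δ h1 _ => hPg (r i) (hcop i) s0 δ h1)
      (fun i => sup_class W (5 * ca * T) (r i) z hW1 (hr i) hzW (fun m => fp z m - gp z m)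
        (fun m hm => by rw [fp_zero z m hm, gp_zero z m hm, sub_zero]) _ (hsupN (r i) (hr i)))
      (by
        intro i
        have h2 : 1 ≤ (a i).natAbs := Nat.one_le_iff_ne_zero.2 (Int.natAbs_ne_zero.2 (ha i))
        apply hh_small w (a i).natAbs C (Real.log L) (by linarith) hwℓ h2 _ hw2
        rw [← Real.log_pow]
        exact Real.log_le_log (by exact_mod_cast h2) (haC i)) c' (fun t _ => hc' t)
    have h2 := line_final hK T (5 * ca * T) hT1 (2 * L) M' hA ε (5 * ca) (by linarith) hM'0 hA0.le hε0 (by push_cast; exact le_rfl)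
    refine h1.trans ?_
    rw [hBd]
    apply mul_le_mul_of_nonneg_left _ (by positivity)
    rw [← mul_assoc (√(M' ^ (K - 1)))]
    exact h2)
  have hfin := final_part A G cd K hK hKB W T hWle hTe hWT2 s hA hs0 hA0.le hGe (5 * ca) ε (by positivity) (by linarith) rfl
  rw [hXe] at hfin
  refine le_trans ?_ hfin
  refine le_trans ?_ (final_alg hK (W : ℝ) T (Nat.totient W) V s _ _ (by positivity) (by positivity) hV0 hV1 hs0 (by positivity) (by positivity) (tot_Wm w))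
  refine le_trans ?_ hres
  -- restriction to the range
  have hsub : Fintype.piFinset (fun _ : Fin K => range X) ⊆ Fintype.piFinset (fun _ : Fin K => range (W * T)) := by
    intro m hm
    rw [Fintype.mem_piFinset] at hm ⊢
    intro i
    have := mem_range.1 (hm i)
    rw [mem_range]
    omega
  have hval : ∀ m : Fin K → ℕ, ∑ n ∈ range X, c n * (∏ i, fp z ((a i * n + (m i : ℕ)).toNat) - ∏ i, gp z ((a i * n + (m i : ℕ)).toNat)) =
      ∑ n ∈ range (W * T), (if n < X then c n else 0) * (∏ i, fp z ((a i * n + (m i : ℕ)).toNat) - ∏ i, gp z ((a i * n + (m i : ℕ)).toNat)) := by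
    intro m
    have e1 : range X = (range (W * T)).filter (fun n => n < X) := by
      ext n
      rw [mem_filter, mem_range, mem_range]
      omega
    rw [e1, sum_filter]
    apply sum_congr rfl
    intro n _
    split_ifs <;> simp
  rw [sum_congr rfl fun m _ => by rw [hval m]]
  exact sum_le_sum_of_subset_of_nonneg hsub fun m _ _ => abs_nonneg _

end

end Run7.h402.PX
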