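import Mathlib
import Pool.Agent.Run7.h402.PX.X8
import Pool.Agent.Run7.h402.PW.W9

/-!
# Bounds for the singular series, and the model
-/

set_option autoImplicit false

open Finset
open Filter (Tendsto atTop)
open scoped Topology

namespace Run7.h402.PX

open Run7.h402.PT Run7.h402.PV Run7.h402.PW
open Pool.Agent.H373R2.T7
open Pool.Agent.N475.SP (dom)

noncomputable section

/-- the local factor of an admissible tuple at a small prime -/
theorem fac_low_small {K : ℕ} (a : Fin K → ℕ) (p : ℕ) (hp : p.Prime) (h : ∃ r, r < p ∧ ∀ i, a i % p ≠ r) : 1 / (p : ℝ) ≤ fac a p := by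
  have hp2 : (2 : ℝ) ≤ p := by exact_mod_cast hp.two_le
  have hp0 : (0 : ℝ) < p := by linarith
  have h1 := nup_lt a p hp.one_lt.le h
  have h2 : (nup a p : ℝ) + 1 ≤ p := by exact_mod_cast h1
  have h3 : 1 / (p : ℝ) ≤ 1 - (nup a p : ℝ) / p := by
    have h6 : 1 - (nup a p : ℝ) / p - 1 / p = (p - (nup a p + 1)) / p := by field_simp; ring
    have h7 : 0 ≤ ((p : ℝ) - (nup a p + 1)) / p := div_nonneg (by linarith) hp0.le
    linarith
  unfold fac
  have hx1 : 1 / (p : ℝ) ≤ 1 / 2 := one_div_le_one_div_of_le (by norm_num) hp2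
  have hx0 : 0 < 1 / (p : ℝ) := by positivity
  have h4 : 0 < (1 - 1 / (p : ℝ)) ^ K := by
    apply pow_pos
    linarith
  have h5 : (1 - 1 / (p : ℝ)) ^ K ≤ 1 := pow_le_one₀ (by linarith) (by linarith)
  rw [le_div_iff₀ h4]
  calc 1 / (p : ℝ) * (1 - 1 / (p : ℝ)) ^ K ≤ 1 / (p : ℝ) * 1 := by gcongr
    _ ≤ _ := by rw [mul_one]; exact h3

/-- the lower bound for the partial products -/
theorem Sz_low {K : ℕ} (hK : 1 ≤ K) (a : Fin K → ℕ) (hadm : Adm a) (z : ℕ) : Real.exp (-(5 * (K : ℝ))) ≤ Sz a z := by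
  have hKr : (1 : ℝ) ≤ K := by exact_mod_cast hK
  unfold Sz
  have hsplit : ∏ p ∈ pz z, (1 - (nup a p : ℝ) / p) / (1 - 1 / (p : ℝ)) ^ K =
      (∏ p ∈ (pz z).filter (fun p => p ≤ 2 * K), fac a p) * ∏ p ∈ (pz z).filter (fun p => ¬ p ≤ 2 * K), fac a p :=
    (prod_filter_mul_prod_filter_not _ _ _).symm
  rw [hsplit]
  have h1 : Real.exp (-(3 * (K : ℝ))) ≤ ∏ p ∈ (pz z).filter (fun p => p ≤ 2 * K), fac a p := by
    have h2 : ∏ p ∈ (pz z).filter (fun p => p ≤ 2 * K), (1 / (p : ℝ)) ≤ ∏ p ∈ (pz z).filter (fun p => p ≤ 2 * K), fac a p := by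
      apply prod_le_prod
      · intro p _
        positivity
      · intro p hp
        rw [mem_filter, mem_pz] at hp
        exact fac_low_small a p hp.1.2 (hadm p hp.1.2)
    refine le_trans ?_ h2
    have h3 : ∏ p ∈ (pz z).filter (fun p => p ≤ 2 * K), (1 / (p : ℝ)) = 1 / ∏ p ∈ (pz z).filter (fun p => p ≤ 2 * K), (p : ℝ) := by
      rw [prod_div_distrib, prod_const_one]
    rw [h3]
    have h4 : ∏ p ∈ (pz z).filter (fun p => p ≤ 2 * K), (p : ℝ) ≤ Real.exp (3 * K) := by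
      have h5 : ∏ p ∈ (pz z).filter (fun p => p ≤ 2 * K), (p : ℝ) ≤ ∏ p ∈ pz (2 * K), (p : ℝ) := by
        apply prod_mono_one
        · intro p hp
          rw [mem_filter, mem_pz] at hp
          exact mem_pz.2 ⟨hp.2, hp.1.2⟩
        · intro p hp
          have := (mem_pz.1 hp).2.one_lt.le
          exact_mod_cast this
      have h6 : ∏ p ∈ pz (2 * K), (p : ℝ) = (Wm (2 * K) : ℝ) := by
        unfold Wm
        push_cast
        rfl
      have h7 : (Wm (2 * K) : ℝ) ≤ (4 : ℝ) ^ (2 * K) := by exact_mod_cast Wm_le _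
      have h8 : (4 : ℝ) ^ (2 * K) = Real.exp (4 * K * Real.log 2) := by
        have e1 : (4 : ℝ) = Real.exp (2 * Real.log 2) := by
          rw [two_mul, Real.exp_add, Real.exp_log (by norm_num)]
          norm_num
        have e2 : ((2 * K : ℕ) : ℝ) * (2 * Real.log 2) = 4 * K * Real.log 2 := by
          push_cast
          ring
        calc (4 : ℝ) ^ (2 * K) = (Real.exp (2 * Real.log 2)) ^ (2 * K) := by rw [← e1]
          _ = Real.exp (((2 * K : ℕ) : ℝ) * (2 * Real.log 2)) := (Real.exp_nat_mul _ _).symm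
          _ = _ := by rw [e2]
      rw [h6] at h5
      refine h5.trans (h7.trans ?_)
      rw [h8]
      apply Real.exp_le_exp.2
      have := Real.log_two_lt_d9
      nlinarith
    have h9 : 0 < ∏ p ∈ (pz z).filter (fun p => p ≤ 2 * K), (p : ℝ) := by
      apply prod_pos
      intro p hp
      rw [mem_filter, mem_pz] at hp
      exact_mod_cast hp.1.2.pos
    rw [Real.exp_neg, ← one_div]
    exact one_div_le_one_div_of_le h9 h4
  have h2 : Real.exp (-(2 * (K : ℝ))) ≤ ∏ p ∈ (pz z).filter (fun p => ¬ p ≤ 2 * K), fac a p := by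
    have h3 : ∏ p ∈ (pz z).filter (fun p => ¬ p ≤ 2 * K), Real.exp (-(2 * ((K : ℝ) ^ 2 * ((p : ℝ) ^ 2)⁻¹))) ≤
        ∏ p ∈ (pz z).filter (fun p => ¬ p ≤ 2 * K), fac a p := by
      apply prod_le_prod
      · intro p _
        exact (Real.exp_pos _).le
      · intro p hp
        rw [mem_filter, mem_pz] at hp
        have hp0 : (0 : ℝ) < p := by exact_mod_cast hp.1.2.pos
        refine le_trans ?_ (fac_low a p hp.1.2 (by omega))
        set x : ℝ := (K : ℝ) ^ 2 * ((p : ℝ) ^ 2)⁻¹ with hx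
        have e1 : (K : ℝ) ^ 2 / (p : ℝ) ^ 2 = x := by rw [hx, div_eq_mul_inv]
        rw [e1]
        have hx0 : 0 ≤ x := by positivity
        have hx1 : x ≤ 1 / 2 := by
          rw [← e1, div_le_iff₀ (by positivity)]
          have : (2 * K : ℝ) ≤ p := by
            have := hp.2
            exact_mod_cast (by omega : 2 * K ≤ p)
          nlinarith
        have h4 : Real.exp (2 * x) * (1 - x) ≥ 1 := by
          have h5 := Real.add_one_le_exp (2 * x)
          nlinarith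
        rw [Real.exp_neg, inv_le_iff_one_le_mul₀ (Real.exp_pos _), mul_comm]
        exact h4
    refine le_trans ?_ h3
    rw [← Real.exp_sum]
    apply Real.exp_le_exp.2
    rw [sum_neg_distrib, neg_le_neg_iff, ← mul_sum, ← mul_sum]
    have h4 : ∑ p ∈ (pz z).filter (fun p => ¬ p ≤ 2 * K), ((p : ℝ) ^ 2)⁻¹ ≤ ∑ p ∈ Ioc (2 * K) (max (2 * K) z), ((p : ℝ) ^ 2)⁻¹ := by
      apply sum_le_sum_of_subset_of_nonneg
      · intro p hp
        rw [mem_filter, mem_pz] at hp
        rw [mem_Ioc]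
        exact ⟨by omega, hp.1.1.trans (le_max_right _ _)⟩
      · intro p _ _
        positivity
    have h5 := sum_Ioc_inv_sq_le_sub (α := ℝ) (show 2 * K ≠ 0 by omega) (le_max_left (2 * K) z)
    have h6 : ∑ p ∈ (pz z).filter (fun p => ¬ p ≤ 2 * K), ((p : ℝ) ^ 2)⁻¹ ≤ ((2 * K : ℕ) : ℝ)⁻¹ := by
      have : 0 ≤ ((max (2 * K) z : ℕ) : ℝ)⁻¹ := by positivity
      linarith
    calc 2 * ((K : ℝ) ^ 2 * ∑ p ∈ (pz z).filter (fun p => ¬ p ≤ 2 * K), ((p : ℝ) ^ 2)⁻¹) ≤ 2 * ((K : ℝ) ^ 2 * ((2 * K : ℕ) : ℝ)⁻¹) := by gcongr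
      _ ≤ 2 * (K : ℝ) := by
          push_cast
          have : (K : ℝ) ^ 2 * (2 * (K : ℝ))⁻¹ = K / 2 := by field_simp
          rw [this]
          linarith
  calc Real.exp (-(5 * (K : ℝ))) = Real.exp (-(3 * (K : ℝ))) * Real.exp (-(2 * (K : ℝ))) := by
        rw [← Real.exp_add]; congr 1; ring
    _ ≤ _ := by
        apply mul_le_mul h1 h2 (Real.exp_pos _).le
        exact (Real.exp_pos _).le.trans h1

end

end Run7.h402.PX
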