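import Mathlib
import Pool.Agent.Run7.h402.PX.X9

/-!
# The partial products and the model at the level `(log X) ^ E`
-/

set_option autoImplicit false

open Finset
open Filter (Tendsto atTop)
open scoped Topology

namespace Run7.h402.PX

open Run7.h402.PT Run7.h402.PV Run7.h402.PW
open Pool.Agent.H373R2.T7
open Pool.Agent.N475.SP (dom)

noncomputable section

/-- the analytic conditions -/
structure Big (B E A : ℕ) (L : ℝ) : Prop where
  b0 : 3 ≤ Real.log L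
  b1 : 1000 ≤ L
  b2 : 16 * ((B : ℝ) + 1) * (E + A + 2) * Real.log L ^ 2 ≤ √L
  b3 : 6 * (B : ℝ) + A + 3 ≤ Real.log L
  b4 : 6 * ((B : ℝ) + 1) * Real.log L ^ 4 ≤ Real.exp (Real.log L / 10)

theorem big_ev (B E A : ℕ) : ∃ L0 : ℝ, ∀ L : ℝ, L0 ≤ L → Big B E A L := by
  obtain ⟨a2, h2⟩ := dom (16 * ((B : ℝ) + 1) * (E + A + 2)) (1 / 2) 2 (by norm_num)
  obtain ⟨a4, h4⟩ := dom (6 * ((B : ℝ) + 1)) (1 / 10) 4 (by norm_num)
  refine ⟨max (max (Real.exp a2) (Real.exp a4)) (max 1000 (Real.exp (6 * (B : ℝ) + A + 3))), fun L hL => ?_⟩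
  have g2 : Real.exp a2 ≤ L := le_trans (le_trans (le_max_left _ _) (le_max_left _ _)) hL
  have g4 : Real.exp a4 ≤ L := le_trans (le_trans (le_max_right _ _) (le_max_left _ _)) hL
  have g1 : 1000 ≤ L := le_trans (le_trans (le_max_left _ _) (le_max_right _ _)) hL
  have g3 : Real.exp (6 * (B : ℝ) + A + 3) ≤ L := le_trans (le_trans (le_max_right _ _) (le_max_right _ _)) hL
  have hL0 : 0 < L := by linarith
  have hl : ∀ a : ℝ, Real.exp a ≤ L → a ≤ Real.log L := fun a ha => by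
    rwa [Real.le_log_iff_exp_le hL0]
  have hsq : Real.exp (1 / 2 * Real.log L) = √L := by
    rw [Real.sqrt_eq_rpow, Real.rpow_def_of_pos hL0]
    congr 1
    ring
  have h3 := hl _ g3
  have hB : (0 : ℝ) ≤ B := by positivity
  have hA : (0 : ℝ) ≤ A := by positivity
  refine ⟨by linarith, g1, ?_, h3, ?_⟩
  · have := h2 (Real.log L) (hl _ g2)
    rwa [hsq] at this
  · have := h4 (Real.log L) (hl _ g4)
    rwa [show 1 / 10 * Real.log L = Real.log L / 10 by ring] at this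

/-- consequences -/
theorem big_facts {B E A : ℕ} {L : ℝ} (bg : Big B E A L) :
    0 < L ∧ Real.exp (Real.log L) = L ∧ 1 ≤ √L ∧ √L * √L = L ∧ √L ≤ L / 16 ∧
      16 * ((B : ℝ) * Real.log L) ≤ √L ∧ 16 * ((E : ℝ) * Real.log L) ≤ √L ∧ 16 * ((A : ℝ) * Real.log L) ≤ √L ∧ 16 * Real.log L ≤ √L ∧
      16 * ((B : ℝ) * E * Real.log L ^ 2) ≤ √L ∧ 16 * ((B : ℝ) * Real.log L ^ 2) ≤ √L := by
  have h1 := bg.b1
  have h0 := bg.b0
  have h2 := bg.b2
  set ℓ := Real.log L with hℓ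
  have hL0 : 0 < L := by linarith
  have hs0 := Real.sqrt_nonneg L
  have hss : √L * √L = L := Real.mul_self_sqrt hL0.le
  have hB : (0 : ℝ) ≤ B := by positivity
  have hE : (0 : ℝ) ≤ E := by positivity
  have hA : (0 : ℝ) ≤ A := by positivity
  have e : 16 * ((B : ℝ) + 1) * (E + A + 2) * ℓ ^ 2 =
      16 * (B * E * ℓ ^ 2) + 16 * (B * A * ℓ ^ 2) + 32 * (B * ℓ ^ 2) + 16 * (E * ℓ ^ 2) + 16 * (A * ℓ ^ 2) + 32 * ℓ ^ 2 := by ring
  have hℓ2 : ℓ ≤ ℓ ^ 2 := by nlinarith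
  have p1 : 0 ≤ (B : ℝ) * E * ℓ ^ 2 := by positivity
  have p2 : 0 ≤ (B : ℝ) * A * ℓ ^ 2 := by positivity
  have p3 : 0 ≤ (B : ℝ) * ℓ ^ 2 := by positivity
  have p4 : 0 ≤ (E : ℝ) * ℓ ^ 2 := by positivity
  have p5 : 0 ≤ (A : ℝ) * ℓ ^ 2 := by positivity
  have p6 : 0 ≤ ℓ ^ 2 := by positivity
  have q1 : (B : ℝ) * ℓ ≤ B * ℓ ^ 2 := by gcongr
  have q2 : (E : ℝ) * ℓ ≤ E * ℓ ^ 2 := by gcongr
  have q3 : (A : ℝ) * ℓ ≤ A * ℓ ^ 2 := by gcongr
  refine ⟨hL0, Real.exp_log hL0, Real.one_le_sqrt.2 (by linarith), hss, ?_, by linarith, by linarith, by linarith, by linarith, by linarith, by linarith⟩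
  have h16 : 16 ≤ √L := by
    apply Real.le_sqrt_of_sq_le
    linarith
  nlinarith

theorem zL_bounds {B E A : ℕ} {L : ℝ} (bg : Big B E A L) (hE : 1 ≤ E) : 1 ≤ zL E L ∧ (zL E L : ℝ) ≤ L ^ E ∧ L ^ E / 2 ≤ (zL E L : ℝ) := by
  have h1 := bg.b1
  have hL : L ≤ L ^ E := by
    calc L = L ^ 1 := (pow_one L).symm
      _ ≤ L ^ E := pow_le_pow_right₀ (by linarith) hE
  have h2 : L ^ E < (zL E L : ℝ) + 1 := Nat.lt_floor_add_one (L ^ E)
  have h3 : L ^ E / 2 ≤ (zL E L : ℝ) := by linarith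
  refine ⟨?_, Nat.floor_le (by positivity), h3⟩
  have : (1 : ℝ) ≤ zL E L := by linarith
  exact_mod_cast this

/-- the singular series and its partial product -/
theorem S_par {B E A : ℕ} {L : ℝ} (bg : Big B E A L) (hE : A + 8 ≤ E) {K : ℕ} (hK : 1 ≤ K) (hKB : (K : ℝ) ≤ B * Real.log L)
    (X : ℕ) (hX : Real.exp L = X) (a : Fin K → ℕ) (haX : ∀ i, a i ≤ X) (hinj : Function.Injective a) (S : ℝ)
    (hS : Tendsto (Sz a) atTop (𝓝 S)) : |S - Sz a (zL E L)| ≤ Sz a (zL E L) / L ^ (A + 2) := by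
  obtain ⟨hL0, hLe, hs1, hss, hsL, f1, f2, f3, f4, f5, f6⟩ := big_facts bg
  have h1 := bg.b1
  obtain ⟨hz1, hz2, hz3⟩ := zL_bounds bg (by omega)
  set z := zL E L with hz
  set s := Sz a z with hs
  have hs0 : 0 ≤ s := Sz_nonneg a z
  have hKL : (K : ℝ) ≤ L := by linarith
  have hz0 : (0 : ℝ) < z := by exact_mod_cast hz1
  have hX0 : (0 : ℝ) < X := by rw [← hX]; exact Real.exp_pos _
  have hXn : 1 ≤ X := by exact_mod_cast hX0
  have hlogX : Real.log X = L := by rw [← hX, Real.log_exp]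
  have hLE : L ^ (A + 8) ≤ L ^ E := pow_le_pow_right₀ (by linarith) hE
  have hLA : 1 ≤ L ^ (A + 2) := one_le_pow₀ (by linarith)
  have hz4 : L ^ (A + 2) * L ^ 6 / 2 ≤ z := by
    have : L ^ (A + 8) = L ^ (A + 2) * L ^ 6 := by ring
    rw [← this]
    linarith
  have h2K : 2 * K ≤ z := by
    have h3 : (2 * K : ℝ) ≤ z := by
      have h4 : L * 1000 ≤ L ^ 6 := by
        calc L * 1000 ≤ L * L ^ 5 := by
              gcongr
              calc (1000 : ℝ) ≤ L := h1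
                _ = L ^ 1 := (pow_one L).symm
                _ ≤ L ^ 5 := pow_le_pow_right₀ (by linarith) (by norm_num)
          _ = L ^ 6 := by ring
      have h5 : L ^ 6 ≤ L ^ (A + 2) * L ^ 6 := le_mul_of_one_le_left (by positivity) hLA
      linarith
    exact_mod_cast h3
  have hx : 4 * (K : ℝ) ^ 3 * Real.log X / z ≤ 1 / L ^ (A + 2) / 2 := by
    rw [hlogX, div_div, div_le_div_iff₀ hz0 (by positivity), one_mul]
    have h3 : (K : ℝ) ^ 3 ≤ L ^ 3 := by gcongr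
    have h4 : 16 * L ^ 4 ≤ L ^ 6 := by
      have : L ^ 6 = L ^ 2 * L ^ 4 := by ring
      rw [this]
      apply mul_le_mul_of_nonneg_right _ (by positivity)
      nlinarith
    calc 4 * (K : ℝ) ^ 3 * L * (L ^ (A + 2) * 2) ≤ 4 * L ^ 3 * L * (L ^ (A + 2) * 2) := by gcongr
      _ = L ^ (A + 2) * (16 * L ^ 4) / 2 := by ring
      _ ≤ L ^ (A + 2) * L ^ 6 / 2 := by gcongr
      _ ≤ z := hz4
  have hx2 : (K : ℝ) ^ 2 / z ≤ 1 / L ^ (A + 2) := by
    rw [div_le_div_iff₀ hz0 (by positivity), one_mul]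
    have h3 : (K : ℝ) ^ 2 ≤ L ^ 2 := by gcongr
    have h4 : 2 * L ^ 2 ≤ L ^ 6 := by
      have : L ^ 6 = L ^ 4 * L ^ 2 := by ring
      rw [this]
      apply mul_le_mul_of_nonneg_right _ (by positivity)
      have : L ≤ L ^ 4 := le_self_pow₀ (by linarith) (by norm_num)
      linarith
    calc (K : ℝ) ^ 2 * L ^ (A + 2) ≤ L ^ 2 * L ^ (A + 2) := by gcongr
      _ = L ^ (A + 2) * (2 * L ^ 2) / 2 := by ring
      _ ≤ L ^ (A + 2) * L ^ 6 / 2 := by gcongr
      _ ≤ z := hz4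
  have hlim1 : (1 - (K : ℝ) ^ 2 / z) * s ≤ S := by
    apply ge_of_tendsto hS
    filter_upwards [Filter.eventually_ge_atTop z] with y hy
    exact (tail_bounds hK a X hXn haX hinj z y h2K hy).1
  have hlim2 : S ≤ Real.exp (4 * (K : ℝ) ^ 3 * Real.log X / z) * s := by
    apply le_of_tendsto hS
    filter_upwards [Filter.eventually_ge_atTop z] with y hy
    exact (tail_bounds hK a X hXn haX hinj z y h2K hy).2
  have hLinv : 1 / L ^ (A + 2) ≤ 1 := by rw [div_le_one (by positivity)]; exact hLA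
  have hx0 : 0 ≤ 4 * (K : ℝ) ^ 3 * Real.log X / z := by
    rw [hlogX]
    positivity
  have hexp : Real.exp (4 * (K : ℝ) ^ 3 * Real.log X / z) ≤ 1 + 1 / L ^ (A + 2) := by
    have h3 := Real.abs_exp_sub_one_le (x := 4 * (K : ℝ) ^ 3 * Real.log X / z) (by
      rw [abs_of_nonneg hx0]; linarith)
    rw [abs_of_nonneg hx0] at h3
    have h4 := (abs_le.1 h3).2
    linarith
  have e1 : s / L ^ (A + 2) = 1 / L ^ (A + 2) * s := by ring
  rw [e1, abs_le]
  constructor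
  · have h3 : (1 - 1 / L ^ (A + 2)) * s ≤ (1 - (K : ℝ) ^ 2 / z) * s := by
      apply mul_le_mul_of_nonneg_right _ hs0
      linarith
    linarith
  · have h3 : Real.exp (4 * (K : ℝ) ^ 3 * Real.log X / z) * s ≤ (1 + 1 / L ^ (A + 2)) * s :=
      mul_le_mul_of_nonneg_right hexp hs0
    linarith

/-- the model -/
theorem model_par {B E A : ℕ} {L : ℝ} (bg : Big B E A L) (hE : 1 ≤ E) {K : ℕ} (hK : 1 ≤ K) (hKB : (K : ℝ) ≤ B * Real.log L)
    (X : ℕ) (hX : Real.exp L = X) (hV : (Vz (zL E L))⁻¹ ≤ L) (a : Fin K → ℕ) (y : ℕ) (hy : y ≤ X) :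
    |∑ n ∈ Icc 1 y, ∏ i, lamz (zL E L) (n + a i) - y * Sz a (zL E L)| ≤ X / L ^ A := by
  obtain ⟨hL0, hLe, hs1, hss, hsL, f1, f2, f3, f4, f5, f6⟩ := big_facts bg
  have h1 := bg.b1
  have h0 := bg.b0
  obtain ⟨hz1, hz2, hz3⟩ := zL_bounds bg hE
  set z := zL E L with hz
  set ℓ := Real.log L with hℓ
  have hpow : ∀ n : ℕ, L ^ n = Real.exp (n * ℓ) := by
    intro n
    rw [Real.exp_nat_mul, hLe]
  set r : ℕ := ⌈√L⌉₊ with hr
  have hr1 : √L ≤ r := Nat.le_ceil _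
  have hr2 : (r : ℝ) ≤ 2 * √L := by
    have := (Nat.ceil_lt_add_one (Real.sqrt_nonneg L)).le
    linarith
  have key := multi_sieve hK a y z r hz1
  have hz0 : (0 : ℝ) < z := by exact_mod_cast hz1
  have hlogz : Real.log z ≤ E * ℓ := by
    rw [hℓ, ← Real.log_pow]
    exact Real.log_le_log hz0 hz2
  have hX0 : (0 : ℝ) < X := by rw [← hX]; exact Real.exp_pos _
  have hVp := Vz_pos z
  have hsum : ∑ n ∈ Icc 1 y, ∏ i, lamz z (n + a i) =
      (Vz z)⁻¹ ^ K * ((((Icc 1 y).filter (fun n => ∀ p ∈ pz z, ¬ Ap a p n)).card : ℕ) : ℝ) := by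
    have h2 : ∀ n ∈ Icc 1 y, ∏ i, lamz z (n + a i) = if (∀ p ∈ pz z, ¬ Ap a p n) then (Vz z)⁻¹ ^ K else 0 := by
      intro n _
      split_ifs with h
      · have h3 : ∀ i : Fin K, lamz z (n + a i) = (Vz z)⁻¹ := by
          intro i
          unfold lamz
          rw [if_pos]
          intro p hp hd
          exact h p hp ⟨i, hd⟩
        rw [prod_congr rfl fun i _ => h3 i, prod_const, card_univ, Fintype.card_fin]
      · push Not at h
        obtain ⟨p, hp, i, hi⟩ := h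
        apply prod_eq_zero (mem_univ i)
        unfold lamz
        rw [if_neg]
        intro h4
        exact h4 p hp hi
    rw [sum_congr rfl h2, ← sum_filter, sum_const, nsmul_eq_mul, mul_comm]
  rw [hsum, Sz_eq]
  have e : (Vz z)⁻¹ ^ K * ((((Icc 1 y).filter (fun n => ∀ p ∈ pz z, ¬ Ap a p n)).card : ℕ) : ℝ) -
      y * ((Vz z)⁻¹ ^ K * ∏ p ∈ pz z, (1 - (nup a p : ℝ) / p)) =
      (Vz z)⁻¹ ^ K * (((((Icc 1 y).filter (fun n => ∀ p ∈ pz z, ¬ Ap a p n)).card : ℕ) : ℝ) -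
        y * ∏ p ∈ pz z, (1 - (nup a p : ℝ) / p)) := by ring
  have hVK : (Vz z)⁻¹ ^ K ≤ Real.exp (B * ℓ ^ 2) := by
    calc (Vz z)⁻¹ ^ K ≤ L ^ K := by gcongr
      _ = Real.exp (K * ℓ) := hpow K
      _ ≤ Real.exp (B * ℓ ^ 2) := by
          apply Real.exp_le_exp.2
          nlinarith
  -- the first error
  have hKL : (K : ℝ) ≤ L := by linarith
  have T1 : (((z : ℝ) + 1) * K) ^ r ≤ Real.exp (L / 2) := by
    have t1 : ((z : ℝ) + 1) * K ≤ Real.exp ((E + 2) * ℓ) := by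
      have h3 : Real.exp ((E + 2) * ℓ) = L ^ E * L ^ 2 := by
        rw [add_mul, Real.exp_add, ← hpow E]
        congr 1
        exact (hpow 2).symm
      rw [h3]
      have h4 : 1 ≤ L ^ E := one_le_pow₀ (by linarith)
      calc ((z : ℝ) + 1) * K ≤ (L ^ E + L ^ E) * L := by gcongr
        _ = L ^ E * (2 * L) := by ring
        _ ≤ L ^ E * L ^ 2 := by
            gcongr
            nlinarith
    calc (((z : ℝ) + 1) * K) ^ r ≤ (Real.exp ((E + 2) * ℓ)) ^ r := by gcongr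
      _ = Real.exp (r * ((E + 2) * ℓ)) := (Real.exp_nat_mul _ _).symm
      _ ≤ Real.exp (L / 2) := by
          apply Real.exp_le_exp.2
          have h5 : ((E : ℝ) + 2) * ℓ ≤ √L / 4 := by linarith
          calc (r : ℝ) * ((E + 2) * ℓ) ≤ (2 * √L) * (√L / 4) := by
                apply mul_le_mul hr2 h5 (by positivity) (by positivity)
            _ = L / 2 := by
                have : (2 * √L) * (√L / 4) = (√L * √L) / 2 := by ring
                rw [this, hss]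
  have T2 : 2 * (y : ℝ) * Real.exp (3 * (K * (1 + Real.log z)) - r) ≤ X * Real.exp (-(√L / 4)) := by
    have hyX : (y : ℝ) ≤ X := by exact_mod_cast hy
    have h2 : 3 * (K * (1 + Real.log z)) - r ≤ -(√L / 4) - 1 := by
      have h3 : (K : ℝ) * (1 + Real.log z) ≤ B * ℓ + B * E * ℓ ^ 2 := by
        calc (K : ℝ) * (1 + Real.log z) ≤ (B * ℓ) * (1 + E * ℓ) := by
              have h4 : 0 ≤ 1 + Real.log z := by
                have := Real.log_natCast_nonneg z
                linarith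
              gcongr
          _ = _ := by ring
      linarith
    have h8 : (2 : ℝ) ≤ Real.exp 1 := by
      have := Real.add_one_le_exp (1 : ℝ)
      linarith
    calc 2 * (y : ℝ) * Real.exp (3 * (K * (1 + Real.log z)) - r) ≤ Real.exp 1 * X * Real.exp (-(√L / 4) - 1) := by
          gcongr
      _ = X * (Real.exp 1 * Real.exp (-(√L / 4) - 1)) := by ring
      _ = X * Real.exp (-(√L / 4)) := by rw [← Real.exp_add]; congr 2; ring
  rw [e, abs_mul, abs_of_nonneg (by positivity)]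
  have hT : Real.exp (L / 2) ≤ X * Real.exp (-(√L / 4)) := by
    rw [← hX, ← Real.exp_add]
    apply Real.exp_le_exp.2
    linarith
  calc (Vz z)⁻¹ ^ K * |_| ≤ Real.exp (B * ℓ ^ 2) * (X * Real.exp (-(√L / 4)) + X * Real.exp (-(√L / 4))) := by
        apply mul_le_mul hVK (key.trans (add_le_add (T1.trans hT) T2)) (abs_nonneg _) (by positivity)
    _ = X * (2 * (Real.exp (B * ℓ ^ 2) * Real.exp (-(√L / 4)))) := by ring
    _ = X * (2 * Real.exp (B * ℓ ^ 2 + -(√L / 4))) := by rw [← Real.exp_add]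
    _ ≤ X * (Real.exp 1 * Real.exp (B * ℓ ^ 2 + -(√L / 4))) := by
        have := Real.add_one_le_exp (1 : ℝ)
        gcongr
        linarith
    _ = X * Real.exp (1 + (B * ℓ ^ 2 + -(√L / 4))) := by rw [← Real.exp_add]
    _ ≤ X * Real.exp (-(A * ℓ)) := by
        gcongr
        linarith
    _ = X / L ^ A := by rw [hpow A, Real.exp_neg]; ring

end

end Run7.h402.PX
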