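import Mathlib
import Pool.Agent.Run7.h402.PX.X10

/-!
# From averages to counting functions, general form
-/

set_option autoImplicit false

open Finset
open Filter (Tendsto atTop)
open scoped Topology

namespace Run7.h402.PX

open Run7.h402.PT Run7.h402.PV Run7.h402.PW
open Pool.Agent.H373R2.T7
open Pool.Agent.N475.SP (dom)

noncomputable section

/-- from a grid to all arguments -/
theorem grid_lemma (f : ℕ → ℝ) (hf : ∀ x y, x ≤ y → f x ≤ f y) (s : ℝ) (hs : 0 ≤ s) (X M : ℕ) (hX : 1 ≤ X) (hM : 1 ≤ M) (err : ℝ)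
    (hg : ∀ j : ℕ, j ≤ M → |f (X * j / M) - ((X * j / M : ℕ) : ℝ) * s| ≤ err) (y : ℕ) (hy : y ≤ X) :
    |f y - y * s| ≤ err + s * (X / M + 1) := by
  have hM0 : (0 : ℝ) < M := by exact_mod_cast hM
  have hMn : 0 < M := hM
  set j : ℕ := y * M / X with hj
  have hjM : j ≤ M := by
    apply Nat.div_le_of_le_mul
    exact Nat.mul_le_mul_right M hy
  have hjlow : X * j / M ≤ y := by
    apply Nat.div_le_of_le_mul
    have := Nat.mul_div_le (y * M) X
    rw [mul_comm M y]
    exact this
  set j' : ℕ := min (j + 1) M with hj'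
  have hj'M : j' ≤ M := min_le_right _ _
  have hjup : y ≤ X * j' / M := by
    rw [Nat.le_div_iff_mul_le hMn, hj']
    rcases Nat.lt_or_ge j M with h3 | h3
    · rw [min_eq_left (by omega)]
      have := Nat.lt_mul_div_succ (y * M) (show 0 < X by omega)
      exact this.le
    · rw [min_eq_right (by omega)]
      exact Nat.mul_le_mul_right M hy
  have hdl : (y : ℝ) - (X / M + 1) ≤ ((X * j / M : ℕ) : ℝ) := by
    have h3 : (y : ℝ) * M < X * (j + 1) := by
      have := Nat.lt_mul_div_succ (y * M) (show 0 < X by omega)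
      exact_mod_cast this
    have h4 : (X : ℝ) * j < M * (((X * j / M : ℕ) : ℝ) + 1) := by
      have := Nat.lt_mul_div_succ (X * j) hMn
      exact_mod_cast this
    have h5 : ((y : ℝ) - (X / M + 1)) * M = y * M - X - M := by
      rw [sub_mul, add_mul, div_mul_cancel₀ _ hM0.ne', one_mul]; ring
    have h6 : ((y : ℝ) - (X / M + 1)) * M ≤ ((X * j / M : ℕ) : ℝ) * M := by
      rw [h5]
      linarith
    exact le_of_mul_le_mul_right h6 hM0
  have hdu : ((X * j' / M : ℕ) : ℝ) ≤ (y : ℝ) + (X / M + 1) := by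
    have h3 : (X : ℝ) * j ≤ y * M := by
      have := Nat.mul_div_le (y * M) X
      exact_mod_cast this
    have h4 : ((X * j' / M : ℕ) : ℝ) * M ≤ X * j' := by
      have := Nat.div_mul_le_self (X * j') M
      exact_mod_cast this
    have h5 : (j' : ℝ) ≤ j + 1 := by
      have : j' ≤ j + 1 := min_le_left _ _
      exact_mod_cast this
    have h7 : (X : ℝ) * j' ≤ X * (j + 1) := by gcongr
    have h6 : ((X * j' / M : ℕ) : ℝ) * M ≤ ((y : ℝ) + (X / M + 1)) * M := by
      have e : ((y : ℝ) + (X / M + 1)) * M = y * M + X + M := by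
        rw [add_mul, add_mul, div_mul_cancel₀ _ hM0.ne', one_mul]; ring
      rw [e]
      linarith
    exact le_of_mul_le_mul_right h6 hM0
  have u1 := (abs_le.1 (hg j' hj'M)).2
  have u2 := hf y _ hjup
  have v1 := (abs_le.1 (hg j hjM)).1
  have v2 := hf _ y hjlow
  have u3 : ((X * j' / M : ℕ) : ℝ) * s ≤ ((y : ℝ) + (X / M + 1)) * s := mul_le_mul_of_nonneg_right hdu hs
  have v3 : ((y : ℝ) - (X / M + 1)) * s ≤ ((X * j / M : ℕ) : ℝ) * s := mul_le_mul_of_nonneg_right hdl hs
  rw [abs_le]
  constructor <;> linarith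

/-- from weights to counts -/
theorem count_abs {K : ℕ} (X : ℕ) (hX : 1 ≤ X) (a : Fin K → ℕ) (haX : ∀ i, a i ≤ X) (l S e1 : ℝ) (hl : 1 ≤ l)
    (hlL : 2 * (K * l) ≤ Real.log X) (hlL2 : l ≤ Real.log X) (hKL : (K : ℝ) ≤ Real.log X) (hS : 0 < S) (he1 : 0 ≤ e1)
    (hsm : Real.log X ^ K * Real.exp (-l) ≤ S * e1) (y : ℕ) (hy : y ≤ X) (hw : |wcnt a y - S * y| ≤ S * (X * e1)) :
    |(cnt a y : ℝ) * Real.log X ^ K - S * y| ≤ S * (y * (3 * (K * l) / Real.log X) + X * (4 * e1)) := by
  have hXr : (1 : ℝ) ≤ X := by exact_mod_cast hX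
  have hX0 : (0 : ℝ) < X := by linarith
  have hl0 : 0 < l := by linarith
  set L : ℝ := Real.log X with hL
  have hL0 : 0 < L := by linarith
  have hK0 : (0 : ℝ) ≤ K := by positivity
  obtain ⟨u1, u2⟩ := unweight a X hX haX l hl0.le hlL2 y hy
  set c : ℝ := (cnt a y : ℝ) with hc
  have hc0 : 0 ≤ c := by positivity
  set P : ℝ := wcnt a y with hP
  have hP0 : 0 ≤ P := sum_nonneg fun n _ => prod_nonneg fun i _ => Fp_nonneg _
  set x : ℝ := K * l / L with hx
  have hx0 : 0 ≤ x := by positivity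
  have hxh : x ≤ 1 / 2 := by
    rw [hx, div_le_iff₀ hL0]
    linarith
  have hup : L ^ K ≤ (1 + 2 * x) * (L - l) ^ K := by
    have h3 : (L - l) ^ K = L ^ K * (1 - l / L) ^ K := by
      rw [← mul_pow]
      congr 1
      field_simp
    have h4 : 1 - x ≤ (1 - l / L) ^ K := by
      have h5 : -2 ≤ -(l / L) := by
        have : l / L ≤ 1 := by rw [div_le_one hL0]; exact hlL2
        linarith
      have h6 := one_add_mul_le_pow h5 K
      have e1 : 1 + (K : ℝ) * -(l / L) = 1 - x := by rw [hx]; ring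
      have e2 : 1 + -(l / L) = 1 - l / L := by ring
      rwa [e1, e2] at h6
    rw [h3]
    have h5 : 1 ≤ (1 + 2 * x) * (1 - x) := by nlinarith
    have hLK : 0 ≤ L ^ K := by positivity
    calc L ^ K = L ^ K * 1 := (mul_one _).symm
      _ ≤ L ^ K * ((1 + 2 * x) * (1 - x)) := by gcongr
      _ ≤ L ^ K * ((1 + 2 * x) * (1 - l / L) ^ K) := by gcongr
      _ = _ := by ring
  have hlow : (1 - K / L) * (L + 1) ^ K ≤ L ^ K := by
    have h3 : L ^ K = (L + 1) ^ K * (1 - 1 / (L + 1)) ^ K := by
      rw [← mul_pow]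
      congr 1
      have : L + 1 ≠ 0 := by linarith
      field_simp
      ring
    have h4 : 1 - (K : ℝ) / L ≤ (1 - 1 / (L + 1)) ^ K := by
      have h5 : -2 ≤ -(1 / (L + 1)) := by
        have : 1 / (L + 1) ≤ 1 := by rw [div_le_one (by linarith)]; linarith
        linarith
      have h6 := one_add_mul_le_pow h5 K
      have e1 : 1 + (K : ℝ) * -(1 / (L + 1)) = 1 - K / (L + 1) := by ring
      have e2 : 1 + -(1 / (L + 1)) = 1 - 1 / (L + 1) := by ring
      rw [e1, e2] at h6
      have h7 : (K : ℝ) / (L + 1) ≤ K / L := by gcongr; linarith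
      linarith
    rw [h3, mul_comm]
    apply mul_le_mul_of_nonneg_left h4
    positivity
  have hw1 := (abs_le.1 hw).1
  have hw2 := (abs_le.1 hw).2
  have hLK : L ^ K * (X * Real.exp (-l)) ≤ S * (X * e1) := by
    calc L ^ K * (X * Real.exp (-l)) = X * (L ^ K * Real.exp (-l)) := by ring
      _ ≤ X * (S * e1) := by gcongr
      _ = _ := by ring
  have hy0 : (0 : ℝ) ≤ y := by positivity
  have hKL1 : (K : ℝ) / L ≤ 1 := by rw [div_le_one hL0]; exact hKL
  have hKx : (K : ℝ) / L ≤ 3 * (K * l) / L := by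
    gcongr
    nlinarith
  have hx3 : 2 * x ≤ 3 * (K * l) / L := by
    have e : 3 * ((K : ℝ) * l) / L = 3 * x := by rw [hx]; ring
    rw [e]
    linarith
  have hSX : 0 ≤ S * (X * e1) := by positivity
  have h10 : S * (y * (3 * (K * l) / L) + X * (4 * e1)) = S * (y * (3 * (K * l) / L)) + 4 * (S * (X * e1)) := by ring
  rw [abs_le]
  constructor
  · have h3 : (1 - K / L) * P ≤ c * L ^ K := by
      have h4 : 0 ≤ 1 - (K : ℝ) / L := by linarith
      calc (1 - K / L) * P ≤ (1 - K / L) * ((L + 1) ^ K * c) := by gcongr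
        _ = ((1 - K / L) * (L + 1) ^ K) * c := by ring
        _ ≤ L ^ K * c := by gcongr
        _ = _ := mul_comm _ _
    have h4 : S * y * (K / L) ≤ S * (y * (3 * (K * l) / L)) := by
      rw [mul_assoc]
      gcongr
    have h5 : 0 ≤ (K : ℝ) / L := by positivity
    have h7 : (1 - K / L) * (S * y - S * (X * e1)) ≤ (1 - K / L) * P := by
      apply mul_le_mul_of_nonneg_left _ _
      · linarith
      · linarith
    have h8 : (1 - K / L) * (S * y - S * (X * e1)) = S * y - S * y * (K / L) - S * (X * e1) + K / L * (S * (X * e1)) := by ring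
    have h9 : 0 ≤ K / L * (S * (X * e1)) := by positivity
    rw [h10]
    linarith
  · have h3 : c * L ^ K ≤ (1 + 2 * x) * (P + L ^ K * (X * Real.exp (-l))) := by
      calc c * L ^ K ≤ c * ((1 + 2 * x) * (L - l) ^ K) := by gcongr
        _ = (1 + 2 * x) * ((L - l) ^ K * c) := by ring
        _ ≤ _ := by gcongr
    have h4 : (1 + 2 * x) * (P + L ^ K * (X * Real.exp (-l))) ≤ (1 + 2 * x) * (S * y + 2 * (S * (X * e1))) := by
      apply mul_le_mul_of_nonneg_left _ (by positivity)
      linarith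
    have h5 : (1 + 2 * x) * (S * y + 2 * (S * (X * e1))) = S * y + S * y * (2 * x) + (1 + 2 * x) * (2 * (S * (X * e1))) := by ring
    have h6 : S * y * (2 * x) ≤ S * (y * (3 * (K * l) / L)) := by
      rw [mul_assoc]
      gcongr
    have h7 : (1 + 2 * x) * (2 * (S * (X * e1))) ≤ 2 * (2 * (S * (X * e1))) := by
      apply mul_le_mul_of_nonneg_right _ (by positivity)
      linarith
    rw [h10]
    linarith

/-- tuples with equal entries are rare -/
theorem card_noninj' (k X : ℕ) :
    (((Fintype.piFinset (fun _ : Fin k => range X)).filter (fun m => ¬ Function.Injective m)).card : ℝ) * X ≤ (k : ℝ) ^ 2 * (X : ℝ) ^ k := by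
  classical
  have h1 : (Fintype.piFinset (fun _ : Fin k => range X)).filter (fun m => ¬ Function.Injective m) ⊆
      (univ : Finset (Fin k × Fin k)).biUnion (fun x => if x.1 = x.2 then ∅ else
        (Fintype.piFinset (fun _ : Fin k => range X)).filter (fun m => m x.1 = m x.2)) := by
    intro m hm
    rw [mem_filter] at hm
    obtain ⟨hm1, hm2⟩ := hm
    unfold Function.Injective at hm2
    push Not at hm2
    obtain ⟨i, j, hij, hne⟩ := hm2
    rw [mem_biUnion]
    refine ⟨(i, j), mem_univ _, ?_⟩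
    rw [if_neg (by simpa using hne), mem_filter]
    exact ⟨hm1, hij⟩
  have h2 : ∀ x ∈ (univ : Finset (Fin k × Fin k)), (((if x.1 = x.2 then ∅ else
        (Fintype.piFinset (fun _ : Fin k => range X)).filter (fun m => m x.1 = m x.2)) : Finset (Fin k → ℕ)).card : ℝ) * X ≤ (X : ℝ) ^ k := by
    rintro ⟨i, j⟩ _
    simp only
    split_ifs with hij
    · simp
    · have h3 : (((Fintype.piFinset (fun _ : Fin k => range X)).filter (fun m => m i = m j)) ×ˢ (range X)).card ≤
          (Fintype.piFinset (fun _ : Fin k => range X)).card := by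
        apply card_le_card_of_injOn (fun x : (Fin k → ℕ) × ℕ => Function.update x.1 j x.2)
        · rintro ⟨m, t⟩ hx
          rw [Finset.mem_coe, mem_product, mem_filter] at hx
          rw [Finset.mem_coe, Fintype.mem_piFinset]
          intro i'
          by_cases h4 : i' = j
          · subst h4
            simp only [Function.update_self]
            exact hx.2
          · simp only [Function.update_of_ne h4]
            exact (Fintype.mem_piFinset.1 hx.1.1) i'
        · rintro ⟨m, t⟩ hx ⟨m', t'⟩ hx' h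
          rw [Finset.mem_coe, mem_product, mem_filter] at hx hx'
          simp only at h hx hx'
          have ht : t = t' := by
            have := congrFun h j
            simpa using this
          have hm : ∀ i', i' ≠ j → m i' = m' i' := by
            intro i' hi'
            have := congrFun h i'
            simpa [Function.update_of_ne hi'] using this
          have hmm : m = m' := by
            funext i'
            by_cases h4 : i' = j
            · rw [h4, ← hx.1.2, ← hx'.1.2]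
              exact hm i hij
            · exact hm i' h4
          rw [ht, hmm]
      rw [card_product, card_range, Fintype.card_piFinset] at h3
      have h4 : ((((Fintype.piFinset (fun _ : Fin k => range X)).filter (fun m => m i = m j)).card * X : ℕ) : ℝ) ≤ ((∏ _i : Fin k, (range X).card : ℕ) : ℝ) := by
        exact_mod_cast h3
      push_cast at h4
      simpa using h4
  have h3 : (((Fintype.piFinset (fun _ : Fin k => range X)).filter (fun m => ¬ Function.Injective m)).card : ℝ) ≤
      ∑ x : Fin k × Fin k, (((if x.1 = x.2 then ∅ else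
        (Fintype.piFinset (fun _ : Fin k => range X)).filter (fun m => m x.1 = m x.2)) : Finset (Fin k → ℕ)).card : ℝ) := by
    exact_mod_cast (card_le_card h1).trans card_biUnion_le
  have hX0 : (0 : ℝ) ≤ X := by positivity
  calc _ ≤ (∑ x : Fin k × Fin k, (((if x.1 = x.2 then ∅ else
        (Fintype.piFinset (fun _ : Fin k => range X)).filter (fun m => m x.1 = m x.2)) : Finset (Fin k → ℕ)).card : ℝ)) * X := by
        gcongr
    _ = ∑ x : Fin k × Fin k, (((if x.1 = x.2 then ∅ else
        (Fintype.piFinset (fun _ : Fin k => range X)).filter (fun m => m x.1 = m x.2)) : Finset (Fin k → ℕ)).card : ℝ) * X := sum_mul _ _ _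
    _ ≤ ∑ _x : Fin k × Fin k, (X : ℝ) ^ k := sum_le_sum h2
    _ = (k : ℝ) ^ 2 * (X : ℝ) ^ k := by
        rw [sum_const, card_univ, Fintype.card_prod, Fintype.card_fin, nsmul_eq_mul]
        push_cast
        ring

/-- removing the truncations -/
theorem trunc_diff {K : ℕ} (X z : ℕ) (L : ℝ) (hL : Real.log X = L) (hX : 1 ≤ X) (hL1 : 1 ≤ L) (hV : (Vz z)⁻¹ ≤ L) (a : Fin K → ℕ)
    (haX : ∀ i, a i < X) (y : ℕ) (hy : y ≤ X) :
    |∑ n ∈ Icc 1 y, (∏ i, Fp (n + a i) - ∏ i, lamz z (n + a i)) -
      ∑ n ∈ range X, (if 1 ≤ n ∧ n ≤ y then (1 : ℝ) else 0) * (∏ i, fp z (n + a i) - ∏ i, gp z (n + a i))| ≤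
      ((z : ℝ) + 1) * (2 * (2 * L) ^ K) := by
  have hX0 : (0 : ℝ) < X := by exact_mod_cast hX
  have hV0 : 0 ≤ (Vz z)⁻¹ := inv_nonneg.2 (Vz_pos z).le
  have hlam : ∀ n, 0 ≤ lamz z n ∧ lamz z n ≤ 2 * L := by
    intro n
    unfold lamz
    split_ifs
    · exact ⟨hV0, by linarith⟩
    · exact ⟨le_rfl, by linarith⟩
  have hlog : ∀ n : ℕ, 1 ≤ n → n ≤ 2 * X → Real.log n ≤ 2 * L := by
    intro n hn1 hn2
    have h1 : Real.log n ≤ Real.log ((2 * X : ℕ) : ℝ) := Real.log_le_log (by exact_mod_cast hn1) (by exact_mod_cast hn2)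
    have h2 : Real.log ((2 * X : ℕ) : ℝ) = Real.log 2 + L := by
      push_cast
      rw [Real.log_mul (by norm_num) hX0.ne', hL]
    have h3 := Real.log_two_lt_d9
    linarith
  have hFp : ∀ n : ℕ, n ≤ 2 * X → 0 ≤ Fp n ∧ Fp n ≤ 2 * L := by
    intro n hn
    refine ⟨Fp_nonneg n, ?_⟩
    unfold Fp
    split_ifs with h
    · exact hlog n h.one_lt.le hn
    · linarith
  have hfp : ∀ n : ℕ, n ≤ 2 * X → 0 ≤ fp z n ∧ fp z n ≤ 2 * L := by
    intro n hn
    refine ⟨fp_nonneg z n, ?_⟩
    unfold fp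
    split_ifs with h
    · exact hlog n h.1.one_lt.le hn
    · linarith
  have hgp : ∀ n : ℕ, 0 ≤ gp z n ∧ gp z n ≤ 2 * L := by
    intro n
    unfold gp
    split_ifs
    · exact hlam n
    · exact ⟨le_rfl, by linarith⟩
  have hprod : ∀ F : ℕ → ℝ, (∀ n : ℕ, n ≤ 2 * X → 0 ≤ F n ∧ F n ≤ 2 * L) → ∀ n, n ≤ X → 0 ≤ ∏ i, F (n + a i) ∧ ∏ i, F (n + a i) ≤ (2 * L) ^ K := by
    intro F hF n hn
    have h1 : ∀ i, n + a i ≤ 2 * X := fun i => by
      have := haX i
      omega
    refine ⟨prod_nonneg fun i _ => (hF _ (h1 i)).1, ?_⟩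
    calc ∏ i, F (n + a i) ≤ ∏ _i : Fin K, (2 * L) := prod_le_prod (fun i _ => (hF _ (h1 i)).1) fun i _ => (hF _ (h1 i)).2
      _ = (2 * L) ^ K := by rw [prod_const, card_univ, Fintype.card_fin]
  have hrange : ∑ n ∈ range X, (if 1 ≤ n ∧ n ≤ y then (1 : ℝ) else 0) * (∏ i, fp z (n + a i) - ∏ i, gp z (n + a i)) =
      ∑ n ∈ Icc 1 y, (if n < X then (∏ i, fp z (n + a i) - ∏ i, gp z (n + a i)) else 0) := by
    rw [← sum_filter]
    have h1 : ∀ n ∈ range X, (if 1 ≤ n ∧ n ≤ y then (1 : ℝ) else 0) * (∏ i, fp z (n + a i) - ∏ i, gp z (n + a i)) =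
        if 1 ≤ n ∧ n ≤ y then (∏ i, fp z (n + a i) - ∏ i, gp z (n + a i)) else 0 := by
      intro n _
      split_ifs <;> simp
    rw [sum_congr rfl h1, ← sum_filter]
    apply sum_congr _ fun _ _ => rfl
    ext n
    rw [mem_filter, mem_filter, mem_range, mem_Icc]
    tauto
  rw [hrange, ← sum_sub_distrib]
  refine (abs_sum_le_sum_abs _ _).trans ?_
  have hterm : ∀ n ∈ Icc 1 y, |∏ i, Fp (n + a i) - ∏ i, lamz z (n + a i) - (if n < X then (∏ i, fp z (n + a i) - ∏ i, gp z (n + a i)) else 0)| ≤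
      if (n ≤ z ∨ n = X) then 2 * (2 * L) ^ K else 0 := by
    intro n hn
    rw [mem_Icc] at hn
    have hnX : n ≤ X := hn.2.trans hy
    obtain ⟨p1, p2⟩ := hprod Fp hFp n hnX
    obtain ⟨p3, p4⟩ := hprod (lamz z) (fun n _ => hlam n) n hnX
    obtain ⟨p5, p6⟩ := hprod (fp z) hfp n hnX
    obtain ⟨p7, p8⟩ := hprod (gp z) (fun n _ => hgp n) n hnX
    split_ifs with h1 h2 h2
    · rw [abs_le]
      constructor <;> linarith
    · push Not at h2
      have e1 : ∀ i, Fp (n + a i) = fp z (n + a i) := by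
        intro i
        unfold Fp fp
        have : ((n + a i).Prime ∧ z < n + a i) ↔ (n + a i).Prime := ⟨fun h => h.1, fun h => ⟨h, by omega⟩⟩
        simp only [this]
      have e2 : ∀ i, lamz z (n + a i) = gp z (n + a i) := by
        intro i
        unfold gp
        rw [if_pos (by omega)]
      rw [prod_congr rfl fun i _ => e1 i, prod_congr rfl fun i _ => e2 i, sub_self, abs_zero]
    · rw [abs_le]
      constructor <;> linarith
    · exfalso
      push Not at h2
      omega
  refine (sum_le_sum hterm).trans ?_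
  rw [← sum_filter, sum_const, nsmul_eq_mul]
  apply mul_le_mul_of_nonneg_right _ (by positivity)
  have h1 : ((Icc 1 y).filter (fun n => n ≤ z ∨ n = X)) ⊆ Icc 1 z ∪ {X} := by
    intro n hn
    rw [mem_filter, mem_Icc] at hn
    rw [mem_union, mem_Icc, mem_singleton]
    rcases hn.2 with h | h
    · exact Or.inl ⟨hn.1.1, h⟩
    · exact Or.inr h
  have h2 := (card_le_card h1).trans (card_union_le _ _)
  rw [Nat.card_Icc, card_singleton] at h2
  have h3 : (((Icc 1 y).filter (fun n => n ≤ z ∨ n = X)).card : ℝ) ≤ ((z + 1 : ℕ) : ℝ) := by exact_mod_cast (by omega)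
  push_cast at h3
  exact h3

end

end Run7.h402.PX
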