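import Mathlib
import Pool.Agent.Run7.h402.PX.X11

/-!
# Almost all tuples with at most `B log log X` elements
-/

set_option autoImplicit false

open Finset
open Filter (Tendsto atTop)
open scoped Topology Classical

namespace Run7.h402.PX

open Run7.h402.PT Run7.h402.PV Run7.h402.PW
open Pool.Agent.H373R2.T7
open Pool.Agent.N475.SP (dom)

noncomputable section

/-- what is shown for almost all tuples -/
def FineL (A X : ℕ) {K : ℕ} (a : Fin K → ℕ) : Prop :=
  Function.Injective a ∧ (Adm a → ∀ S : ℝ, Tendsto (Sz a) atTop (𝓝 S) → 0 < S ∧ ∀ y : ℕ, y ≤ X →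
    |wcnt a y - S * y| ≤ S * (X / Real.log X ^ A) ∧
    |(cnt a y : ℝ) * Real.log X ^ K - S * y| ≤ S * (y * Real.log X ^ (-(9 / 10) : ℝ) + X / Real.log X ^ A))

/-- small terms -/
theorem small_term {B E A : ℕ} {L : ℝ} (bg : Big B E A L) (hE : 1 ≤ E) (K : ℕ) (hKB : (K : ℝ) ≤ B * Real.log L) :
    (((zL E L : ℕ) : ℝ) + 1) * (2 * (2 * L) ^ K) ≤ Real.exp L / L ^ A := by
  obtain ⟨hL0, hLe, hs1, hss, hsL, f1, f2, f3, f4, f5, f6⟩ := big_facts bg
  have h1 := bg.b1
  have h0 := bg.b0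
  obtain ⟨hz1, hz2, hz3⟩ := zL_bounds bg hE
  set z := zL E L with hz
  set ℓ := Real.log L with hℓ
  have hpow : ∀ n : ℕ, L ^ n = Real.exp (n * ℓ) := by
    intro n
    rw [Real.exp_nat_mul, hLe]
  rw [le_div_iff₀ (by positivity)]
  have h2L : 2 * L ≤ Real.exp (ℓ + 1) := by
    rw [Real.exp_add, hLe]
    have := Real.exp_one_gt_d9
    nlinarith
  have hK : (2 * L) ^ K ≤ Real.exp (B * ℓ ^ 2 + B * ℓ) := by
    calc (2 * L) ^ K ≤ (Real.exp (ℓ + 1)) ^ K := by gcongr
      _ = Real.exp (K * (ℓ + 1)) := (Real.exp_nat_mul _ _).symm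
      _ ≤ Real.exp (B * ℓ ^ 2 + B * ℓ) := by
          apply Real.exp_le_exp.2
          nlinarith
  have h4 : 1 ≤ L ^ E := one_le_pow₀ (by linarith)
  have hz5 : ((z : ℝ) + 1) * 2 ≤ Real.exp (E * ℓ + ℓ) := by
    rw [Real.exp_add, hLe, ← hpow E]
    nlinarith
  calc ((z : ℝ) + 1) * (2 * (2 * L) ^ K) * L ^ A = (((z : ℝ) + 1) * 2) * ((2 * L) ^ K * L ^ A) := by ring
    _ ≤ Real.exp (E * ℓ + ℓ) * (Real.exp (B * ℓ ^ 2 + B * ℓ) * Real.exp (A * ℓ)) := by
        rw [hpow A]
        gcongr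
    _ = Real.exp (E * ℓ + ℓ + (B * ℓ ^ 2 + B * ℓ + A * ℓ)) := by rw [← Real.exp_add, ← Real.exp_add]
    _ ≤ Real.exp L := by
        apply Real.exp_le_exp.2
        linarith

/-- the formulas for one tuple from the grid -/
theorem fine_of {B E A : ℕ} {L : ℝ} (A3 : ℕ) (hA3 : A3 = 5 * B + A + 6) (bg : Big B E A3 L) (hE : A3 + 8 ≤ E) {K : ℕ} (hK : 1 ≤ K)
    (hKB : (K : ℝ) ≤ B * Real.log L) (X M : ℕ) (hX : Real.exp L = X) (hM : L ^ (A + 3) ≤ M) (hV : (Vz (zL E L))⁻¹ ≤ L)
    (a : Fin K → ℕ) (haX : ∀ i, a i ≤ X) (hinj : Function.Injective a)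
    (hgrid : ∀ j : ℕ, j ≤ M → |∑ n ∈ Icc 1 (X * j / M), (∏ i, Fp (n + a i) - ∏ i, lamz (zL E L) (n + a i))| ≤ X / L ^ A3) :
    FineL A X a := by
  obtain ⟨hL0, hLe, hs1, hss, hsL, f1, f2, f3, f4, f5, f6⟩ := big_facts bg
  have h1 := bg.b1
  have h0 := bg.b0
  have h3b := bg.b3
  have h4b := bg.b4
  have hX0 : (0 : ℝ) < X := by rw [← hX]; exact Real.exp_pos _
  have hXn : 1 ≤ X := by exact_mod_cast hX0
  have hlogX : Real.log X = L := by rw [← hX, Real.log_exp]
  set ℓ := Real.log L with hℓ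
  have hpow : ∀ n : ℕ, L ^ n = Real.exp (n * ℓ) := by
    intro n
    rw [Real.exp_nat_mul, hLe]
  have hKr : (1 : ℝ) ≤ K := by exact_mod_cast hK
  refine ⟨hinj, fun hadm S hS => ?_⟩
  have hlow := Sz_low hK a hadm (zL E L)
  have hSs := S_par bg hE hK hKB X hX a haX hinj S hS
  have hmod := fun y hy => model_par bg (by omega : 1 ≤ E) hK hKB X hX hV a y hy
  set s := Sz a (zL E L) with hs
  have hs0 : 0 < s := (Real.exp_pos _).trans_le hlow
  have hLA : ∀ n : ℕ, 1 ≤ L ^ n := fun n => one_le_pow₀ (by linarith)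
  have hsS : s ≤ 2 * S := by
    have h3 := (abs_le.1 hSs).1
    have h4 : s / L ^ (A3 + 2) ≤ s / 2 := by
      apply div_le_div_of_nonneg_left hs0.le (by norm_num)
      calc (2 : ℝ) ≤ L := by linarith
        _ = L ^ 1 := (pow_one L).symm
        _ ≤ L ^ (A3 + 2) := pow_le_pow_right₀ (by linarith) (by omega)
    linarith
  have hS0 : 0 < S := by linarith
  refine ⟨hS0, fun y hy => ?_⟩
  have hMr : (1 : ℝ) ≤ M := (hLA _).trans hM
  have hM1 : 1 ≤ M := by exact_mod_cast hMr
  -- the lower bound for s as a power of L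
  have hsl : 1 / L ^ (5 * B) ≤ s := by
    refine le_trans ?_ hlow
    rw [hpow, one_div, ← Real.exp_neg]
    apply Real.exp_le_exp.2
    push_cast
    linarith
  have hg : ∀ j : ℕ, j ≤ M → |wcnt a (X * j / M) - ((X * j / M : ℕ) : ℝ) * s| ≤ X / L ^ A3 + X / L ^ A3 := by
    intro j hj
    have g1 := hgrid j hj
    have hle : X * j / M ≤ X := by
      apply Nat.div_le_of_le_mul
      rw [mul_comm M X]
      exact Nat.mul_le_mul_left X hj
    have g2 := hmod (X * j / M) hle
    have e : wcnt a (X * j / M) - ((X * j / M : ℕ) : ℝ) * s =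
        ∑ n ∈ Icc 1 (X * j / M), (∏ i, Fp (n + a i) - ∏ i, lamz (zL E L) (n + a i)) +
        (∑ n ∈ Icc 1 (X * j / M), ∏ i, lamz (zL E L) (n + a i) - ((X * j / M : ℕ) : ℝ) * s) := by
      rw [sum_sub_distrib]
      unfold wcnt
      ring
    rw [e]
    exact (abs_add_le _ _).trans (add_le_add g1 g2)
  have hw := grid_lemma (wcnt a) (fun x y h => wcnt_mono a x y h) s hs0.le X M hXn hM1 _ hg y hy
  have hXs : X / L ^ A3 ≤ s * (X / L ^ (A + 6)) := by
    have e : L ^ A3 = L ^ (5 * B) * L ^ (A + 6) := by rw [hA3, ← pow_add]; congr 1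
    rw [e]
    calc (X : ℝ) / (L ^ (5 * B) * L ^ (A + 6)) = 1 / L ^ (5 * B) * (X / L ^ (A + 6)) := by field_simp
      _ ≤ s * (X / L ^ (A + 6)) := by gcongr
  have hXM : (X : ℝ) / M ≤ X / L ^ (A + 3) := by gcongr
  have hX1 : (1 : ℝ) ≤ X / L ^ (A + 3) := by
    rw [le_div_iff₀ (by positivity), one_mul, ← hX, hpow]
    apply Real.exp_le_exp.2
    have h5 : ((A + 3 : ℕ) : ℝ) ≤ A3 := by exact_mod_cast (by omega : A + 3 ≤ A3)
    have h6 : ((A + 3 : ℕ) : ℝ) * ℓ ≤ A3 * ℓ := by gcongr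
    linarith
  have hA36 : (X : ℝ) / L ^ (A + 6) ≤ X / L ^ (A + 3) := by
    apply div_le_div_of_nonneg_left hX0.le (by positivity)
    exact pow_le_pow_right₀ (by linarith) (by omega)
  have hw2 : |wcnt a y - y * s| ≤ s * (4 * (X / L ^ (A + 3))) := by
    refine hw.trans ?_
    have h5 : X / L ^ A3 ≤ s * (X / L ^ (A + 3)) := hXs.trans (by gcongr)
    have h6 : s * ((X : ℝ) / M + 1) ≤ s * (2 * (X / L ^ (A + 3))) := by
      gcongr
      linarith
    linarith
  have hSs2 : |S - s| ≤ s / L ^ (A + 3) := by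
    refine hSs.trans ?_
    apply div_le_div_of_nonneg_left hs0.le (by positivity)
    exact pow_le_pow_right₀ (by linarith) (by omega)
  have hwS : |wcnt a y - S * y| ≤ S * (X * (1 / L ^ (A + 2))) := by
    have e : wcnt a y - S * y = (wcnt a y - y * s) + y * (s - S) := by ring
    rw [e]
    have hyX : (y : ℝ) ≤ X := by exact_mod_cast hy
    have h5 : |(y : ℝ) * (s - S)| ≤ X * (s / L ^ (A + 3)) := by
      rw [abs_mul, abs_of_nonneg (by positivity : (0 : ℝ) ≤ y), abs_sub_comm]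
      gcongr
    refine (abs_add_le _ _).trans ((add_le_add hw2 h5).trans ?_)
    have h6 : s * (4 * (X / L ^ (A + 3))) + X * (s / L ^ (A + 3)) = s * (X * (5 / L ^ (A + 3))) := by ring
    rw [h6]
    calc s * (X * (5 / L ^ (A + 3))) ≤ (2 * S) * (X * (5 / L ^ (A + 3))) := by gcongr
      _ = S * (X * (10 / L ^ (A + 3))) := by ring
      _ ≤ S * (X * (1 / L ^ (A + 2))) := by
          apply mul_le_mul_of_nonneg_left _ hS0.le
          apply mul_le_mul_of_nonneg_left _ hX0.le
          rw [div_le_div_iff₀ (by positivity) (by positivity), one_mul]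
          have e2 : L ^ (A + 3) = L ^ (A + 2) * L := by ring
          rw [e2]
          have : 0 < L ^ (A + 2) := by positivity
          nlinarith
  constructor
  · rw [hlogX]
    refine hwS.trans ?_
    have h5 : (1 : ℝ) / L ^ (A + 2) ≤ 1 / L ^ A := by
      apply one_div_le_one_div_of_le (by positivity)
      exact pow_le_pow_right₀ (by linarith) (by omega)
    calc S * (X * (1 / L ^ (A + 2))) ≤ S * (X * (1 / L ^ A)) := by gcongr
      _ = S * (X / L ^ A) := by ring
  · have hKl : (K : ℝ) * ℓ ^ 3 ≤ B * ℓ ^ 4 := by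
      calc (K : ℝ) * ℓ ^ 3 ≤ (B * ℓ) * ℓ ^ 3 := by gcongr
        _ = B * ℓ ^ 4 := by ring
    have hBl : 6 * ((B : ℝ) * ℓ ^ 4) ≤ Real.exp (ℓ / 10) := by
      have : (0 : ℝ) ≤ ℓ ^ 4 := by positivity
      nlinarith
    have hl4 : 6 * ℓ ^ 4 ≤ Real.exp (ℓ / 10) := by
      have : (0 : ℝ) ≤ B * ℓ ^ 4 := by positivity
      nlinarith
    have he10 : Real.exp (ℓ / 10) ≤ L := by
      rw [← hLe]
      apply Real.exp_le_exp.2
      linarith
    have hℓ34 : ℓ ^ 3 ≤ ℓ ^ 4 := pow_le_pow_right₀ (by linarith) (by norm_num)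
    have hcount := count_abs X hXn a haX (ℓ ^ 3) S (1 / L ^ (A + 2)) (one_le_pow₀ (by linarith)) (by
        rw [hlogX]
        linarith) (by
        rw [hlogX]
        have : (0 : ℝ) ≤ ℓ ^ 4 := by positivity
        linarith) (by rw [hlogX]; linarith) hS0 (by positivity) (by
        rw [hlogX]
        have h5 : Real.exp (-(5 * (K : ℝ))) / 2 ≤ S := by linarith
        calc L ^ K * Real.exp (-(ℓ ^ 3)) = Real.exp (K * ℓ + -(ℓ ^ 3)) := by rw [hpow K, Real.exp_add]
          _ ≤ Real.exp (-(5 * (K : ℝ)) + -1 + -(((A + 2 : ℕ) : ℝ) * ℓ)) := by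
              apply Real.exp_le_exp.2
              push_cast
              have h6 : (K : ℝ) * ℓ ≤ B * ℓ ^ 2 := by nlinarith
              have h7 : 5 * (K : ℝ) ≤ 5 * (B * ℓ ^ 2) := by nlinarith
              have h8 : (6 * (B : ℝ) + A3 + 3) * ℓ ^ 2 ≤ ℓ ^ 3 := by
                have : ℓ ^ 3 = ℓ * ℓ ^ 2 := by ring
                rw [this]
                gcongr
              have h9 : (A : ℝ) + 6 ≤ A3 := by
                have : A + 6 ≤ A3 := by omega
                exact_mod_cast this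
              have h10 : ((A : ℝ) + 2) * ℓ + 1 ≤ (A3 + 3) * ℓ ^ 2 := by
                have h11 : (0 : ℝ) ≤ A := by positivity
                have h12 : ℓ ≤ ℓ ^ 2 := by nlinarith
                have h13 : ((A : ℝ) + 2) * ℓ ≤ (A + 2) * ℓ ^ 2 := by gcongr
                have h14 : ((A : ℝ) + 3) * ℓ ^ 2 ≤ (A3 + 3) * ℓ ^ 2 := by
                  gcongr
                  linarith
                have h15 : (1 : ℝ) ≤ ℓ ^ 2 := by linarith
                linarith
              linarith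
          _ = Real.exp (-(5 * (K : ℝ))) * Real.exp (-1) * (1 / L ^ (A + 2)) := by
              rw [Real.exp_add, Real.exp_add, Real.exp_neg (((A + 2 : ℕ) : ℝ) * ℓ), ← hpow, one_div]
          _ ≤ S * (1 / L ^ (A + 2)) := by
              apply mul_le_mul_of_nonneg_right _ (by positivity)
              have h6 : Real.exp (-1) ≤ 1 / 2 := by
                rw [Real.exp_neg, ← one_div]
                apply one_div_le_one_div_of_le (by norm_num)
                have := Real.exp_one_gt_d9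
                linarith
              have h7 := Real.exp_pos (-(5 * (K : ℝ)))
              nlinarith) y hy hwS
    rw [hlogX] at hcount
    rw [hlogX]
    refine hcount.trans ?_
    apply mul_le_mul_of_nonneg_left _ hS0.le
    apply add_le_add
    · apply mul_le_mul_of_nonneg_left _ (by positivity)
      have e3 : L ^ (-(9 / 10) : ℝ) = Real.exp (ℓ / 10) / L := by
        have e6 : Real.exp (ℓ / 10) / L = Real.exp (ℓ / 10) / Real.exp ℓ := by rw [hLe]
        rw [e6, Real.rpow_def_of_pos hL0, ← hℓ, ← Real.exp_sub]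
        congr 1
        ring
      rw [e3]
      apply div_le_div_of_nonneg_right _ hL0.le
      have h6 := Real.exp_pos (ℓ / 10)
      linarith
    · have e4 : (X : ℝ) * (4 * (1 / L ^ (A + 2))) = X * (4 / L ^ (A + 2)) := by ring
      rw [e4, div_eq_mul_one_div (X : ℝ)]
      apply mul_le_mul_of_nonneg_left _ hX0.le
      rw [div_le_div_iff₀ (by positivity) (by positivity), one_mul]
      have e5 : L ^ (A + 2) = L ^ A * L ^ 2 := by ring
      rw [e5]
      have h6 : 0 < L ^ A := by positivity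
      have h7 : 4 ≤ L ^ 2 := by
        calc (4 : ℝ) ≤ L * 1 := by linarith
          _ ≤ L * L := by gcongr; linarith
          _ = L ^ 2 := by ring
      calc 4 * L ^ A ≤ L ^ 2 * L ^ A := by gcongr
        _ = L ^ A * L ^ 2 := mul_comm _ _

/-- almost all tuples -/
theorem almost_uniform (B A : ℕ) : ∃ X0 : ℕ, ∀ X : ℕ, X0 ≤ X → ∀ K : ℕ, 1 ≤ K → (K : ℝ) ≤ B * Real.log (Real.log X) →
    (((Fintype.piFinset (fun _ : Fin K => range X)).filter (fun a => ¬ FineL A X a)).card : ℝ) ≤ (X : ℝ) ^ K / Real.log X ^ A := by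
  set A3 : ℕ := 5 * B + A + 6 with hA3
  set A1 : ℕ := A + (A + 3) + A3 + 4 with hA1
  obtain ⟨E0, hcore⟩ := core B 1 A1
  set E : ℕ := max E0 (A3 + 8) with hE
  obtain ⟨N1, hc⟩ := hcore E (le_max_left _ _)
  obtain ⟨N2, hVi⟩ := Vz_inv_small E
  obtain ⟨L1, hb1⟩ := big_ev B E A3
  obtain ⟨L2, hb2⟩ := big_ev B E A1
  refine ⟨max (max N1 N2) (max 3 ⌈Real.exp (max L1 L2)⌉₊), fun X hX K hK hKB => ?_⟩
  have hX1 : N1 ≤ X := le_trans (le_trans (le_max_left _ _) (le_max_left _ _)) hX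
  have hX2 : N2 ≤ X := le_trans (le_trans (le_max_right _ _) (le_max_left _ _)) hX
  have hX3 : 3 ≤ X := le_trans (le_trans (le_max_left _ _) (le_max_right _ _)) hX
  have hX0 : (0 : ℝ) < X := by exact_mod_cast (by omega : 0 < X)
  have hXL : Real.exp (max L1 L2) ≤ X := (Nat.le_ceil _).trans (by exact_mod_cast le_trans (le_trans (le_max_right _ _) (le_max_right _ _)) hX)
  have hXn : 1 ≤ X := by omega
  have hcX := hc X hX1 K hK hKB (fun _ => 1) (fun _ => one_ne_zero)
  set L : ℝ := Real.log X with hL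
  have hLL : max L1 L2 ≤ L := by rwa [hL, Real.le_log_iff_exp_le hX0]
  have bg := hb1 L ((le_max_left _ _).trans hLL)
  have bg2 := hb2 L ((le_max_right _ _).trans hLL)
  obtain ⟨hL0, hLe, hs1, hss, hsL, f1, f2, f3, f4, f5, f6⟩ := big_facts bg2
  have h1 := bg.b1
  have hXe : Real.exp L = X := by rw [hL, Real.exp_log hX0]
  have hE1 : 1 ≤ E := le_trans (by omega) (le_max_right E0 (A3 + 8))
  have hEA : A3 + 8 ≤ E := le_max_right _ _
  obtain ⟨hz1, hz2, hz3⟩ := zL_bounds bg hE1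
  have hV : (Vz (zL E L))⁻¹ ≤ L := hVi X hX2 _ hz1 hz2
  have hsm := small_term bg2 hE1 K hKB
  rw [hXe] at hsm
  set z := zL E L with hz
  set M : ℕ := ⌈L ^ (A + 3)⌉₊ with hM
  have hM1 : L ^ (A + 3) ≤ M := Nat.le_ceil _
  have hLA : ∀ n : ℕ, 1 ≤ L ^ n := fun n => one_le_pow₀ (by linarith)
  have hM2 : (M : ℝ) + 1 ≤ 3 * L ^ (A + 3) := by
    have h5 := (Nat.ceil_lt_add_one (show 0 ≤ L ^ (A + 3) by positivity)).le
    have h6 := hLA (A + 3)
    rw [← hM] at h5
    linarith
  set Om := Fintype.piFinset (fun _ : Fin K => range X) with hOm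
  have hOmc : (Om.card : ℝ) = (X : ℝ) ^ K := by
    rw [hOm, Fintype.card_piFinset]
    simp
  set G : (Fin K → ℕ) → ℕ → ℝ := fun m j =>
    |∑ n ∈ Icc 1 (X * j / M), (∏ i, Fp (n + m i) - ∏ i, lamz z (n + m i))| with hG
  have hG0 : ∀ m j, 0 ≤ G m j := fun _ _ => abs_nonneg _
  have hM0 : (0 : ℝ) < M := lt_of_lt_of_le (by positivity) hM1
  have hMn : 0 < M := by exact_mod_cast hM0
  have hsum : ∀ j ∈ range (M + 1), ∑ m ∈ Om, G m j ≤ 2 * ((X : ℝ) ^ (K + 1) / L ^ A1) := by
    intro j hj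
    rw [mem_range] at hj
    have hle : X * j / M ≤ X := by
      apply Nat.div_le_of_le_mul
      rw [mul_comm M X]
      exact Nat.mul_le_mul_left X (by omega)
    set y := X * j / M with hy
    have h2 := hcX (fun _ => by
      simp only [Int.natAbs_one, Nat.cast_one, pow_one]
      linarith) (fun n => if 1 ≤ n ∧ n ≤ y then (1 : ℝ) else 0) (fun n => by split_ifs <;> simp)
    have h3 : ∀ m ∈ Om, G m j ≤ |∑ n ∈ range X, (if 1 ≤ n ∧ n ≤ y then (1 : ℝ) else 0) *
        (∏ i, fp z ((1 * n + (m i : ℕ) : ℤ).toNat) - ∏ i, gp z ((1 * n + (m i : ℕ) : ℤ).toNat))| + X / L ^ A1 := by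
      intro m hm
      have hmX : ∀ i, m i < X := fun i => mem_range.1 (Fintype.mem_piFinset.1 hm i)
      have h4 := trunc_diff X z L hL.symm hXn (by linarith) hV m hmX y hle
      have e1 : ∀ (n : ℕ) (i : Fin K), ((1 * n + (m i : ℕ) : ℤ)).toNat = n + m i := by
        intro n i
        omega
      have e2 : ∑ n ∈ range X, (if 1 ≤ n ∧ n ≤ y then (1 : ℝ) else 0) *
        (∏ i, fp z ((1 * n + (m i : ℕ) : ℤ).toNat) - ∏ i, gp z ((1 * n + (m i : ℕ) : ℤ).toNat)) =
        ∑ n ∈ range X, (if 1 ≤ n ∧ n ≤ y then (1 : ℝ) else 0) * (∏ i, fp z (n + m i) - ∏ i, gp z (n + m i)) := by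
        apply sum_congr rfl
        intro n _
        have u1 : ∏ i, fp z ((1 * n + (m i : ℕ) : ℤ).toNat) = ∏ i, fp z (n + m i) := prod_congr rfl fun i _ => by rw [e1 n i]
        have u2 : ∏ i, gp z ((1 * n + (m i : ℕ) : ℤ).toNat) = ∏ i, gp z (n + m i) := prod_congr rfl fun i _ => by rw [e1 n i]
        rw [u1, u2]
      rw [e2]
      rw [hG]
      simp only
      have h5 := abs_sub_abs_le_abs_sub (∑ n ∈ Icc 1 y, (∏ i, Fp (n + m i) - ∏ i, lamz z (n + m i)))
        (∑ n ∈ range X, (if 1 ≤ n ∧ n ≤ y then (1 : ℝ) else 0) * (∏ i, fp z (n + m i) - ∏ i, gp z (n + m i)))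
      linarith
    refine (sum_le_sum h3).trans ?_
    rw [sum_add_distrib, sum_const, nsmul_eq_mul, hOmc]
    have e3 : (X : ℝ) ^ K * (X / L ^ A1) = (X : ℝ) ^ (K + 1) / L ^ A1 := by rw [pow_succ]; ring
    rw [e3]
    linarith
  set thr : ℝ := X / L ^ A3 with hthr
  have hthr0 : 0 < thr := by positivity
  set B1 := Om.filter (fun m => BadJ G M thr m) with hB1
  set B2 := Om.filter (fun m => ¬ Function.Injective m) with hB2
  have hB1c : (B1.card : ℝ) ≤ (X : ℝ) ^ K / L ^ A / 2 := by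
    have h5 : (B1.card : ℝ) * thr ≤ ((M : ℝ) + 1) * (2 * ((X : ℝ) ^ (K + 1) / L ^ A1)) := by
      calc (B1.card : ℝ) * thr = ∑ m ∈ B1, thr := by rw [sum_const, nsmul_eq_mul]
        _ ≤ ∑ m ∈ B1, ∑ j ∈ range (M + 1), G m j := by
            apply sum_le_sum
            intro m hm
            rw [hB1, mem_filter] at hm
            obtain ⟨_, j, hj, hjE⟩ := hm
            exact hjE.le.trans (single_le_sum (f := fun j => G m j) (fun j _ => hG0 m j) hj)
        _ ≤ ∑ m ∈ Om, ∑ j ∈ range (M + 1), G m j := by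
            apply sum_le_sum_of_subset_of_nonneg (filter_subset _ _)
            intro m _ _
            exact sum_nonneg fun j _ => hG0 m j
        _ = ∑ j ∈ range (M + 1), ∑ m ∈ Om, G m j := sum_comm
        _ ≤ ∑ _j ∈ range (M + 1), 2 * ((X : ℝ) ^ (K + 1) / L ^ A1) := sum_le_sum hsum
        _ = _ := by
            rw [sum_const, card_range, nsmul_eq_mul]
            push_cast
            ring
    have e1 : L ^ A1 = L ^ A * L ^ (A + 3) * L ^ A3 * L ^ 4 := by
      rw [hA1]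
      ring
    have h6 : (B1.card : ℝ) * thr ≤ ((X : ℝ) ^ K / L ^ A / 2) * thr := by
      refine h5.trans ?_
      calc ((M : ℝ) + 1) * (2 * ((X : ℝ) ^ (K + 1) / L ^ A1)) ≤ (3 * L ^ (A + 3)) * (2 * ((X : ℝ) ^ (K + 1) / L ^ A1)) := by gcongr
        _ = ((X : ℝ) ^ K / L ^ A) * (X / L ^ A3) * (6 / L ^ 4) := by
            rw [e1, pow_succ]
            field_simp
            ring
        _ ≤ ((X : ℝ) ^ K / L ^ A) * (X / L ^ A3) * (1 / 2) := by
            apply mul_le_mul_of_nonneg_left _ (by positivity)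
            rw [div_le_div_iff₀ (by positivity) (by norm_num)]
            have : L ≤ L ^ 4 := le_self_pow₀ (by linarith) (by norm_num)
            linarith
        _ = _ := by rw [hthr]; ring
    exact le_of_mul_le_mul_right h6 hthr0
  have hB2c : (B2.card : ℝ) ≤ (X : ℝ) ^ K / L ^ A / 2 := by
    have h5 := card_noninj' K X
    have h6 : (B2.card : ℝ) * X ≤ ((X : ℝ) ^ K / L ^ A / 2) * X := by
      refine h5.trans ?_
      have h7 : (K : ℝ) ^ 2 ≤ 1 / L ^ A / 2 * X := by
        have h8 : (K : ℝ) ≤ √L := by linarith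
        have h9 : (K : ℝ) ^ 2 ≤ L := by
          calc (K : ℝ) ^ 2 ≤ √L ^ 2 := by gcongr
            _ = L := Real.sq_sqrt hL0.le
        have h10 : 2 * L * L ^ A ≤ X := by
          have hpow : ∀ n : ℕ, L ^ n = Real.exp (n * Real.log L) := by
            intro n
            rw [Real.exp_nat_mul, hLe]
          have h11 : 2 * L * L ^ A ≤ L ^ (A + 2) := by
            have e5 : L ^ (A + 2) = L ^ A * L ^ 2 := by ring
            rw [e5]
            have : 0 < L ^ A := by positivity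
            have h12 : 2 * L ≤ L ^ 2 := by nlinarith
            nlinarith
          refine h11.trans ?_
          rw [hpow, ← hXe]
          apply Real.exp_le_exp.2
          have h13 : ((A + 2 : ℕ) : ℝ) ≤ A1 := by exact_mod_cast (by omega : A + 2 ≤ A1)
          have h15 := bg.b0
          have h14 : ((A + 2 : ℕ) : ℝ) * Real.log L ≤ A1 * Real.log L := by gcongr
          linarith
        refine h9.trans ?_
        have e6 : 1 / L ^ A / 2 * (X : ℝ) = X / (2 * L ^ A) := by field_simp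
        rw [e6, le_div_iff₀ (by positivity)]
        linarith
      calc (K : ℝ) ^ 2 * (X : ℝ) ^ K ≤ (1 / L ^ A / 2 * X) * (X : ℝ) ^ K := by gcongr
        _ = _ := by ring
    exact le_of_mul_le_mul_right h6 hX0
  have hsub : Om.filter (fun m => ¬ FineL A X m) ⊆ B1 ∪ B2 := by
    intro m hm
    rw [mem_filter] at hm
    obtain ⟨hmO, hmF⟩ := hm
    rw [mem_union]
    by_contra hcon
    push Not at hcon
    obtain ⟨hn1, hn2⟩ := hcon
    apply hmF
    have hmX : ∀ i, m i ≤ X := fun i => (mem_range.1 (Fintype.mem_piFinset.1 hmO i)).le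
    have hinj : Function.Injective m := by
      by_contra hni
      exact hn2 (mem_filter.2 ⟨hmO, hni⟩)
    refine fine_of A3 rfl bg hEA hK hKB X M hXe hM1 hV m hmX hinj ?_
    intro j hj
    by_contra hcc
    push Not at hcc
    apply hn1
    rw [hB1, mem_filter]
    exact ⟨hmO, j, mem_range.2 (by omega), hcc⟩
  have h5 : ((Om.filter (fun m => ¬ FineL A X m)).card : ℝ) ≤ B1.card + B2.card := by
    exact_mod_cast (card_le_card hsub).trans (card_union_le _ _)
  linarith

end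

end Run7.h402.PX
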